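import Pool.Agent.IAH.HDef

/-!
# Operators on the bar complex of a group with trivial coefficients
-/

namespace Pool.Agent.IAH

open Finsupp

section ops0

variable {k G : Type} [CommRing k]

/-- Put `g` in front. -/
noncomputable def pre {n : ℕ} (g : G) : Ch k G n →ₗ[k] Ch k G (n + 1) :=
  lmapDomain k k (fun t => (Fin.cons g t : Fin (n + 1) → G))

/-- Remove the first entry. -/
noncomputable def tl {n : ℕ} : Ch k G (n + 1) →ₗ[k] Ch k G n :=
  lmapDomain k k (fun t => (Fin.tail t : Fin n → G))

/-- Apply a function to all the entries. -/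
noncomputable def mp {H : Type} {n : ℕ} (f : G → H) : Ch k G n →ₗ[k] Ch k H n :=
  lmapDomain k k (fun t i => f (t i))

theorem pre_single {n : ℕ} (g : G) (t : Fin n → G) (c : k) :
    pre g (single t c) = single (Fin.cons g t : Fin (n + 1) → G) c := by
  simp [pre, mapDomain_single]

theorem tl_pre {n : ℕ} (g : G) (x : Ch k G n) : tl (pre g x) = x := by
  induction x using Finsupp.induction_linear with
  | zero => simp
  | add x y hx hy => rw [map_add, map_add, hx, hy]
  | single t c => simp [pre, tl, mapDomain_single]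

theorem mp_pre {H : Type} {n : ℕ} (f : G → H) (g : G) (x : Ch k G n) :
    mp f (pre g x) = pre (f g) (mp f x) := by
  induction x using Finsupp.induction_linear with
  | zero => simp
  | add x y hx hy => rw [map_add, map_add, map_add, map_add, hx, hy]
  | single t c =>
    simp only [pre, mp, lmapDomain_apply, mapDomain_single]
    congr 1
    funext i
    refine Fin.cases ?_ (fun j => ?_) i <;> simp

theorem mp_zero {H : Type} (f : G → H) (c : k) :
    mp f (single (fun i : Fin 0 => i.elim0) c) = single (fun i : Fin 0 => i.elim0) c := by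
  simp only [mp, lmapDomain_apply, mapDomain_single]
  congr 1
  funext i
  exact i.elim0

/-- The empty tuple. -/
noncomputable def e0 : Ch k G 0 := single (fun i : Fin 0 => i.elim0) 1

theorem ch_zero_eq (x : Ch k G 0) : ∃ c : k, x = c • e0 := by
  refine ⟨x (fun i => i.elim0), Finsupp.ext fun t => ?_⟩
  have : t = (fun i : Fin 0 => i.elim0) := by funext i; exact i.elim0
  subst this
  simp [e0]

theorem ch_ext_zero {M : Type} [AddCommGroup M] [Module k M] {A B : Ch k G 0 →ₗ[k] M}
    (h : A e0 = B e0) (x : Ch k G 0) : A x = B x := by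
  obtain ⟨c, rfl⟩ := ch_zero_eq x
  rw [map_smul, map_smul, h]

theorem ch_ext_succ {M : Type} [AddCommGroup M] [Module k M] {n : ℕ}
    {A B : Ch k G (n + 1) →ₗ[k] M}
    (h : ∀ g (y : Ch k G n), A (pre g y) = B (pre g y)) (x : Ch k G (n + 1)) : A x = B x := by
  induction x using Finsupp.induction_linear with
  | zero => simp
  | add x y hx hy => rw [map_add, map_add, hx, hy]
  | single t c =>
    have := h (t 0) (single (Fin.tail t) c)
    rwa [pre_single, Fin.cons_self_tail] at this

theorem tl_mp {H : Type} {n : ℕ} (f : G → H) (x : Ch k G (n + 1)) :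
    tl (mp f x) = mp f (tl x) := by
  refine ch_ext_succ (A := tl.comp (mp f)) (B := (mp f).comp tl) (fun g y => ?_) x
  rw [LinearMap.comp_apply, LinearMap.comp_apply, mp_pre, tl_pre, tl_pre]

theorem mp_mp {H K : Type} (f : G → H) (g : H → K) {n : ℕ} (x : Ch k G n) :
    mp g (mp f x) = mp (g ∘ f) x := by
  induction x using Finsupp.induction_linear with
  | zero => simp
  | add x y hx hy => simp only [map_add, hx, hy]
  | single t c => simp [mp, mapDomain_single]

theorem mp_id {n : ℕ} (x : Ch k G n) : mp (fun g => g) x = x := by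
  induction x using Finsupp.induction_linear with
  | zero => simp
  | add x y hx hy => simp only [map_add, hx, hy]
  | single t c => simp [mp, mapDomain_single]

end ops0

section ops

variable {k G : Type} [CommRing k] [Group G]

/-- Multiply the first entry by `g` on the left (nothing happens in degree `0`). -/
noncomputable def ml {n : ℕ} (g : G) : Ch k G n →ₗ[k] Ch k G n :=
  lmapDomain k k (fun t i => if (i : ℕ) = 0 then g * t i else t i)

/-- Conjugation of all the entries. -/
noncomputable def cj {n : ℕ} (a : G) : Ch k G n →ₗ[k] Ch k G n :=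
  mp (fun g => a⁻¹ * g * a)

theorem cj_pre {n : ℕ} (a g : G) (x : Ch k G n) :
    cj a (pre g x) = pre (a⁻¹ * g * a) (cj a x) := mp_pre _ _ _

theorem cj_zero (a : G) (x : Ch k G 0) : cj a x = x := by
  obtain ⟨c, rfl⟩ := ch_zero_eq x
  simp only [cj, e0, map_smul, mp_zero]

theorem ml_pre {n : ℕ} (g h : G) (x : Ch k G n) :
    ml g (pre h x) = pre (g * h) x := by
  induction x using Finsupp.induction_linear with
  | zero => simp
  | add x y hx hy => rw [map_add, map_add, map_add, hx, hy]
  | single t c =>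
    simp only [pre, ml, lmapDomain_apply, mapDomain_single]
    congr 1
    funext i
    refine Fin.cases ?_ (fun j => ?_) i <;> simp

theorem ml_zero (g : G) (x : Ch k G 0) : ml g x = x := by
  induction x using Finsupp.induction_linear with
  | zero => simp
  | add x y hx hy => rw [map_add, hx, hy]
  | single t c =>
    simp only [ml, lmapDomain_apply, mapDomain_single]
    congr 1
    funext i
    exact i.elim0

/-- All faces except the first one, on basis elements. -/
noncomputable def Dt : (n : ℕ) → (Fin (n + 1) → G) → Ch k G n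
  | 0, _ => - e0
  | n + 1, t => - ml (t 0) (single (Fin.tail t) 1) - pre (t 0) (Dt n (Fin.tail t))

/-- All faces except the first one. -/
noncomputable def D {n : ℕ} : Ch k G (n + 1) →ₗ[k] Ch k G n :=
  linearCombination k (Dt n)

/-- The boundary map. -/
noncomputable def bd {n : ℕ} : Ch k G (n + 1) →ₗ[k] Ch k G n := tl + D

theorem D_single {n : ℕ} (t : Fin (n + 1) → G) (c : k) : D (single t c) = c • Dt n t := by
  rw [D, linearCombination_single]

theorem D_pre_zero (g : G) (x : Ch k G 0) : D (pre g x) = - x := by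
  obtain ⟨c, rfl⟩ := ch_zero_eq x
  rw [map_smul, map_smul, e0, pre_single, D_single, Dt]
  simp [e0]

theorem D_pre {n : ℕ} (g : G) (x : Ch k G (n + 1)) :
    D (pre g x) = - ml g x - pre g (D x) := by
  induction x using Finsupp.induction_linear with
  | zero => simp
  | add x y hx hy => simp only [map_add, hx, hy]; abel
  | single t c =>
    rw [pre_single, D_single, Dt, D_single]
    simp only [Fin.cons_zero, Fin.tail_cons, map_smul, smul_sub, smul_neg]
    rw [← map_smul, smul_single, smul_eq_mul, mul_one]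

theorem bd_pre_zero (g : G) (x : Ch k G 0) : bd (pre g x) = 0 := by
  rw [bd, LinearMap.add_apply, tl_pre, D_pre_zero, add_neg_cancel]

theorem D_mp {H : Type} [Group H] (f : G →* H) : ∀ {n : ℕ} (x : Ch k G (n + 1)),
    D (mp f x) = mp f (D x)
  | 0, x => by
    refine ch_ext_succ (A := D.comp (mp f)) (B := (mp f).comp D) (fun g y => ?_) x
    simp only [LinearMap.comp_apply, mp_pre, D_pre_zero, map_neg]
  | n + 1, x => by
    refine ch_ext_succ (A := D.comp (mp f)) (B := (mp f).comp D) (fun g y => ?_) x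
    simp only [LinearMap.comp_apply, mp_pre, D_pre, map_neg, map_sub, D_mp f y]
    congr 2
    refine ch_ext_succ (A := (ml (f g)).comp (mp f)) (B := (mp f).comp (ml g)) (fun h z => ?_) y
    simp only [LinearMap.comp_apply, mp_pre, ml_pre, map_mul]

theorem bd_mp {H : Type} [Group H] (f : G →* H) {n : ℕ} (x : Ch k G (n + 1)) :
    bd (mp f x) = mp f (bd x) := by
  simp only [bd, LinearMap.add_apply, tl_mp, D_mp, map_add]

theorem ml_mp {H : Type} [Group H] (f : G →* H) (g : G) : ∀ {n : ℕ} (x : Ch k G n),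
    ml (f g) (mp f x) = mp f (ml g x)
  | 0, x => by rw [ml_zero, ml_zero]
  | n + 1, x => by
    refine ch_ext_succ (A := (ml (f g)).comp (mp f)) (B := (mp f).comp (ml g)) (fun h z => ?_) x
    simp only [LinearMap.comp_apply, mp_pre, ml_pre, map_mul]

/-- Conjugation by `a⁻¹` as a homomorphism. -/
def cjHom (a : G) : G →* G := (MulAut.conj a⁻¹).toMonoidHom

theorem cjHom_apply (a g : G) : cjHom a g = a⁻¹ * g * a := by
  simp [cjHom]

theorem cj_eq (a : G) {n : ℕ} (x : Ch k G n) :
    cj a x = mp (cjHom a) x := by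
  unfold cj
  congr 2
  funext g
  rw [cjHom_apply]

theorem D_cj (a : G) {n : ℕ} (x : Ch k G (n + 1)) : D (cj a x) = cj a (D x) := by
  rw [cj_eq, cj_eq, D_mp]

theorem bd_cj (a : G) {n : ℕ} (x : Ch k G (n + 1)) : bd (cj a x) = cj a (bd x) := by
  rw [cj_eq, cj_eq, bd_mp]

theorem cj_cj (a b : G) {n : ℕ} (x : Ch k G n) : cj b (cj a x) = cj (a * b) x := by
  rw [cj, cj, cj, mp_mp]
  congr 2
  funext g
  simp [mul_assoc]

/-- The homotopy operator attached to `a`, on basis elements: the signed sum of all insertions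
of `a`, the entries after `a` being conjugated. -/
noncomputable def Ht (a : G) : (n : ℕ) → (Fin n → G) → Ch k G (n + 1)
  | 0, _ => pre a e0
  | n + 1, t => pre a (cj a (single t 1)) - pre (t 0) (Ht a n (Fin.tail t))

/-- The homotopy operator attached to `a`. -/
noncomputable def Hop (a : G) {n : ℕ} : Ch k G n →ₗ[k] Ch k G (n + 1) :=
  linearCombination k (Ht a n)

theorem Hop_single (a : G) {n : ℕ} (t : Fin n → G) (c : k) :
    Hop a (single t c) = c • Ht a n t := by
  rw [Hop, linearCombination_single]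

theorem Hop_zero (a : G) (x : Ch k G 0) : Hop a x = pre a x := by
  obtain ⟨c, rfl⟩ := ch_zero_eq x
  rw [map_smul, map_smul, e0, Hop_single, Ht, one_smul, e0]

theorem Hop_pre (a g : G) {n : ℕ} (x : Ch k G n) :
    Hop a (pre g x) = pre a (cj a (pre g x)) - pre g (Hop a x) := by
  induction x using Finsupp.induction_linear with
  | zero => simp
  | add x y hx hy => simp only [map_add, hx, hy]; abel
  | single t c =>
    rw [pre_single, Hop_single, Ht, Hop_single]
    simp only [Fin.cons_zero, Fin.tail_cons, map_smul, smul_sub]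
    rw [← map_smul, ← map_smul, smul_single, smul_eq_mul, mul_one]

theorem tl_Hop_zero (a : G) (x : Ch k G 0) : tl (Hop a x) = x := by
  rw [Hop_zero, tl_pre]

theorem tl_Hop (a : G) {n : ℕ} (x : Ch k G (n + 1)) :
    tl (Hop a x) = cj a x - Hop a (tl x) := by
  refine ch_ext_succ (A := tl.comp (Hop a)) (B := cj a - (Hop a).comp tl) (fun g y => ?_) x
  simp only [LinearMap.comp_apply, LinearMap.sub_apply, Hop_pre, map_sub, tl_pre]

theorem ml_Hop (a g : G) : ∀ {n : ℕ} (x : Ch k G n),
    ml g (Hop a x) = Hop a (ml g x) + pre (g * a) (cj a x) - pre a (cj a (ml g x))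
  | 0, x => by
    rw [Hop_zero, Hop_zero, ml_pre, ml_zero]
    obtain ⟨c, rfl⟩ := ch_zero_eq x
    simp only [cj, e0, map_smul, mp_zero]
    abel
  | n + 1, x => by
    refine ch_ext_succ (A := (ml g).comp (Hop a)) (B := (Hop a).comp (ml g) +
      (pre (g * a)).comp (cj a) - (pre a).comp ((cj a).comp (ml g))) (fun h y => ?_) x
    simp only [LinearMap.comp_apply, LinearMap.sub_apply, LinearMap.add_apply, Hop_pre, map_sub,
      ml_pre]
    abel

theorem D_Hop_zero (a : G) (x : Ch k G 0) : D (Hop a x) = - x := by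
  rw [Hop_zero, D_pre_zero]

theorem ml_a_pre_cj (a g : G) {n : ℕ} (x : Ch k G n) :
    ml a (pre (a⁻¹ * g * a) x) = pre (g * a) x := by
  rw [ml_pre]; congr 1; group

theorem ml_cj (a g : G) {n : ℕ} (x : Ch k G n) :
    ml (a⁻¹ * g * a) (cj a x) = cj a (ml g x) := by
  rw [cj_eq, cj_eq, ← ml_mp, cjHom_apply]

theorem D_Hop (a : G) : ∀ {n : ℕ} (x : Ch k G (n + 1)),
    D (Hop a x) = - x - Hop a (D x)
  | 0, x => by
    refine ch_ext_succ (A := D.comp (Hop a)) (B := - LinearMap.id - (Hop a).comp D)
      (fun g y => ?_) x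
    simp only [LinearMap.comp_apply, LinearMap.sub_apply, LinearMap.neg_apply, LinearMap.id_apply]
    have e : a * (a⁻¹ * g * a) = g * a := by group
    rw [Hop_pre, map_sub, D_pre, D_pre, cj_pre, D_pre_zero, ml_pre, Hop_zero, D_pre_zero, ml_pre,
      D_pre_zero, cj_zero, map_neg, map_neg, map_neg, Hop_zero, e]
    abel
  | n + 1, x => by
    refine ch_ext_succ (A := D.comp (Hop a)) (B := - LinearMap.id - (Hop a).comp D)
      (fun g y => ?_) x
    simp only [LinearMap.comp_apply, LinearMap.sub_apply, LinearMap.neg_apply, LinearMap.id_apply]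
    have e1 : D (cj a (pre g y)) = - cj a (ml g y) - pre (a⁻¹ * g * a) (cj a (D y)) := by
      rw [D_cj, D_pre, map_sub, map_neg, cj_pre]
    have e2 : D (Hop a (pre g y)) = - pre (g * a) (cj a y) - pre a (D (cj a (pre g y)))
        - (- ml g (Hop a y) - pre g (D (Hop a y))) := by
      rw [Hop_pre, map_sub, D_pre, D_pre, cj_pre, ml_a_pre_cj]
    rw [e2, e1, ml_Hop, D_Hop a y, D_pre, map_sub, map_neg, map_sub, map_sub, map_neg, map_neg,
      Hop_pre, cj_pre]
    abel

theorem bd_Hop_zero (a : G) (x : Ch k G 0) : bd (Hop a x) = 0 := by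
  rw [bd, LinearMap.add_apply, tl_Hop_zero, D_Hop_zero, add_neg_cancel]

/-- The homotopy formula. -/
theorem bd_Hop (a : G) {n : ℕ} (x : Ch k G (n + 1)) :
    bd (Hop a x) = cj a x - x - Hop a (bd x) := by
  simp only [bd, LinearMap.add_apply, tl_Hop, D_Hop, map_add]
  abel

theorem Hop_mp {H : Type} [Group H] (f : G →* H) (a : G) : ∀ {n : ℕ} (x : Ch k G n),
    Hop (f a) (mp f x) = mp f (Hop a x)
  | 0, x => by rw [Hop_zero, Hop_zero, mp_pre]
  | n + 1, x => by
    refine ch_ext_succ (A := (Hop (f a)).comp (mp f)) (B := (mp f).comp (Hop a)) (fun g y => ?_) x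
    have e : ∀ z : Ch k G (n + 1), cj (f a) (mp f z) = mp f (cj a z) := by
      intro z
      rw [cj, cj, mp_mp, mp_mp]
      congr 2
      funext w
      simp
    rw [LinearMap.comp_apply, LinearMap.comp_apply, Hop_pre, mp_pre, Hop_pre, map_sub, mp_pre,
      mp_pre, Hop_mp f a y, ← mp_pre, e]

/-- The homotopy for products, on basis elements. -/
noncomputable def Jt (a b : G) : (n : ℕ) → (Fin n → G) → Ch k G (n + 2)
  | 0, _ => pre a (pre b e0)
  | n + 1, t => pre a (Hop b (cj a (single t 1))) + pre (t 0) (Jt a b n (Fin.tail t))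

/-- The homotopy for products. -/
noncomputable def Jop (a b : G) {n : ℕ} : Ch k G n →ₗ[k] Ch k G (n + 2) :=
  linearCombination k (Jt a b n)

theorem Jop_single (a b : G) {n : ℕ} (t : Fin n → G) (c : k) :
    Jop a b (single t c) = c • Jt a b n t := by
  rw [Jop, linearCombination_single]

theorem Jop_zero (a b : G) (x : Ch k G 0) : Jop a b x = pre a (pre b x) := by
  obtain ⟨c, rfl⟩ := ch_zero_eq x
  simp only [map_smul]
  rw [e0, Jop_single, Jt, one_smul, e0]

theorem Jop_pre (a b g : G) {n : ℕ} (x : Ch k G n) :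
    Jop a b (pre g x) = pre a (Hop b (cj a (pre g x))) + pre g (Jop a b x) := by
  induction x using Finsupp.induction_linear with
  | zero => simp
  | add x y hx hy => simp only [map_add, hx, hy]; abel
  | single t c =>
    rw [pre_single, Jop_single, Jt, Jop_single]
    simp only [Fin.cons_zero, Fin.tail_cons, map_smul, smul_add]
    rw [← map_smul, ← map_smul, ← map_smul, smul_single, smul_eq_mul, mul_one]

theorem tl_Jop_zero (a b : G) (x : Ch k G 0) : tl (Jop a b x) = Hop b x := by
  rw [Jop_zero, tl_pre, Hop_zero]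

theorem tl_Jop (a b : G) {n : ℕ} (x : Ch k G (n + 1)) :
    tl (Jop a b x) = Hop b (cj a x) + Jop a b (tl x) := by
  refine ch_ext_succ (A := tl.comp (Jop a b)) (B := (Hop b).comp (cj a) + (Jop a b).comp tl)
    (fun g y => ?_) x
  simp only [LinearMap.comp_apply, LinearMap.add_apply, Jop_pre, map_add, tl_pre]

theorem ml_Jop (a b g : G) : ∀ {n : ℕ} (x : Ch k G n),
    ml g (Jop a b x) = Jop a b (ml g x) + pre (g * a) (Hop b (cj a x))
      - pre a (Hop b (cj a (ml g x)))
  | 0, x => by
    have h : cj a x = x := by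
      obtain ⟨c, rfl⟩ := ch_zero_eq x
      simp only [cj, e0, map_smul, mp_zero]
    rw [ml_zero, h, Jop_zero, ml_pre, Hop_zero]
    abel
  | n + 1, x => by
    refine ch_ext_succ (A := (ml g).comp (Jop a b)) (B := (Jop a b).comp (ml g) +
      (pre (g * a)).comp ((Hop b).comp (cj a)) - (pre a).comp ((Hop b).comp ((cj a).comp (ml g))))
      (fun h y => ?_) x
    simp only [LinearMap.comp_apply, LinearMap.sub_apply, LinearMap.add_apply, Jop_pre, map_add,
      ml_pre]
    abel

theorem D_Jop_zero (a b : G) (x : Ch k G 0) : D (Jop a b x) = Hop a x - Hop (a * b) x := by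
  rw [Jop_zero, D_pre, D_pre_zero, ml_pre, Hop_zero, Hop_zero, map_neg]
  abel

theorem D_Jop (a b : G) : ∀ {n : ℕ} (x : Ch k G (n + 1)),
    D (Jop a b x) = Jop a b (D x) + Hop a x - Hop (a * b) x
  | 0, x => by
    refine ch_ext_succ (A := D.comp (Jop a b)) (B := (Jop a b).comp D + Hop a - Hop (a * b))
      (fun g y => ?_) x
    simp only [LinearMap.comp_apply, LinearMap.sub_apply, LinearMap.add_apply]
    have e : a * (a⁻¹ * g * a) = g * a := by group
    have e1 : D (Jop a b (pre g y)) = - ml a (Hop b (cj a (pre g y)))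
        - pre a (D (Hop b (cj a (pre g y)))) - ml g (Jop a b y) - pre g (D (Jop a b y)) := by
      rw [Jop_pre, map_add, D_pre, D_pre]
      abel
    have e2 : Hop b (cj a (pre g y)) = pre b (cj (a * b) (pre g y)) - pre (a⁻¹ * g * a) (pre b y) := by
      rw [cj_pre, cj_zero, Hop_pre, Hop_zero, cj_pre, cj_zero, cj_pre, cj_zero]
      congr 3
      group
    have e3 : ml a (Hop b (cj a (pre g y))) = pre (a * b) (cj (a * b) (pre g y))
        - pre (g * a) (pre b y) := by
      rw [e2, map_sub, ml_pre, ml_pre, e]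
    have e4 : D (Hop b (cj a (pre g y))) = - cj a (pre g y) + pre b y := by
      rw [D_Hop, cj_pre, cj_zero, D_pre_zero, map_neg, Hop_zero]
      abel
    rw [e1, e3, e4, D_Jop_zero, D_pre_zero, Jop_zero, ml_pre, map_neg, Jop_zero, Hop_zero,
      Hop_zero, Hop_pre, Hop_pre, Hop_zero, Hop_zero, map_add, map_neg, map_sub]
    abel
  | n + 1, x => by
    refine ch_ext_succ (A := D.comp (Jop a b)) (B := (Jop a b).comp D + Hop a - Hop (a * b))
      (fun g y => ?_) x
    simp only [LinearMap.comp_apply, LinearMap.sub_apply, LinearMap.add_apply]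
    have e : a * (a⁻¹ * g * a) = g * a := by group
    have e1 : D (Jop a b (pre g y)) = - ml a (Hop b (cj a (pre g y)))
        - pre a (D (Hop b (cj a (pre g y)))) - ml g (Jop a b y) - pre g (D (Jop a b y)) := by
      rw [Jop_pre, map_add, D_pre, D_pre]
      abel
    have e2 : Hop b (cj a (pre g y)) = pre b (cj (a * b) (pre g y))
        - pre (a⁻¹ * g * a) (Hop b (cj a y)) := by
      rw [cj_pre, Hop_pre, ← cj_pre, cj_cj]
    have e3 : ml a (Hop b (cj a (pre g y))) = pre (a * b) (cj (a * b) (pre g y))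
        - pre (g * a) (Hop b (cj a y)) := by
      rw [e2, map_sub, ml_pre, ml_pre, e]
    have e4 : D (Hop b (cj a (pre g y))) = - cj a (pre g y) + Hop b (cj a (ml g y))
        + Hop b (cj a (pre g (D y))) := by
      rw [D_Hop, D_cj, D_pre, map_sub, map_sub, map_neg, map_neg]
      abel
    rw [e1, e3, e4, D_Jop a b y, ml_Jop, D_pre]
    simp only [map_sub, map_add, map_neg, Jop_pre, Hop_pre]
    abel

theorem bd_Jop_zero (a b : G) (x : Ch k G 0) :
    bd (Jop a b x) = Hop b (cj a x) + Hop a x - Hop (a * b) x := by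
  rw [bd, LinearMap.add_apply, tl_Jop_zero, D_Jop_zero, cj_zero]
  abel

theorem bd_Jop (a b : G) {n : ℕ} (x : Ch k G (n + 1)) :
    bd (Jop a b x) = Hop b (cj a x) + Hop a x - Hop (a * b) x + Jop a b (bd x) := by
  simp only [bd, LinearMap.add_apply, tl_Jop, D_Jop, map_add]
  abel

theorem Jop_mp {H : Type} [Group H] (f : G →* H) (a b : G) : ∀ {n : ℕ} (x : Ch k G n),
    Jop (f a) (f b) (mp f x) = mp f (Jop a b x)
  | 0, x => by rw [Jop_zero, Jop_zero, mp_pre, mp_pre]
  | n + 1, x => by
    refine ch_ext_succ (A := (Jop (f a) (f b)).comp (mp f)) (B := (mp f).comp (Jop a b))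
      (fun g y => ?_) x
    have e : ∀ z : Ch k G (n + 1), cj (f a) (mp f z) = mp f (cj a z) := by
      intro z
      rw [cj, cj, mp_mp, mp_mp]
      congr 2
      funext w
      simp
    rw [LinearMap.comp_apply, LinearMap.comp_apply, Jop_pre, mp_pre, Jop_pre, map_add, mp_pre,
      mp_pre, Jop_mp f a b y, ← mp_pre, e, Hop_mp]

end ops

end Pool.Agent.IAH
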