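import Pool.Agent.IAH.Sz

/-!
# Criteria for the weak degree
-/

namespace Pool.Agent.IAH

open CategoryTheory CategoryTheory.Limits

variable {k : Type} [CommRing k]

/-- `F` applied to the morphism given by an injection. -/
noncomputable def fI (F : SZ ⥤ ModuleCat k) {A B : SZ} (j : A.X → B.X)
    (hj : Function.Injective j) : F.obj A →ₗ[k] F.obj B := (F.map (ofInj j hj)).hom

theorem fI_comp (F : SZ ⥤ ModuleCat k) {A B C : SZ} (j : A.X → B.X)
    (hj : Function.Injective j) (l : B.X → C.X) (hl : Function.Injective l) (u : F.obj A) :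
    fI F l hl (fI F j hj u) = fI F (l ∘ j) (hl.comp hj) u := by
  have h := F.map_comp (ofInj j hj) (ofInj l hl)
  rw [ofInj_comp] at h
  exact (congrArg (fun g => g.hom u) h).symm

theorem fI_congr (F : SZ ⥤ ModuleCat k) {A B : SZ} {j l : A.X → B.X} (h : j = l)
    (hj : Function.Injective j) (u : F.obj A) :
    fI F j hj u = fI F l (h ▸ hj) u := by
  subst h; rfl

theorem fI_id (F : SZ ⥤ ModuleCat k) (A : SZ) (u : F.obj A) :
    fI F (id : A.X → A.X) Function.injective_id u = u := by
  have h := F.map_id A
  rw [← ofInj_id] at h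
  exact congrArg (fun g => g.hom u) h

/-- Two ways around. -/
theorem fI_two (F : SZ ⥤ ModuleCat k) {A B B' C : SZ} {j : A.X → B.X}
    {hj : Function.Injective j} {l : B.X → C.X} {hl : Function.Injective l} {j' : A.X → B'.X}
    {hj' : Function.Injective j'} {l' : B'.X → C.X} {hl' : Function.Injective l'}
    (h : l ∘ j = l' ∘ j') (u : F.obj A) :
    fI F l hl (fI F j hj u) = fI F l' hl' (fI F j' hj' u) := by
  rw [fI_comp, fI_comp]
  exact fI_congr F h _ u

theorem dpi_fI (x : SZ) (F : SZ ⥤ ModuleCat k) {Y Y' : SZ} (j : Y.X → Y'.X)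
    (hj : Function.Injective j) (u : F.obj (x.add Y)) :
    fI (delta x F) j hj (dpi x F Y u)
      = dpi x F Y' (fI F (A := x.add Y) (B := x.add Y') (Sum.map id j)
        (Sum.map_injective.2 ⟨Function.injective_id, hj⟩) u) := by
  have h := dpi_nat x F (ofInj j hj) u
  rw [← ofInj_id, sumMap_ofInj] at h
  exact h

/-- The span of the images of the values on the small subsets. -/
def Sml (F : SZ ⥤ ModuleCat k) (Z : SZ) (m : ℕ) (Y : SZ) : Submodule k (F.obj (Y.add Z)) :=
  Submodule.span k {v | ∃ (S : SZ) (j : S.X → Y.X) (hj : Function.Injective j)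
    (w : F.obj (S.add Z)), Nat.card S.X < m ∧
    fI F (A := S.add Z) (B := Y.add Z) (Sum.map j id)
      (Sum.map_injective.2 ⟨hj, Function.injective_id⟩) w = v}

/-- The reassociation map. -/
def asc {A B C : Type} : (A ⊕ B) ⊕ C → A ⊕ (B ⊕ C) := Equiv.sumAssoc A B C

theorem asc_inj {A B C : Type} : Function.Injective (asc : (A ⊕ B) ⊕ C → A ⊕ (B ⊕ C)) :=
  (Equiv.sumAssoc A B C).injective

theorem Sml_delta (F : SZ ⥤ ModuleCat k) (Z : SZ) (m : ℕ) (x Y : SZ)
    (v : F.obj ((x.add Y).add Z)) (hv : v ∈ Sml F Z (m + 1) (x.add Y)) :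
    dpi x F (Y.add Z) (fI F (A := (x.add Y).add Z) (B := x.add (Y.add Z)) asc asc_inj v)
      ∈ Sml (delta x F) Z m Y := by
  refine Submodule.span_induction ?_ (by simp) (fun a b _ _ ha hb => by
    rw [map_add, map_add]; exact Submodule.add_mem _ ha hb)
    (fun c a _ ha => by rw [map_smul, map_smul]; exact Submodule.smul_mem _ _ ha) hv
  rintro _ ⟨S, j, hj, w, hS, rfl⟩
  by_cases hx : ∃ s, ∃ a, j s = Sum.inl a
  · obtain ⟨s0, x0, hs0⟩ := hx
    -- the part of `S` that lies in `Y`
    let S' : SZ := ⟨{s : S.X // ∃ y, j s = Sum.inr y}⟩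
    have hlt : Nat.card S'.X < Nat.card S.X := by
      refine Finite.card_subtype_lt (x := s0) ?_
      rintro ⟨y, hy⟩
      rw [hs0] at hy
      cases hy
    let j' : S'.X → Y.X := fun s => s.2.choose
    have hj' : ∀ s : S'.X, j s.1 = Sum.inr (j' s) := fun s => s.2.choose_spec
    have hinj' : Function.Injective j' := by
      intro a b hab
      apply Subtype.ext
      apply hj
      rw [hj', hj', hab]
    classical
    let κ : (S.add Z).X → (x.add (S'.add Z)).X := fun t => match t with
      | Sum.inl s => if h : ∃ y, j s = Sum.inr y then Sum.inr (Sum.inl ⟨s, h⟩) else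
          Sum.inl ((j s).elim id (fun _ => x0))
      | Sum.inr z => Sum.inr (Sum.inr z)
    have hκ : Sum.map (id : x.X → x.X) (Sum.map j' (id : Z.X → Z.X)) ∘ κ
        = asc ∘ Sum.map j id := by
      funext t
      rcases t with s | z
      · by_cases h : ∃ y, j s = Sum.inr y
        · simp only [κ, Function.comp_apply, dif_pos h, Sum.map_inr, Sum.map_inl]
          exact (congrArg (fun t => (asc (Sum.inl t) : x.X ⊕ (Y.X ⊕ Z.X))) (hj' ⟨s, h⟩)).symm
        · simp only [κ, Function.comp_apply, dif_neg h, Sum.map_inl, id]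
          rcases hjs : j s with a | y
          · rfl
          · exact absurd ⟨y, hjs⟩ h
      · rfl
    have hκi : Function.Injective κ := by
      have : Function.Injective (Sum.map (id : x.X → x.X) (Sum.map j' (id : Z.X → Z.X)) ∘ κ) := by
        rw [hκ]
        exact asc_inj.comp (Sum.map_injective.2 ⟨hj, Function.injective_id⟩)
      exact this.of_comp
    refine Submodule.subset_span ⟨S', j', hinj', dpi x F (S'.add Z) (fI F (B := x.add (S'.add Z))
      κ hκi w), by omega, ?_⟩
    rw [dpi_fI]
    congr 1
    exact fI_two F hκ w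
  · -- `S` lies in `Y`
    have hy : ∀ s, ∃ y, j s = Sum.inr y := by
      intro s
      rcases hjs : j s with a | y
      · exact absurd ⟨s, a, hjs⟩ hx
      · exact ⟨y, rfl⟩
    choose j' hj' using hy
    have hinj' : Function.Injective j' := by
      intro a b hab
      apply hj
      rw [hj', hj', hab]
    have h0 : fI F (A := (x.add Y).add Z) (B := x.add (Y.add Z)) asc asc_inj
        (fI F (A := S.add Z) (B := (x.add Y).add Z) (Sum.map j id)
          (Sum.map_injective.2 ⟨hj, Function.injective_id⟩) w)
        = fI F (A := Y.add Z) (B := x.add (Y.add Z)) Sum.inr Sum.inr_injective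
          (fI F (A := S.add Z) (B := Y.add Z) (Sum.map j' id)
          (Sum.map_injective.2 ⟨hinj', Function.injective_id⟩) w) := by
      refine fI_two F ?_ w
      funext t
      rcases t with s | z
      · simp only [Function.comp_apply, Sum.map_inl]
        rw [hj']
        rfl
      · rfl
    rw [h0]
    have := dpi_incl x F (Y.add Z) (fI F (A := S.add Z) (B := Y.add Z) (Sum.map j' id)
          (Sum.map_injective.2 ⟨hinj', Function.injective_id⟩) w)
    rw [fI, this]
    exact Submodule.zero_mem _

/-- The upper criterion. -/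
theorem wpol_of_small (Z : SZ) : ∀ (m : ℕ) (F : SZ ⥤ ModuleCat k),
    (∀ (Y : SZ) (u : F.obj Y),
      fI F (A := Y) (B := Y.add Z) Sum.inl Sum.inl_injective u ∈ Sml F Z m Y) → WPol m F
  | 0, F, h => by
    intro V u
    refine ⟨Z, ?_⟩
    have h1 := h V u
    have h2 : Sml F Z 0 V = ⊥ := by
      rw [Sml, Submodule.span_eq_bot]
      rintro _ ⟨S, j, hj, w, hS, _⟩
      exact absurd hS (Nat.not_lt_zero _)
    rw [h2, Submodule.mem_bot] at h1
    exact h1
  | m + 1, F, h => by
    intro x
    refine wpol_of_small Z m _ fun Y c => ?_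
    obtain ⟨u, rfl⟩ := dpi_surj x F Y c
    have h1 := Sml_delta F Z m x Y _ (h (x.add Y) u)
    rw [dpi_fI]
    convert h1 using 2
    rw [fI_comp]
    refine fI_congr F ?_ _ u
    funext t
    rcases t with s | z <;> rfl

/-- The span of the images of the values on the proper subsets. -/
def Prp (F : SZ ⥤ ModuleCat k) (Z : SZ) (A : SZ) : Submodule k (F.obj (A.add Z)) :=
  Submodule.span k {v | ∃ (S : SZ) (j : S.X → A.X) (hj : Function.Injective j)
    (w : F.obj (S.add Z)), (∃ a, ∀ s, j s ≠ a) ∧
    fI F (A := S.add Z) (B := A.add Z) (Sum.map j id)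
      (Sum.map_injective.2 ⟨hj, Function.injective_id⟩) w = v}

/-- The lower criterion. -/
theorem small_of_wpol : ∀ (m : ℕ) (F : SZ ⥤ ModuleCat k), WPol m F →
    ∀ (A : SZ), Nat.card A.X = m → ∀ u : F.obj A, ∃ Z : SZ,
      fI F (A := A) (B := A.add Z) Sum.inl Sum.inl_injective u ∈ Prp F Z A
  | 0, F, h, A, _, u => by
    obtain ⟨Z, hZ⟩ := h A u
    refine ⟨Z, ?_⟩
    rw [fI, hZ]
    exact Submodule.zero_mem _
  | m + 1, F, h, A, hA, u => by
    classical
    obtain ⟨a0⟩ : Nonempty A.X := by
      by_contra hn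
      rw [not_nonempty_iff] at hn
      rw [Nat.card_of_isEmpty] at hA
      omega
    let x : SZ := ⟨PUnit⟩
    let A' : SZ := ⟨{a : A.X // a ≠ a0}⟩
    have hA' : Nat.card A'.X = m := by
      have h1 := Nat.card_congr (Equiv.optionSubtypeNe a0)
      have h2 : Nat.card (Option {b : A.X // b ≠ a0}) = Nat.card {b : A.X // b ≠ a0} + 1 :=
        Finite.card_option
      have h3 : Nat.card A'.X = Nat.card {b : A.X // b ≠ a0} := rfl
      omega
    let e : A.X → (x.add A').X := fun a => if h : a = a0 then Sum.inl () else Sum.inr ⟨a, h⟩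
    let e' : (x.add A').X → A.X := fun t => t.elim (fun _ => a0) (fun a => a.1)
    have he' : e' ∘ e = id := by
      funext a
      by_cases h : a = a0
      · subst h; simp [e, e']
      · simp [e, e', h]
    have hei : Function.Injective e := by
      have : Function.Injective (e' ∘ e) := by rw [he']; exact Function.injective_id
      exact this.of_comp
    have he'i : Function.Injective e' := by
      rintro (⟨⟩ | a) (⟨⟩ | b) hab
      · rfl
      · exact absurd hab.symm b.2
      · exact absurd hab a.2
      · exact congrArg Sum.inr (Subtype.ext hab)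
    obtain ⟨Z, hZ⟩ := small_of_wpol m (delta x F) (h x) A' hA'
      (dpi x F A' (fI F (B := x.add A') e hei u))
    refine ⟨Z, ?_⟩
    -- the map `x ⊕ (A' ⊕ Z) → A ⊕ Z`
    let r : (x.add (A'.add Z)).X → (A.add Z).X := fun t => match t with
      | Sum.inl _ => Sum.inl a0
      | Sum.inr (Sum.inl a) => Sum.inl a.1
      | Sum.inr (Sum.inr z) => Sum.inr z
    have hr : Function.Injective r := by
      rintro (⟨⟩ | (a | z)) (⟨⟩ | (b | z')) hab
      · rfl
      · exact absurd (Sum.inl_injective hab).symm b.2
      · cases hab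
      · exact absurd (Sum.inl_injective hab) a.2
      · exact congrArg (fun t => Sum.inr (Sum.inl t)) (Subtype.ext (Sum.inl_injective hab))
      · cases hab
      · cases hab
      · cases hab
      · exact congrArg (fun t => Sum.inr (Sum.inr t)) (Sum.inr_injective hab)
    rw [dpi_fI] at hZ
    -- elements of `F(x ⊕ (A' ⊕ Z))` whose image is in `Prp` come from proper subsets
    have key : ∀ c ∈ Prp (delta x F) Z A', ∀ v : F.obj (x.add (A'.add Z)),
        dpi x F (A'.add Z) v = c → fI F (B := A.add Z) r hr v ∈ Prp F Z A := by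
      have hker : ∀ v : F.obj (x.add (A'.add Z)), dpi x F (A'.add Z) v = 0 →
          fI F (B := A.add Z) r hr v ∈ Prp F Z A := by
        intro v hv
        obtain ⟨w, rfl⟩ := dpi_ker x F _ v hv
        refine Submodule.subset_span ⟨A', fun a => a.1, Subtype.val_injective, w,
          ⟨a0, fun s => s.2⟩, ?_⟩
        have : (F.map (ofInj (A := A'.add Z) (B := x.add (A'.add Z)) Sum.inr
          Sum.inr_injective)).hom w = fI F (A := A'.add Z) (B := x.add (A'.add Z)) Sum.inr
          Sum.inr_injective w := rfl
        rw [this, fI_comp]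
        refine fI_congr F ?_ _ w
        funext t
        rcases t with a | z <;> rfl
      intro c hc
      refine Submodule.span_induction (p := fun c _ => ∀ v : F.obj (x.add (A'.add Z)),
        dpi x F (A'.add Z) v = c → fI F (B := A.add Z) r hr v ∈ Prp F Z A) ?_ hker ?_ ?_ hc
      · rintro _ ⟨S, j, hj, w, ⟨a, ha⟩, rfl⟩ v hv
        obtain ⟨w, rfl⟩ := dpi_surj x F _ w
        rw [dpi_fI, ← sub_eq_zero, ← map_sub] at hv
        have h1 := hker _ hv
        rw [map_sub] at h1
        refine (Submodule.sub_mem_iff_left _ ?_).1 h1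
        refine Submodule.subset_span ⟨x.add S, fun t => t.elim (fun _ => a0) (fun s => (j s).1), ?_,
          fI F (A := x.add (S.add Z)) (B := (x.add S).add Z) (Equiv.sumAssoc x.X S.X Z.X).symm
            (Equiv.injective _) w, ⟨a.1, ?_⟩, ?_⟩
        · rintro (⟨⟩ | s) (⟨⟩ | s') hab
          · rfl
          · exact absurd hab.symm (j s').2
          · exact absurd hab (j s).2
          · exact congrArg Sum.inr (hj (Subtype.ext hab))
        · rintro (⟨⟩ | s) hab
          · exact a.2 hab.symm
          · exact ha s (Subtype.ext hab)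
        · refine fI_two F ?_ w
          funext t
          rcases t with t | (s | z) <;> rfl
      · intro c d _ _ hc hd v hv
        obtain ⟨v', rfl⟩ := dpi_surj x F _ c
        rw [← sub_eq_iff_eq_add', ← map_sub] at hv
        have h1 := hd _ hv
        rw [map_sub] at h1
        exact (Submodule.sub_mem_iff_left _ (hc v' rfl)).1 h1
      · intro b c _ hc v hv
        obtain ⟨v', rfl⟩ := dpi_surj x F _ c
        rw [← map_smul, ← sub_eq_zero, ← map_sub] at hv
        have h1 := hker _ hv
        rw [map_sub, map_smul] at h1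
        exact (Submodule.sub_mem_iff_left _ (Submodule.smul_mem _ _ (hc v' rfl))).1 h1
    have h2 := key _ hZ _ rfl
    rw [fI_comp, fI_comp] at h2
    have h3 : (r ∘ Sum.map id (Sum.inl : A'.X → A'.X ⊕ Z.X)) ∘ e = Sum.inl := by
      funext a
      by_cases h : a = a0
      · subst h; simp [e, r]
      · simp [e, r, h]
    rw [fI_congr F h3] at h2
    exact h2

end Pool.Agent.IAH
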