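import Mathlib

/-!
# Cross effects for the action of a group of integral matrices
-/

namespace Pool.Agent.IAH

section cross

variable {k V Y Z : Type} [CommRing k] [AddCommGroup V] [Module k V]

open Classical in
/-- The elementary matrix. -/
noncomputable def EM (y : Y) (z : Z) (n : ℤ) : Y → Z → ℤ := Pi.single y (Pi.single z n)

theorem EM_apply_self (y : Y) (z : Z) (n : ℤ) : EM y z n y z = n := by
  classical
  simp [EM]

theorem EM_apply_ne_row {y y' : Y} (h : y' ≠ y) (z z' : Z) (n : ℤ) : EM y z n y' z' = 0 := by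
  classical
  simp [EM, h]

theorem EM_apply_ne_col (y y' : Y) {z z' : Z} (h : z' ≠ z) (n : ℤ) : EM y z n y' z' = 0 := by
  classical
  by_cases hy : y' = y
  · subst hy; simp [EM, h]
  · exact EM_apply_ne_row hy _ _ _

theorem EM_smul (y : Y) (z : Z) (n : ℤ) : EM y z n = n • EM y z 1 := by
  funext y' z'
  change EM y z n y' z' = n * EM y z 1 y' z'
  by_cases hy : y' = y
  · subst hy
    by_cases hz : z' = z
    · subst hz; rw [EM_apply_self, EM_apply_self, mul_one]
    · rw [EM_apply_ne_col _ _ hz, EM_apply_ne_col _ _ hz, mul_zero]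
  · rw [EM_apply_ne_row hy, EM_apply_ne_row hy, mul_zero]

variable (U : (Y → Z → ℤ) → V →ₗ[k] V) (hU0 : U 0 = LinearMap.id)
  (hU : ∀ a b, U (a + b) = (U a).comp (U b))

include hU in
theorem U_comm (a b : Y → Z → ℤ) (v : V) : U a (U b v) = U b (U a v) := by
  have h1 := congrArg (fun f => f v) (hU a b)
  have h2 := congrArg (fun f => f v) (hU b a)
  rw [add_comm] at h1
  exact h1.symm.trans h2

/-- The matrices that fix `v`. -/
def fixS (v : V) : AddSubgroup (Y → Z → ℤ) where
  carrier := {a | U a v = v}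
  zero_mem' := by
    change U 0 v = v
    rw [hU0]; rfl
  add_mem' {a b} ha hb := by
    change U (a + b) v = v
    rw [hU, LinearMap.comp_apply, (show U b v = v from hb)]
    exact ha
  neg_mem' {a} ha := by
    change U (-a) v = v
    have h : U (-a) (U a v) = v := by
      rw [← LinearMap.comp_apply, ← hU, neg_add_cancel, hU0]; rfl
    rwa [(show U a v = v from ha)] at h

theorem mem_fixS {v : V} {a : Y → Z → ℤ} : a ∈ fixS U hU0 hU v ↔ U a v = v := Iff.rfl

variable (m : V) (S0 : Set Y) (R : Set Z)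
  (ha : ∀ y, y ∉ S0 → ∀ z, z ∉ R → U (EM y z 1) m = m)
  (hb : ∀ y, y ∉ S0 → ∀ y', y' ∉ S0 → y ≠ y' → ∀ z ∈ R,
    U (EM y' z 1) (U (EM y z 1) m - m) = U (EM y z 1) m - m)

include hU0 hU hb in
theorem cross_fix {y y' : Y} (hy : y ∉ S0) (hy' : y' ∉ S0) (hne : y ≠ y') {z : Z} (hz : z ∈ R)
    (n n' : ℤ) : U (EM y' z n') (U (EM y z n) m - m) = U (EM y z n) m - m := by
  have h0 : EM y z 1 ∈ fixS U hU0 hU (U (EM y' z 1) m - m) :=
    hb y' hy' y hy (Ne.symm hne) z hz
  have h1 : EM y z n ∈ fixS U hU0 hU (U (EM y' z 1) m - m) := by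
    rw [EM_smul y z n]
    exact AddSubgroup.zsmul_mem _ h0 n
  have h2 : EM y' z 1 ∈ fixS U hU0 hU (U (EM y z n) m - m) := by
    rw [mem_fixS, map_sub, U_comm U hU (EM y z n) (EM y' z 1), sub_eq_sub_iff_add_eq_add] at h1
    rw [mem_fixS, map_sub, sub_eq_sub_iff_add_eq_add, h1, add_comm]
  have h3 : EM y' z n' ∈ fixS U hU0 hU (U (EM y z n) m - m) := by
    rw [EM_smul y' z n']
    exact AddSubgroup.zsmul_mem _ h2 n'
  exact h3

/-- The part of the column `z` on the rows of `T`. -/
noncomputable def colM (T : Finset Y) (z : Z) (b : Y → Z → ℤ) : Y → Z → ℤ :=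
  ∑ y ∈ T, EM y z (b y z)

theorem colM_apply_ne (T : Finset Y) {z z' : Z} (h : z' ≠ z) (b : Y → Z → ℤ) (y : Y) :
    colM T z b y z' = 0 := by
  rw [colM, Finset.sum_apply, Finset.sum_apply]
  exact Finset.sum_eq_zero fun y' _ => EM_apply_ne_col _ _ h _

theorem colM_apply_mem {T : Finset Y} {y : Y} (hy : y ∈ T) (z : Z) (b : Y → Z → ℤ) :
    colM T z b y z = b y z := by
  rw [colM, Finset.sum_apply, Finset.sum_apply, Finset.sum_eq_single y]
  · rw [EM_apply_self]
  · intro y' _ h
    exact EM_apply_ne_row (Ne.symm h) _ _ _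
  · intro h; exact absurd hy h

include hU0 hU ha in
theorem col_out {T : Finset Y} (hT : ∀ y ∈ T, y ∉ S0) {z : Z} (hz : z ∉ R) (b : Y → Z → ℤ) :
    U (colM T z b) m = m := by
  have : colM T z b ∈ fixS U hU0 hU m := by
    refine AddSubgroup.sum_mem _ fun y hy => ?_
    rw [EM_smul]
    refine AddSubgroup.zsmul_mem _ ?_ _
    exact ha y (hT y hy) z hz
  exact this

include hU0 hU hb in
theorem col_in {T : Finset Y} (hT : ∀ y ∈ T, y ∉ S0) {z : Z} (hz : z ∈ R) (b : Y → Z → ℤ) :
    U (colM T z b) m = m + ∑ y ∈ T, (U (EM y z (b y z)) m - m) := by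
  classical
  induction T using Finset.induction_on with
  | empty => rw [colM, Finset.sum_empty, Finset.sum_empty, hU0, add_zero]; rfl
  | insert y0 T hy0 ih =>
    have e : colM (insert y0 T) z b = EM y0 z (b y0 z) + colM T z b := by
      rw [colM, Finset.sum_insert hy0, colM]
    rw [e, hU, LinearMap.comp_apply, ih (fun y hy => hT y (Finset.mem_insert_of_mem hy)), map_add,
      map_sum, Finset.sum_insert hy0]
    have h : ∀ y ∈ T, U (EM y0 z (b y0 z)) (U (EM y z (b y z)) m - m)
        = U (EM y z (b y z)) m - m := by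
      intro y hy
      refine cross_fix U hU0 hU m S0 R hb (hT y (Finset.mem_insert_of_mem hy))
        (hT y0 (Finset.mem_insert_self _ _)) ?_ hz _ _
      rintro rfl
      exact hy0 hy
    rw [Finset.sum_congr rfl h]
    abel

/-- The matrices that are small outside the rows of `S0`, on the columns of `J`. -/
def SmM (S0 : Set Y) (R : Set Z) (J : Set Z) (b : Y → Z → ℤ) : Prop :=
  ∀ z ∈ J, (z ∉ R → ∀ y, y ∉ S0 → b y z = 0) ∧
    ∀ y y', y ∉ S0 → y' ∉ S0 → b y z ≠ 0 → b y' z ≠ 0 → y = y'

include hU0 hU ha hb in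
theorem cross_span [Finite Y] [Finite Z] (b : Y → Z → ℤ) :
    U b m ∈ Submodule.span k {c | ∃ b', SmM S0 R Set.univ b' ∧ U b' m = c} := by
  classical
  haveI := Fintype.ofFinite Y
  haveI := Fintype.ofFinite Z
  suffices h : ∀ J : Finset Z, ∀ b : Y → Z → ℤ,
      U b m ∈ Submodule.span k {c | ∃ b', SmM S0 R (J : Set Z) b' ∧ U b' m = c} by
    have := h Finset.univ b
    rwa [Finset.coe_univ] at this
  intro J
  induction J using Finset.induction_on with
  | empty =>
    intro b
    refine Submodule.subset_span ⟨b, ?_, rfl⟩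
    intro z hz
    simp at hz
  | insert z J hzJ ih =>
    intro b
    refine Submodule.span_le.2 ?_ (ih b)
    rintro _ ⟨b, hbJ, rfl⟩
    let T : Finset Y := Finset.univ.filter (fun y => y ∉ S0)
    have hT : ∀ y ∈ T, y ∉ S0 := fun y hy => (Finset.mem_filter.1 hy).2
    have hT' : ∀ y, y ∉ S0 → y ∈ T := fun y hy => Finset.mem_filter.2 ⟨Finset.mem_univ _, hy⟩
    let b0 := b - colM T z b
    have hb0 : b = b0 + colM T z b := (sub_add_cancel _ _).symm
    have hb0z : ∀ y, y ∉ S0 → b0 y z = 0 := by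
      intro y hy
      change b y z - colM T z b y z = 0
      rw [colM_apply_mem (hT' y hy), sub_self]
    have hb0z' : ∀ y z', z' ≠ z → b0 y z' = b y z' := by
      intro y z' hz'
      change b y z' - colM T z b y z' = _
      rw [colM_apply_ne T hz', sub_zero]
    have hne : ∀ z' ∈ J, z' ≠ z := by
      rintro z' hz' rfl
      exact hzJ hz'
    have good : ∀ c : Y → Z → ℤ, (∀ y z', z' ≠ z → c y z' = b y z') →
        (z ∉ R → ∀ y, y ∉ S0 → c y z = 0) →
        (∀ y y', y ∉ S0 → y' ∉ S0 → c y z ≠ 0 → c y' z ≠ 0 → y = y') →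
        SmM S0 R (insert z J : Finset Z) c := by
      intro c h1 h2 h3 z' hz'
      rw [Finset.mem_coe, Finset.mem_insert] at hz'
      rcases hz' with rfl | hz'
      · exact ⟨h2, h3⟩
      · have hn := hne z' hz'
        have h4 := hbJ z' (Finset.mem_coe.2 hz')
        refine ⟨fun hR y hy => by rw [h1 y z' hn]; exact h4.1 hR y hy,
          fun y y' hy hy' => ?_⟩
        rw [h1 y z' hn, h1 y' z' hn]
        exact h4.2 y y' hy hy'
    have hb0m : U b0 m ∈ Submodule.span k {c | ∃ b', SmM S0 R (insert z J : Finset Z) b' ∧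
        U b' m = c} := by
      refine Submodule.subset_span ⟨b0, good b0 hb0z' (fun _ => hb0z) ?_, rfl⟩
      intro y y' hy _ h
      exact absurd (hb0z y hy) h
    have e1 : U b m = U b0 (U (colM T z b) m) := by
      conv_lhs => rw [hb0]
      rw [hU]; rfl
    by_cases hz : z ∈ R
    · rw [SetLike.mem_coe, e1, col_in U hU0 hU m S0 R hb hT hz, map_add, map_sum]
      refine Submodule.add_mem _ hb0m (Submodule.sum_mem _ fun y hy => ?_)
      rw [map_sub]
      refine Submodule.sub_mem _ ?_ hb0m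
      refine Submodule.subset_span ⟨b0 + EM y z (b y z), good _ ?_ ?_ ?_, ?_⟩
      · intro y' z' hz'
        change b0 y' z' + EM y z (b y z) y' z' = _
        rw [EM_apply_ne_col _ _ hz', add_zero, hb0z' y' z' hz']
      · intro h; exact absurd hz h
      · have h5 : ∀ y', y' ∉ S0 → (b0 + EM y z (b y z)) y' z ≠ 0 → y' = y := by
          intro y' hy' h
          by_contra hne'
          apply h
          change b0 y' z + EM y z (b y z) y' z = 0
          rw [hb0z y' hy', EM_apply_ne_row hne', add_zero]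
        intro y1 y2 h1 h2 h3 h4
        rw [h5 y1 h1 h3, h5 y2 h2 h4]
      · rw [hU]; rfl
    · rw [SetLike.mem_coe, e1, col_out U hU0 hU m S0 R ha hT hz]
      exact hb0m

end cross

end Pool.Agent.IAH
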