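import Pool.Agent.IAH.Tor

/-!
# Detecting the fundamental classes of tori by products of homomorphisms
-/

namespace Pool.Agent.IAH

open Finsupp

section basic

variable {k G : Type} [CommRing k]

/-- The functional `(g₁, …, g_d) ↦ ∏ t_i (g_i)`. -/
noncomputable def prodF {d : ℕ} (t : Fin d → G → k) : Ch k G d →ₗ[k] k :=
  linearCombination k (fun g => ∏ j, t j (g j))

theorem prodF_single {d : ℕ} (t : Fin d → G → k) (g : Fin d → G) (c : k) :
    prodF t (single g c) = c * ∏ j, t j (g j) := by
  rw [prodF, linearCombination_single, smul_eq_mul]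

theorem prodF_pre {d : ℕ} (t : Fin (d + 1) → G → k) (g : G) (x : Ch k G d) :
    prodF t (pre g x) = t 0 g * prodF (Fin.tail t) x := by
  induction x using Finsupp.induction_linear with
  | zero => simp
  | add x y hx hy => simp only [map_add, hx, hy, mul_add]
  | single s c =>
    rw [pre_single, prodF_single, prodF_single, Fin.prod_univ_succ]
    simp only [Fin.cons_zero, Fin.cons_succ, Fin.tail]
    ring

theorem prodF_e0 (t : Fin 0 → G → k) : prodF t e0 = 1 := by
  rw [e0, prodF_single]; simp

theorem prodF_mp {H : Type} {d : ℕ} (t : Fin d → H → k) (f : G → H) (x : Ch k G d) :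
    prodF t (mp f x) = prodF (fun j g => t j (f g)) x := by
  induction x using Finsupp.induction_linear with
  | zero => simp
  | add x y hx hy => simp only [map_add, hx, hy]
  | single s c =>
    simp only [mp, lmapDomain_apply, mapDomain_single]
    rw [prodF_single, prodF_single]

theorem prodF_eq_zero {d : ℕ} (t : Fin d → G → k) (j : Fin d) (hj : ∀ g, t j g = 0)
    (x : Ch k G d) : prodF t x = 0 := by
  induction x using Finsupp.induction_linear with
  | zero => simp
  | add x y hx hy => rw [map_add, hx, hy, add_zero]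
  | single s c => rw [prodF_single, Finset.prod_eq_zero (Finset.mem_univ j) (hj _), mul_zero]

end basic

variable {k G : Type} [CommRing k] [Group G]

theorem prodF_ml {d : ℕ} (t : Fin (d + 1) → G → k) (ht : ∀ g h, t 0 (g * h) = t 0 g + t 0 h)
    (g : G) (x : Ch k G (d + 1)) :
    prodF t (ml g x) = t 0 g * prodF (Fin.tail t) (tl x) + prodF t x := by
  refine ch_ext_succ (A := (prodF t).comp (ml g))
    (B := (t 0 g) • (prodF (Fin.tail t)).comp tl + prodF t) (fun h y => ?_) x
  simp only [LinearMap.comp_apply, LinearMap.add_apply, LinearMap.smul_apply, smul_eq_mul]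
  rw [ml_pre, prodF_pre, prodF_pre, tl_pre, ht]
  ring

theorem prodF_bd : ∀ {d : ℕ} (t : Fin d → G → k), (∀ j g h, t j (g * h) = t j g + t j h) →
    ∀ x : Ch k G (d + 1), prodF t (bd x) = 0
  | 0, t, _, x => by
    refine ch_ext_succ (A := (prodF t).comp bd) (B := 0) (fun h y => ?_) x
    rw [LinearMap.comp_apply, bd_pre_zero, map_zero, LinearMap.zero_apply]
  | d + 1, t, ht, x => by
    refine ch_ext_succ (A := (prodF t).comp bd) (B := 0) (fun h y => ?_) x
    rw [LinearMap.comp_apply, bd, LinearMap.add_apply, tl_pre, D_pre, map_add, map_sub, map_neg,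
      prodF_ml t (ht 0), prodF_pre, LinearMap.zero_apply]
    have h1 := prodF_bd (Fin.tail t) (fun j => ht j.succ) y
    rw [bd, LinearMap.add_apply, map_add] at h1
    linear_combination (- t 0 h) * h1

theorem prodF_Hop {d : ℕ} (t : Fin (d + 1) → G → k) (a : G) {S : Set G}
    (hS : ∀ s ∈ S, t 0 s = 0) (hc : ∀ s ∈ S, Commute a s) {x : Ch k G d} (hx : x ∈ sup k S d) :
    prodF t (Hop a x) = t 0 a * prodF (Fin.tail t) x := by
  cases d with
  | zero => rw [Hop_zero, prodF_pre]
  | succ d =>
    have key : ∀ (n : ℕ) (x : Ch k G n), x ∈ sup k S n → ∀ t : Fin (n + 1) → G → k,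
        (∀ s ∈ S, t 0 s = 0) → prodF t (Hop a x) = t 0 a * prodF (Fin.tail t) x := by
      refine sup_ind (p := fun n x => ∀ t : Fin (n + 1) → G → k,
        (∀ s ∈ S, t 0 s = 0) → prodF t (Hop a x) = t 0 a * prodF (Fin.tail t) x) ?_ ?_ ?_ ?_ ?_
      · intro n t _; simp
      · intro n x y hx hy t ht
        rw [map_add, map_add, hx t ht, hy t ht, map_add]
        ring
      · intro n c x hx t ht
        rw [map_smul, map_smul, hx t ht, map_smul, smul_eq_mul, smul_eq_mul]
        ring
      · intro t _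
        rw [Hop_zero, prodF_pre]
      · intro n g x hg hx _ t ht
        rw [Hop_pre, map_sub, prodF_pre, prodF_pre, ht g hg, cj_sup hc (pre_mem_sup hg hx),
          zero_mul, sub_zero]
    exact key _ _ hx t hS

theorem prodF_tor : ∀ {d : ℕ} (t : Fin d → G → k) (f : Fin d → G),
    (∀ i j, Commute (f i) (f j)) → (∀ i j, i < j → t i (f j) = 0) →
    prodF t (tor d f) = ∏ j, t j (f j)
  | 0, t, f, _, _ => by rw [tor, prodF_e0]; simp
  | d + 1, t, f, hc, h => by
    have hm : tor (k := k) d (Fin.tail f) ∈ sup k (Set.range (Fin.tail f)) d := by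
      rw [← torus_eq_tor d (Fin.tail f) (fun i j => hc _ _)]
      exact torus_mem_sup d _
    rw [tor, prodF_Hop t (f 0) (S := Set.range (Fin.tail f)) ?_ ?_ hm,
      prodF_tor (Fin.tail t) (Fin.tail f) (fun i j => hc _ _)
        (fun i j hij => h _ _ (Fin.succ_lt_succ_iff.2 hij)), Fin.prod_univ_succ]
    · rfl
    · rintro _ ⟨j, rfl⟩
      exact h _ _ (Fin.succ_pos j)
    · rintro _ ⟨j, rfl⟩
      exact hc _ _

/-- The functional on homology given by additive functions. -/
theorem exists_functional {d : ℕ} (t : Fin d → G → k)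
    (ht : ∀ j g h, t j (g * h) = t j g + t j h) :
    ∃ Ψ : Hm k G d →ₗ[k] k,
      (∀ f : Fin d → G, (∀ i j, Commute (f i) (f j)) → (∀ i j, i < j → t i (f j) = 0) →
        Ψ (tc f) = ∏ j, t j (f j)) ∧
      (∀ (H : Type) [Group H] (f : H →* G) (j : Fin d), (∀ h, t j (f h) = 0) →
        ∀ c : Hm k H d, Ψ (hmap f d c) = 0) := by
  obtain ⟨Ψ, hΨ⟩ := cls_functional (prodF t) (prodF_bd t ht)
  refine ⟨Ψ, ?_, ?_⟩
  · intro f hc h
    rw [tc, hΨ _ (tor_isCyc d f hc), prodF_tor t f hc h]
  · intro H _ f j hj c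
    obtain ⟨x, hx, rfl⟩ := cls_surj c
    rw [hmap_cls f hx, hΨ _ (hx.mp f), prodF_mp]
    exact prodF_eq_zero _ j hj x

end Pool.Agent.IAH
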