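import Pool.Agent.IAH.Fg

/-!
# Isomorphisms of free abelian groups lift to free groups
-/

namespace Pool.Agent.IAH

open Finsupp

/-- `g` is induced by an isomorphism of free groups. -/
def Lf {A B : Type} (g : (A →₀ ℤ) ≃+ (B →₀ ℤ)) : Prop :=
  ∃ Θ : FreeGroup A ≃* FreeGroup B, ∀ w, abv (Θ w) = g (abv w)

theorem Lf.trans {A B C : Type} {g : (A →₀ ℤ) ≃+ (B →₀ ℤ)} {h : (B →₀ ℤ) ≃+ (C →₀ ℤ)}
    (hg : Lf g) (hh : Lf h) : Lf (g.trans h) := by
  obtain ⟨Θ, hΘ⟩ := hg
  obtain ⟨Ξ, hΞ⟩ := hh
  exact ⟨Θ.trans Ξ, fun w => by rw [MulEquiv.trans_apply, hΞ, hΘ]; rfl⟩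

theorem Lf.symm {A B : Type} {g : (A →₀ ℤ) ≃+ (B →₀ ℤ)} (hg : Lf g) : Lf g.symm := by
  obtain ⟨Θ, hΘ⟩ := hg
  refine ⟨Θ.symm, fun w => ?_⟩
  rw [eq_comm, AddEquiv.symm_apply_eq, ← hΘ, MulEquiv.apply_symm_apply]

/-- A lift gives the linear map. -/
theorem Lf_of {A B : Type} {g : (A →₀ ℤ) ≃+ (B →₀ ℤ)} (Θ : FreeGroup A ≃* FreeGroup B)
    (h : ∀ a, abv (Θ (FreeGroup.of a)) = g (single a 1)) : Lf g := by
  refine ⟨Θ, fun w => ?_⟩
  refine abv_ind (fun w => abv (Θ w)) (fun w => g (abv w)) ?_ ?_ ?_ w
  · intro v w; simp only [map_mul, abv_mul]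
  · intro v w; simp only [abv_mul, map_add]
  · intro x; rw [h, abv_of]

/-- The automorphism of `ℤ^A` given by an automorphism of the free group. -/
noncomputable def linE {A B : Type} (Θ : FreeGroup A ≃* FreeGroup B) :
    (A →₀ ℤ) ≃+ (B →₀ ℤ) where
  toFun := lin Θ.toMonoidHom
  invFun := lin Θ.symm.toMonoidHom
  left_inv v := by
    obtain ⟨w, rfl⟩ := abv_surj v
    rw [lin_abv, lin_abv]
    congr 1
    exact Θ.symm_apply_apply w
  right_inv v := by
    obtain ⟨w, rfl⟩ := abv_surj v
    rw [lin_abv, lin_abv]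
    congr 1
    exact Θ.apply_symm_apply w
  map_add' := map_add _

theorem linE_abv {A B : Type} (Θ : FreeGroup A ≃* FreeGroup B) (w : FreeGroup A) :
    linE Θ (abv w) = abv (Θ w) := lin_abv _ _

theorem linE_single {A B : Type} (Θ : FreeGroup A ≃* FreeGroup B) (a : A) :
    linE Θ (single a 1) = abv (Θ (FreeGroup.of a)) := lin_single _ _

theorem Lf_linE {A B : Type} (Θ : FreeGroup A ≃* FreeGroup B) : Lf (linE Θ) :=
  ⟨Θ, fun w => (linE_abv Θ w).symm⟩

/-- The transvection `a ↦ a b^n`. -/
noncomputable def tvA {A : Type} (a b : A) (n : ℤ) : MulAut (FreeGroup A) :=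
  mv a 1 (FreeGroup.of b ^ n)

theorem tvA_self {A : Type} {a b : A} (h : a ≠ b) (n : ℤ) :
    linE (tvA a b n) (single a 1) = single a 1 + n • single b 1 := by
  have hb : FreeGroup.of b ^ n ∈ K ({a}ᶜ : Set A) := zpow_mem (of_mem_K (Ne.symm h)) n
  rw [linE_single, tvA, mv_self (one_mem _) hb, one_mul, abv_mul, abv_of, abv_zpow, abv_of]

theorem tvA_of {A : Type} {a b c : A} (h : c ≠ a) (n : ℤ) :
    linE (tvA a b n) (single c 1) = single c 1 := by
  rw [linE_single, tvA, mv_of h, abv_of]

open Classical in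
/-- The sign change `a ↦ a⁻¹`. -/
noncomputable def sgE {A : Type} (a : A) : FreeGroup A →* FreeGroup A :=
  FreeGroup.lift (fun y => if y = a then (FreeGroup.of a)⁻¹ else FreeGroup.of y)

theorem sgE_self {A : Type} (a : A) : sgE a (FreeGroup.of a) = (FreeGroup.of a)⁻¹ := by
  rw [sgE, FreeGroup.lift_apply_of, if_pos rfl]

theorem sgE_of {A : Type} {a b : A} (h : b ≠ a) : sgE a (FreeGroup.of b) = FreeGroup.of b := by
  rw [sgE, FreeGroup.lift_apply_of, if_neg h]

theorem sgE_sgE {A : Type} (a : A) : (sgE a).comp (sgE a) = MonoidHom.id _ := by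
  apply FreeGroup.ext_hom
  intro y
  by_cases h : y = a
  · subst h; rw [MonoidHom.comp_apply, sgE_self, map_inv, sgE_self, inv_inv]; rfl
  · rw [MonoidHom.comp_apply, sgE_of h, sgE_of h]; rfl

/-- The sign change `a ↦ a⁻¹`. -/
noncomputable def sgA {A : Type} (a : A) : MulAut (FreeGroup A) :=
  MonoidHom.toMulEquiv (sgE a) (sgE a) (sgE_sgE a) (sgE_sgE a)

theorem sgA_self {A : Type} (a : A) : sgA a (FreeGroup.of a) = (FreeGroup.of a)⁻¹ := sgE_self a

theorem sgA_of {A : Type} {a b : A} (h : b ≠ a) : sgA a (FreeGroup.of b) = FreeGroup.of b :=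
  sgE_of h

theorem int_red (m n : ℤ) (hm : m ≠ 0) (h : |m| ≤ |n|) :
    ∃ s : ℤ, |n + s * m| < |n| := by
  rcases lt_or_gt_of_ne hm with h1 | h1 <;> rcases le_or_gt 0 n with h2 | h2
  · refine ⟨1, ?_⟩
    rw [abs_of_neg h1, abs_of_nonneg h2] at h
    rw [abs_of_nonneg h2, abs_lt]; omega
  · refine ⟨-1, ?_⟩
    rw [abs_of_neg h1, abs_of_neg h2] at h
    rw [abs_of_neg h2, abs_lt]; omega
  · refine ⟨-1, ?_⟩
    rw [abs_of_pos h1, abs_of_nonneg h2] at h
    rw [abs_of_nonneg h2, abs_lt]; omega
  · refine ⟨1, ?_⟩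
    rw [abs_of_pos h1, abs_of_neg h2] at h
    rw [abs_of_neg h2, abs_lt]; omega

/-- Reduction of a surjective functional to a coordinate. -/
theorem exists_red {A : Type} [Finite A] (a0 : A) : ∀ (N : ℕ) (ρ : (A →₀ ℤ) →+ ℤ),
    Function.Surjective ρ → (∑ᶠ a, (ρ (single a 1)).natAbs) = N →
    ∃ u : (A →₀ ℤ) ≃+ (A →₀ ℤ), Lf u ∧ ∀ v, ρ (u v) = v a0 := by
  classical
  haveI := Fintype.ofFinite A
  intro N
  induction N using Nat.strong_induction_on with
  | _ N ih =>
    intro ρ hρ hN
    rw [finsum_eq_sum_of_fintype] at hN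
    by_cases h2 : ∃ a b, a ≠ b ∧ ρ (single a 1) ≠ 0 ∧ ρ (single b 1) ≠ 0
    · -- reduce
      obtain ⟨a, b, hab, hb, hle⟩ : ∃ a b, a ≠ b ∧ ρ (single b 1) ≠ 0 ∧
          |ρ (single b 1)| ≤ |ρ (single a 1)| := by
        obtain ⟨a, b, hab, ha, hb⟩ := h2
        rcases le_total |ρ (single b 1)| |ρ (single a 1)| with h | h
        · exact ⟨a, b, hab, hb, h⟩
        · exact ⟨b, a, hab.symm, ha, h⟩
      obtain ⟨s, hs⟩ := int_red _ _ hb hle
      rw [Int.abs_eq_natAbs, Int.abs_eq_natAbs] at hs
      have hs' : (ρ (single a 1) + s * ρ (single b 1)).natAbs < (ρ (single a 1)).natAbs := by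
        exact_mod_cast hs
      let t := linE (tvA a b s)
      have h1 : (ρ.comp t.toAddMonoidHom) (single a 1) = ρ (single a 1) + s * ρ (single b 1) := by
        change ρ (t (single a 1)) = _
        rw [tvA_self hab, map_add, map_zsmul, smul_eq_mul]
      have h3 : ∀ c, c ≠ a → (ρ.comp t.toAddMonoidHom) (single c 1) = ρ (single c 1) := by
        intro c hc
        change ρ (t (single c 1)) = _
        rw [tvA_of hc]
      have hlt : (∑ c, ((ρ.comp t.toAddMonoidHom) (single c 1)).natAbs) < N := by
        rw [← hN]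
        refine Finset.sum_lt_sum ?_ ⟨a, Finset.mem_univ a, ?_⟩
        · intro c _
          by_cases hc : c = a
          · subst hc; rw [h1]; exact hs'.le
          · rw [h3 c hc]
        · rw [h1]; exact hs'
      obtain ⟨u, hu, hu'⟩ := ih _ hlt (ρ.comp t.toAddMonoidHom)
        (hρ.comp t.surjective) (finsum_eq_sum_of_fintype _)
      exact ⟨u.trans t, hu.trans (Lf_linE _), hu'⟩
    · -- one coefficient
      have hex : ∃ a1, ρ (single a1 1) ≠ 0 := by
        by_contra hn
        have h0 : ρ = 0 := add_ext (fun x => by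
          by_contra h
          exact hn ⟨x, h⟩)
        obtain ⟨v, hv⟩ := hρ 1
        rw [h0] at hv
        simp at hv
      obtain ⟨a1, ha1⟩ := hex
      have hne : ∀ b, b ≠ a1 → ρ (single b 1) = 0 := by
        intro b hb
        by_contra h
        exact h2 ⟨b, a1, hb, h, ha1⟩
      have hv : ∀ v, ρ v = v a1 * ρ (single a1 1) := by
        have : ρ = (AddMonoidHom.mulRight (ρ (single a1 1))).comp (applyAddHom a1) := by
          refine add_ext fun x => ?_
          by_cases h : x = a1
          · subst h; simp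
          · rw [hne x h]; simp [Ne.symm h]
        intro v
        exact congrArg (fun f => f v) this
      have hunit : ρ (single a1 1) = 1 ∨ ρ (single a1 1) = -1 := by
        obtain ⟨v, hv1⟩ := hρ 1
        rw [hv] at hv1
        exact Int.eq_one_or_neg_one_of_mul_eq_one' hv1 |>.imp (fun h => h.2) (fun h => h.2)
      -- the swap
      let sw : MulAut (FreeGroup A) := FreeGroup.freeGroupCongr (Equiv.swap a0 a1)
      have hsw : ∀ v, linE sw v a1 = v a0 := by
        have : (applyAddHom a1).comp (linE sw).toAddMonoidHom = applyAddHom a0 := by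
          refine add_ext fun x => ?_
          change (linE sw (single x 1)) a1 = (single x 1 : A →₀ ℤ) a0
          rw [linE_single]
          have : sw (FreeGroup.of x) = FreeGroup.of (Equiv.swap a0 a1 x) := by
            simp [sw]
          rw [this, abv_of, single_apply, single_apply]
          congr 1
          rw [Equiv.swap_apply_eq_iff, Equiv.swap_apply_right]
        intro v
        exact congrArg (fun f => f v) this
      rcases hunit with h | h
      · exact ⟨linE sw, Lf_linE _, fun v => by rw [hv, h, mul_one, hsw]⟩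
      · refine ⟨(linE sw).trans (linE (sgA a1)), (Lf_linE _).trans (Lf_linE _), fun v => ?_⟩
        have hsg : ∀ v, linE (sgA a1) v a1 = - v a1 := by
          have : (applyAddHom a1).comp (linE (sgA a1)).toAddMonoidHom = - applyAddHom a1 := by
            refine add_ext fun x => ?_
            change (linE (sgA a1) (single x 1)) a1 = - (single x 1 : A →₀ ℤ) a1
            rw [linE_single]
            by_cases hx : x = a1
            · subst hx; rw [sgA_self, abv_inv, abv_of]; simp
            · rw [sgA_of hx, abv_of]; simp [hx]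
          intro v
          exact congrArg (fun f => f v) this
        rw [hv, h, AddEquiv.trans_apply, hsg, hsw]
        ring

/-- Extension by zero from the complement of a point. -/
noncomputable def inc {A : Type} (a0 : A) : ({a : A // a ≠ a0} →₀ ℤ) →+ (A →₀ ℤ) :=
  mapDomain.addMonoidHom Subtype.val

/-- Restriction to the complement of a point. -/
noncomputable def res {A : Type} (a0 : A) : (A →₀ ℤ) →+ ({a : A // a ≠ a0} →₀ ℤ) :=
  comapDomain.addMonoidHom Subtype.val_injective

theorem res_apply {A : Type} (a0 : A) (v : A →₀ ℤ) (a : {a : A // a ≠ a0}) :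
    res a0 v a = v a.1 := rfl

theorem inc_apply {A : Type} (a0 : A) (v : {a : A // a ≠ a0} →₀ ℤ) (a : {a : A // a ≠ a0}) :
    inc a0 v a.1 = v a := mapDomain_apply Subtype.val_injective _ _

theorem inc_apply_self {A : Type} (a0 : A) (v : {a : A // a ≠ a0} →₀ ℤ) : inc a0 v a0 = 0 :=
  mapDomain_notin_range _ _ (by simp)

theorem res_inc {A : Type} (a0 : A) (v : {a : A // a ≠ a0} →₀ ℤ) : res a0 (inc a0 v) = v :=
  Finsupp.ext fun a => by rw [res_apply, inc_apply]

theorem inc_res {A : Type} (a0 : A) {v : A →₀ ℤ} (hv : v a0 = 0) : inc a0 (res a0 v) = v := by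
  refine Finsupp.ext fun a => ?_
  by_cases h : a = a0
  · subst h; rw [inc_apply_self, hv]
  · exact (inc_apply a0 _ ⟨a, h⟩).trans (res_apply a0 v _)

theorem inc_single {A : Type} (a0 : A) (a : {a : A // a ≠ a0}) (n : ℤ) :
    inc a0 (single a n) = single a.1 n := mapDomain_single

/-- Every isomorphism of free abelian groups of finite rank lifts to the free groups. -/
theorem Lf_all : ∀ (n : ℕ) (A B : Type) [Finite A] [Finite B] (g : (A →₀ ℤ) ≃+ (B →₀ ℤ)),
    Nat.card A = n → Lf g := by
  classical
  intro n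
  induction n with
  | zero =>
    intro A B _ _ g hA
    have hAe : IsEmpty A := by
      rw [Nat.card_eq_zero] at hA
      exact hA.resolve_right (fun h => h.not_finite inferInstance)
    have hBe : IsEmpty B := by
      constructor
      intro b
      have h1 : (single b (1 : ℤ)) = g (g.symm (single b 1)) := (g.apply_symm_apply _).symm
      have h2 : g.symm (single b 1) = 0 := Finsupp.ext fun a => (hAe.false a).elim
      rw [h2, map_zero] at h1
      have h3 := congrArg (fun f => f b) h1
      simp at h3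
    exact Lf_of (FreeGroup.freeGroupCongr (Equiv.equivOfIsEmpty A B))
      (fun a => (hAe.false a).elim)
  | succ n ih =>
    intro A B _ _ g hA
    obtain ⟨a0⟩ : Nonempty A := by
      by_contra hn
      rw [not_nonempty_iff] at hn
      rw [Nat.card_of_isEmpty] at hA
      omega
    obtain ⟨b0⟩ : Nonempty B := by
      by_contra hn
      rw [not_nonempty_iff] at hn
      have h1 : g (single a0 1) = 0 := Finsupp.ext fun b => (hn.false b).elim
      rw [map_eq_zero_iff g g.injective] at h1
      have h3 := congrArg (fun f => f a0) h1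
      simp at h3
    -- reduce to a block form
    obtain ⟨u, hu, hu'⟩ := exists_red a0 _ ((applyAddHom b0).comp g.toAddMonoidHom)
      (fun c => ⟨g.symm (single b0 c), by simp⟩) rfl
    have hg : ∀ v, (u.trans g) v b0 = v a0 := hu'
    suffices h : Lf (u.trans g) by
      have h2 := hu.symm.trans h
      have e : u.symm.trans (u.trans g) = g := by ext v; simp
      rwa [e] at h2
    generalize u.trans g = g' at hg
    have hgs : ∀ w, g'.symm w a0 = w b0 := fun w => by
      rw [← hg, AddEquiv.apply_symm_apply]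
    -- the restriction
    let g'' : ({a : A // a ≠ a0} →₀ ℤ) ≃+ ({b : B // b ≠ b0} →₀ ℤ) :=
      { toFun := fun v => res b0 (g' (inc a0 v))
        invFun := fun w => res a0 (g'.symm (inc b0 w))
        left_inv := fun v => by
          change res a0 (g'.symm (inc b0 (res b0 (g' (inc a0 v))))) = v
          rw [inc_res b0 (by rw [hg, inc_apply_self]), AddEquiv.symm_apply_apply, res_inc]
        right_inv := fun w => by
          change res b0 (g' (inc a0 (res a0 (g'.symm (inc b0 w))))) = w
          rw [inc_res a0 (by rw [hgs, inc_apply_self]), AddEquiv.apply_symm_apply, res_inc]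
        map_add' := fun v w => by simp only [map_add] }
    have hcard : Nat.card {a : A // a ≠ a0} = n := by
      have h1 := Nat.card_congr (Equiv.optionSubtypeNe a0)
      have h2 : Nat.card (Option {b : A // b ≠ a0}) = Nat.card {b : A // b ≠ a0} + 1 :=
        Finite.card_option
      omega
    obtain ⟨Θ, hΘ⟩ := ih {a : A // a ≠ a0} {b : B // b ≠ b0} g'' hcard
    obtain ⟨w0, hw0⟩ := abv_surj (res b0 (g' (single a0 1)))
    let jA : FreeGroup {a : A // a ≠ a0} →* FreeGroup A := FreeGroup.map Subtype.val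
    let jB : FreeGroup {b : B // b ≠ b0} →* FreeGroup B := FreeGroup.map Subtype.val
    let F : FreeGroup A →* FreeGroup B := FreeGroup.lift (fun a =>
      if h : a = a0 then FreeGroup.of b0 * jB w0 else jB (Θ (FreeGroup.of ⟨a, h⟩)))
    let F' : FreeGroup B →* FreeGroup A := FreeGroup.lift (fun b =>
      if h : b = b0 then FreeGroup.of a0 * (jA (Θ.symm w0))⁻¹
      else jA (Θ.symm (FreeGroup.of ⟨b, h⟩)))
    have hF0 : F (FreeGroup.of a0) = FreeGroup.of b0 * jB w0 := by
      simp [F]
    have hF1 : ∀ a : {a : A // a ≠ a0}, F (FreeGroup.of a.1) = jB (Θ (FreeGroup.of a)) := by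
      intro a
      simp [F, a.2]
    have hF'0 : F' (FreeGroup.of b0) = FreeGroup.of a0 * (jA (Θ.symm w0))⁻¹ := by
      simp [F']
    have hF'1 : ∀ b : {b : B // b ≠ b0}, F' (FreeGroup.of b.1)
        = jA (Θ.symm (FreeGroup.of b)) := by
      intro b
      simp [F', b.2]
    have hFj : ∀ w, F (jA w) = jB (Θ w) := by
      intro w
      have : F.comp jA = jB.comp Θ.toMonoidHom := by
        apply FreeGroup.ext_hom
        intro a
        rw [MonoidHom.comp_apply, FreeGroup.map.of]
        exact hF1 a
      exact congrArg (fun f => f w) this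
    have hF'j : ∀ w, F' (jB w) = jA (Θ.symm w) := by
      intro w
      have : F'.comp jB = jA.comp Θ.symm.toMonoidHom := by
        apply FreeGroup.ext_hom
        intro a
        rw [MonoidHom.comp_apply, FreeGroup.map.of]
        exact hF'1 a
      exact congrArg (fun f => f w) this
    let Ξ : FreeGroup A ≃* FreeGroup B := MonoidHom.toMulEquiv F F'
      (by
        apply FreeGroup.ext_hom
        intro a
        by_cases h : a = a0
        · subst h
          rw [MonoidHom.comp_apply, hF0, map_mul, hF'0, hF'j]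
          simp
        · rw [MonoidHom.comp_apply, hF1 ⟨a, h⟩, hF'j, MulEquiv.symm_apply_apply, FreeGroup.map.of]
          rfl)
      (by
        apply FreeGroup.ext_hom
        intro b
        by_cases h : b = b0
        · subst h
          rw [MonoidHom.comp_apply, hF'0, map_mul, map_inv, hF0, hFj, MulEquiv.apply_symm_apply]
          simp
        · rw [MonoidHom.comp_apply, hF'1 ⟨b, h⟩, hFj, MulEquiv.apply_symm_apply, FreeGroup.map.of]
          rfl)
    refine Lf_of Ξ fun a => ?_
    by_cases h : a = a0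
    · subst h
      change abv (F (FreeGroup.of a)) = _
      rw [hF0, abv_mul, abv_of, abv_map, hw0]
      have e : g' (single a 1) = single b0 1 + (g' (single a 1) - single b0 1) := by abel
      have e2 : (g' (single a 1) - single b0 1 : B →₀ ℤ) b0 = 0 := by
        rw [Finsupp.sub_apply, hg]; simp
      have e3 : res b0 (g' (single a 1)) = res b0 (g' (single a 1) - single b0 1) := by
        rw [map_sub, sub_eq_self.2]
        refine Finsupp.ext fun b => ?_
        rw [res_apply, single_apply, if_neg (Ne.symm b.2)]; rfl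
      rw [e3]
      exact (congrArg (fun v => single b0 1 + v) (inc_res b0 e2)).trans e.symm
    · change abv (F (FreeGroup.of a)) = _
      rw [hF1 ⟨a, h⟩, abv_map, hΘ, abv_of]
      change inc b0 (res b0 (g' (inc a0 (single ⟨a, h⟩ 1)))) = _
      rw [inc_res b0 (by rw [hg, inc_apply_self]), inc_single]

end Pool.Agent.IAH
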