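import Pool.Agent.IAH.ExtDef
import Pool.Agent.IAH.Gl

/-!
# Lemmas on the extension and transport of automorphisms
-/

namespace Pool.Agent.IAH

open Finsupp

variable {X Y R : Type}

theorem extA_inl (f : MulAut (FreeGroup X)) (w : FreeGroup X) :
    extA R f (FreeGroup.map Sum.inl w) = FreeGroup.map Sum.inl (f w) := extE_inl _ _

theorem extA_inl_of (f : MulAut (FreeGroup X)) (x : X) :
    extA R f (FreeGroup.of (Sum.inl x)) = FreeGroup.map Sum.inl (f (FreeGroup.of x)) :=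
  extE_inl_of _ _

theorem extA_inr_of (f : MulAut (FreeGroup X)) (r : R) :
    extA R f (FreeGroup.of (Sum.inr r)) = FreeGroup.of (Sum.inr r) :=
  extE_inr_of f.toMonoidHom r

theorem push_apply (Θ : FreeGroup (X ⊕ R) ≃* FreeGroup Y) (f : MulAut (FreeGroup X))
    (w : FreeGroup Y) : push Θ f w = Θ (extA R f (Θ.symm w)) := rfl

theorem push_apply' (Θ : FreeGroup (X ⊕ R) ≃* FreeGroup Y) (f : MulAut (FreeGroup X))
    (w : FreeGroup (X ⊕ R)) : push Θ f (Θ w) = Θ (extA R f w) := by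
  rw [push_apply, MulEquiv.symm_apply_apply]

theorem extA_mem {f : MulAut (FreeGroup X)} (hf : f ∈ IA X) : extA R f ∈ IA (X ⊕ R) := by
  rw [mem_IA_iff]
  rintro (x | r)
  · rw [extA_inl_of, abv_map, mem_IA_iff.1 hf, mapDomain_single]
  · rw [extA_inr_of, abv_of]

theorem abv_equiv {A B : Type} (Θ : FreeGroup A ≃* FreeGroup B) {v w : FreeGroup A}
    (h : abv v = abv w) : abv (Θ v) = abv (Θ w) := by
  rw [← linE_abv, ← linE_abv, h]

theorem push_mem (Θ : FreeGroup (X ⊕ R) ≃* FreeGroup Y) {f : MulAut (FreeGroup X)}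
    (hf : f ∈ IA X) : push Θ f ∈ IA Y := by
  intro w
  obtain ⟨v, rfl⟩ := Θ.surjective w
  rw [push_apply']
  exact abv_equiv Θ (extA_mem hf v)

end Pool.Agent.IAH
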