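import Pool.Agent.IAH.Fg

/-!
# Extension and transport of automorphisms of free groups
-/

namespace Pool.Agent.IAH

open Finsupp

variable {X Y R : Type}

/-- The extension of an endomorphism of `F(X)` by the identity on the letters of `R`. -/
noncomputable def extE (R : Type) (f : FreeGroup X →* FreeGroup X) :
    FreeGroup (X ⊕ R) →* FreeGroup (X ⊕ R) :=
  FreeGroup.lift (Sum.elim (fun x => FreeGroup.map Sum.inl (f (FreeGroup.of x)))
    (fun r => FreeGroup.of (Sum.inr r)))

theorem extE_inl_of (f : FreeGroup X →* FreeGroup X) (x : X) :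
    extE R f (FreeGroup.of (Sum.inl x)) = FreeGroup.map Sum.inl (f (FreeGroup.of x)) := by
  rw [extE, FreeGroup.lift_apply_of]; rfl

theorem extE_inr_of (f : FreeGroup X →* FreeGroup X) (r : R) :
    extE R f (FreeGroup.of (Sum.inr r)) = FreeGroup.of (Sum.inr r) := by
  rw [extE, FreeGroup.lift_apply_of]; rfl

theorem extE_inl (f : FreeGroup X →* FreeGroup X) (w : FreeGroup X) :
    extE R f (FreeGroup.map Sum.inl w) = FreeGroup.map Sum.inl (f w) := by
  have : (extE R f).comp (FreeGroup.map Sum.inl) = (FreeGroup.map Sum.inl).comp f := by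
    apply FreeGroup.ext_hom
    intro x
    rw [MonoidHom.comp_apply, FreeGroup.map.of, extE_inl_of]; rfl
  exact congrArg (fun g => g w) this

theorem extE_comp (f g : FreeGroup X →* FreeGroup X) :
    (extE R f).comp (extE R g) = extE R (f.comp g) := by
  apply FreeGroup.ext_hom
  rintro (x | r)
  · rw [MonoidHom.comp_apply, extE_inl_of, extE_inl, extE_inl_of]; rfl
  · rw [MonoidHom.comp_apply, extE_inr_of, extE_inr_of, extE_inr_of]

theorem extE_id : extE R (MonoidHom.id (FreeGroup X)) = MonoidHom.id _ := by
  apply FreeGroup.ext_hom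
  rintro (x | r)
  · rw [extE_inl_of]; simp
  · rw [extE_inr_of]; rfl

/-- The extension of an automorphism of `F(X)` by the identity on the letters of `R`. -/
noncomputable def extA (R : Type) : MulAut (FreeGroup X) →* MulAut (FreeGroup (X ⊕ R)) where
  toFun f := MonoidHom.toMulEquiv (extE R f.toMonoidHom) (extE R f.symm.toMonoidHom)
    (by rw [extE_comp]; convert extE_id using 2; ext x; simp)
    (by rw [extE_comp]; convert extE_id using 2; ext x; simp)
  map_one' := by
    apply aut_ext
    rintro (x | r)
    · exact (extE_inl_of (MulEquiv.toMonoidHom 1) x).trans FreeGroup.map.of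
    · exact extE_inr_of (MulEquiv.toMonoidHom 1) r
  map_mul' f g := by
    apply MulEquiv.ext
    intro w
    exact congrArg (fun φ => φ w) (extE_comp f.toMonoidHom g.toMonoidHom).symm

/-- The homomorphism `f ↦ Θ (f * 1) Θ⁻¹`. -/
noncomputable def push (Θ : FreeGroup (X ⊕ R) ≃* FreeGroup Y) :
    MulAut (FreeGroup X) →* MulAut (FreeGroup Y) :=
  (MulAut.congr Θ).toMonoidHom.comp (extA R)

end Pool.Agent.IAH
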