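import Pool.Agent.IAH.FgDef

/-!
# Free groups: exponent sums, `IA`-automorphisms, one-letter moves
-/

namespace Pool.Agent.IAH

open Finsupp

section ab

variable {X Y Z : Type}

theorem abv_one : abv (1 : FreeGroup X) = 0 := by rw [abv, map_one, toAdd_one]

theorem abv_mul (v w : FreeGroup X) : abv (v * w) = abv v + abv w := by
  rw [abv, map_mul, toAdd_mul]; rfl

theorem abv_inv (w : FreeGroup X) : abv w⁻¹ = - abv w := by
  rw [abv, map_inv, toAdd_inv]; rfl

theorem abv_of (x : X) : abv (FreeGroup.of x) = single x 1 := by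
  rw [abv, ab, FreeGroup.lift_apply_of, toAdd_ofAdd]

theorem abv_zpow (w : FreeGroup X) (n : ℤ) : abv (w ^ n) = n • abv w := by
  rw [abv, map_zpow, toAdd_zpow]; rfl

/-- Induction principle for additive statements. -/
theorem abv_ind {M : Type} [AddCommGroup M] (f g : FreeGroup X → M)
    (hf : ∀ v w, f (v * w) = f v + f w) (hg : ∀ v w, g (v * w) = g v + g w)
    (h : ∀ x, f (FreeGroup.of x) = g (FreeGroup.of x)) (w : FreeGroup X) : f w = g w := by
  have hf1 : f 1 = 0 := by
    have := hf 1 1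
    rw [mul_one] at this
    exact (left_eq_add.1 this)
  have hg1 : g 1 = 0 := by
    have := hg 1 1
    rw [mul_one] at this
    exact (left_eq_add.1 this)
  let f' : FreeGroup X →* Multiplicative M :=
    ⟨⟨fun w => Multiplicative.ofAdd (f w), by rw [hf1]; rfl⟩,
      fun v w => congrArg Multiplicative.ofAdd (hf v w)⟩
  let g' : FreeGroup X →* Multiplicative M :=
    ⟨⟨fun w => Multiplicative.ofAdd (g w), by rw [hg1]; rfl⟩,
      fun v w => congrArg Multiplicative.ofAdd (hg v w)⟩
  have e : f' = g' := by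
    apply FreeGroup.ext_hom
    intro x
    exact congrArg Multiplicative.ofAdd (h x)
  exact congrArg (fun φ => Multiplicative.toAdd (φ w)) e

/-- The linear map induced by a homomorphism on the abelianisations. -/
noncomputable def lin (g : FreeGroup X →* FreeGroup Y) : (X →₀ ℤ) →+ (Y →₀ ℤ) :=
  liftAddHom (fun x => (zmultiplesHom (Y →₀ ℤ)) (abv (g (FreeGroup.of x))))

theorem lin_single (g : FreeGroup X →* FreeGroup Y) (x : X) :
    lin g (single x 1) = abv (g (FreeGroup.of x)) := by
  rw [lin, liftAddHom_apply_single, zmultiplesHom_apply, one_smul]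

theorem lin_abv (g : FreeGroup X →* FreeGroup Y) (w : FreeGroup X) :
    lin g (abv w) = abv (g w) := by
  refine abv_ind (fun w => lin g (abv w)) (fun w => abv (g w)) ?_ ?_ ?_ w
  · intro v w; simp only [abv_mul, map_add]
  · intro v w; simp only [map_mul, abv_mul]
  · intro x; simp only [abv_of, lin_single]

theorem abv_surj : Function.Surjective (abv : FreeGroup X → (X →₀ ℤ)) := by
  intro v
  induction v using Finsupp.induction_linear with
  | zero => exact ⟨1, abv_one⟩
  | add u v hu hv =>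
    obtain ⟨a, rfl⟩ := hu
    obtain ⟨b, rfl⟩ := hv
    exact ⟨a * b, abv_mul _ _⟩
  | single x n => exact ⟨FreeGroup.of x ^ n, by rw [abv_zpow, abv_of]; simp⟩

theorem add_ext {M : Type} [AddCommGroup M] {f g : (X →₀ ℤ) →+ M}
    (h : ∀ x, f (single x 1) = g (single x 1)) : f = g := by
  refine Finsupp.addHom_ext fun x n => ?_
  have e : (single x n : X →₀ ℤ) = n • single x 1 := by simp
  rw [e, map_zsmul, map_zsmul, h]

theorem lin_id : lin (MonoidHom.id (FreeGroup X)) = AddMonoidHom.id _ := by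
  refine add_ext fun x => ?_
  rw [lin_single]
  exact abv_of x

theorem lin_comp (g : FreeGroup X →* FreeGroup Y) (h : FreeGroup Y →* FreeGroup Z) :
    lin (h.comp g) = (lin h).comp (lin g) := by
  refine add_ext fun x => ?_
  rw [lin_single, AddMonoidHom.comp_apply, lin_single, lin_abv]
  rfl

theorem abv_map (j : X → Y) (w : FreeGroup X) :
    abv (FreeGroup.map j w) = mapDomain j (abv w) := by
  refine abv_ind (fun w => abv (FreeGroup.map j w)) (fun w => mapDomain j (abv w)) ?_ ?_ ?_ w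
  · intro v w; simp only [map_mul, abv_mul]
  · intro v w; simp only [abv_mul, mapDomain_add]
  · intro x; simp only [FreeGroup.map.of, abv_of, mapDomain_single]

theorem mem_IA {f : MulAut (FreeGroup X)} : f ∈ IA X ↔ ∀ w, abv (f w) = abv w := Iff.rfl

theorem mem_IA_iff {f : MulAut (FreeGroup X)} :
    f ∈ IA X ↔ ∀ x, abv (f (FreeGroup.of x)) = single x 1 := by
  constructor
  · intro h x; rw [h, abv_of]
  · intro h w
    refine abv_ind (fun w => abv (f w)) (fun w => abv w) ?_ abv_mul ?_ w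
    · intro v w; simp only [map_mul, abv_mul]
    · intro x; rw [h, abv_of]

theorem aut_ext {f g : MulAut (FreeGroup X)}
    (h : ∀ x, f (FreeGroup.of x) = g (FreeGroup.of x)) : f = g := by
  have e : f.toMonoidHom = g.toMonoidHom := FreeGroup.ext_hom _ _ h
  exact MulEquiv.ext fun w => congrArg (fun φ => φ w) e

theorem equiv_ext {f g : FreeGroup X ≃* FreeGroup Y}
    (h : ∀ x, f (FreeGroup.of x) = g (FreeGroup.of x)) : f = g := by
  have e : f.toMonoidHom = g.toMonoidHom := FreeGroup.ext_hom _ _ h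
  exact MulEquiv.ext fun w => congrArg (fun φ => φ w) e

end ab

section words

variable {X Y : Type}

/-- The commutator `g h g⁻¹ h⁻¹`. -/
def cm {G : Type} [Group G] (g h : G) : G := g * h * g⁻¹ * h⁻¹

theorem cm_mem {G : Type} [Group G] {H : Subgroup G} {g h : G} (hg : g ∈ H) (hh : h ∈ H) :
    cm g h ∈ H :=
  mul_mem (mul_mem (mul_mem hg hh) (inv_mem hg)) (inv_mem hh)

theorem map_cm {G H : Type} [Group G] [Group H] (f : G →* H) (g h : G) :
    f (cm g h) = cm (f g) (f h) := by
  simp only [cm, map_mul, map_inv]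

theorem abv_cm (g h : FreeGroup X) : abv (cm g h) = 0 := by
  rw [cm, abv_mul, abv_mul, abv_mul, abv_inv, abv_inv]
  abel

theorem of_mem_K {S : Set X} {x : X} (h : x ∈ S) : FreeGroup.of x ∈ K S :=
  Subgroup.subset_closure ⟨x, h, rfl⟩

theorem K_mono {S T : Set X} (h : S ⊆ T) : K S ≤ K T :=
  Subgroup.closure_mono (Set.image_mono h)

theorem K_univ (w : FreeGroup X) : w ∈ K (Set.univ : Set X) := by
  induction w using FreeGroup.induction_on with
  | C1 => exact Subgroup.one_mem _
  | of x => exact of_mem_K (Set.mem_univ x)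
  | inv_of x _ => exact Subgroup.inv_mem _ (of_mem_K (Set.mem_univ x))
  | mul v w hv hw => exact Subgroup.mul_mem _ hv hw

theorem K_hom_eq {G : Type} [Group G] {S : Set X} {f g : FreeGroup X →* G}
    (h : ∀ x ∈ S, f (FreeGroup.of x) = g (FreeGroup.of x)) {w : FreeGroup X} (hw : w ∈ K S) :
    f w = g w := by
  have : K S ≤ MonoidHom.eqLocus f g := by
    rw [K, Subgroup.closure_le]
    rintro _ ⟨x, hx, rfl⟩
    exact h x hx
  exact this hw

theorem K_map_mem {S : Set X} {T : Set Y} {f : FreeGroup X →* FreeGroup Y}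
    (h : ∀ x ∈ S, f (FreeGroup.of x) ∈ K T) {w : FreeGroup X} (hw : w ∈ K S) :
    f w ∈ K T := by
  have : K S ≤ (K T).comap f := by
    rw [K, Subgroup.closure_le]
    rintro _ ⟨x, hx, rfl⟩
    exact h x hx
  exact this hw

theorem K_fix {S : Set X} {f : FreeGroup X →* FreeGroup X}
    (h : ∀ x ∈ S, f (FreeGroup.of x) = FreeGroup.of x) {w : FreeGroup X} (hw : w ∈ K S) :
    f w = w :=
  K_hom_eq (g := MonoidHom.id _) h hw

theorem K_fix' {S : Set X} {f : MulAut (FreeGroup X)}
    (h : ∀ x ∈ S, f (FreeGroup.of x) = FreeGroup.of x) {w : FreeGroup X} (hw : w ∈ K S) :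
    f w = w :=
  K_fix (f := f.toMonoidHom) h hw

/-- A word of `K (range j)` comes from a word. -/
theorem K_range {j : Y → X} {w : FreeGroup X} (hw : w ∈ K (Set.range j)) :
    ∃ v, FreeGroup.map j v = w := by
  have : K (Set.range j) ≤ (FreeGroup.map j).range := by
    rw [K, Subgroup.closure_le]
    rintro _ ⟨_, ⟨y, rfl⟩, rfl⟩
    exact ⟨FreeGroup.of y, by simp⟩
  exact this hw

theorem map_mem_K {j : Y → X} {T : Set X} (h : ∀ y, j y ∈ T) (w : FreeGroup Y) :
    FreeGroup.map j w ∈ K T := by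
  refine K_map_mem (f := FreeGroup.map j) (S := Set.univ) ?_ (K_univ w)
  intro y _
  rw [FreeGroup.map.of]
  exact of_mem_K (h y)

open Classical in
/-- The endomorphism `x ↦ u x v` that fixes the other letters. -/
noncomputable def mvE (x : X) (u v : FreeGroup X) : FreeGroup X →* FreeGroup X :=
  FreeGroup.lift (fun y => if y = x then u * FreeGroup.of x * v else FreeGroup.of y)

theorem mvE_self (x : X) (u v : FreeGroup X) :
    mvE x u v (FreeGroup.of x) = u * FreeGroup.of x * v := by
  rw [mvE, FreeGroup.lift_apply_of, if_pos rfl]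

theorem mvE_of {x y : X} (h : y ≠ x) (u v : FreeGroup X) :
    mvE x u v (FreeGroup.of y) = FreeGroup.of y := by
  rw [mvE, FreeGroup.lift_apply_of, if_neg h]

theorem mvE_fix {x : X} {u v w : FreeGroup X} (hw : w ∈ K ({x}ᶜ : Set X)) :
    mvE x u v w = w :=
  K_fix (fun _ hy => mvE_of hy u v) hw

theorem mvE_comp {x : X} {u v u' v' : FreeGroup X} (hu' : u' ∈ K ({x}ᶜ : Set X))
    (hv' : v' ∈ K ({x}ᶜ : Set X)) :
    (mvE x u v).comp (mvE x u' v') = mvE x (u' * u) (v * v') := by
  apply FreeGroup.ext_hom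
  intro y
  by_cases h : y = x
  · subst h
    rw [MonoidHom.comp_apply, mvE_self, map_mul, map_mul, mvE_fix hu', mvE_fix hv', mvE_self,
      mvE_self]
    group
  · rw [MonoidHom.comp_apply, mvE_of h, mvE_of h, mvE_of h]

theorem mvE_one (x : X) : mvE x 1 1 = MonoidHom.id (FreeGroup X) := by
  apply FreeGroup.ext_hom
  intro y
  by_cases h : y = x
  · subst h; rw [mvE_self]; simp
  · rw [mvE_of h]; rfl

open Classical in
/-- The automorphism `x ↦ u x v` that fixes the other letters; here `u` and `v` must not involve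
`x` (otherwise the value is the identity). -/
noncomputable def mv (x : X) (u v : FreeGroup X) : MulAut (FreeGroup X) :=
  if h : u ∈ K ({x}ᶜ : Set X) ∧ v ∈ K ({x}ᶜ : Set X) then
    MonoidHom.toMulEquiv (mvE x u v) (mvE x u⁻¹ v⁻¹)
      (by rw [mvE_comp h.1 h.2, mul_inv_cancel, inv_mul_cancel, mvE_one])
      (by rw [mvE_comp (inv_mem h.1) (inv_mem h.2), inv_mul_cancel, mul_inv_cancel, mvE_one])
  else 1

theorem mv_apply {x : X} {u v : FreeGroup X} (hu : u ∈ K ({x}ᶜ : Set X))
    (hv : v ∈ K ({x}ᶜ : Set X)) (w : FreeGroup X) : mv x u v w = mvE x u v w := by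
  rw [mv, dif_pos ⟨hu, hv⟩]; rfl

theorem mv_self {x : X} {u v : FreeGroup X} (hu : u ∈ K ({x}ᶜ : Set X))
    (hv : v ∈ K ({x}ᶜ : Set X)) : mv x u v (FreeGroup.of x) = u * FreeGroup.of x * v := by
  rw [mv_apply hu hv, mvE_self]

theorem mv_of {x y : X} (h : y ≠ x) (u v : FreeGroup X) :
    mv x u v (FreeGroup.of y) = FreeGroup.of y := by
  rw [mv]
  split_ifs with h'
  · exact mvE_of h u v
  · rfl

theorem mv_fix {x : X} {u v w : FreeGroup X} (hw : w ∈ K ({x}ᶜ : Set X)) :
    mv x u v w = w :=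
  K_fix' (fun _ hy => mv_of hy u v) hw

theorem mv_mul {x : X} {u v u' v' : FreeGroup X} (hu : u ∈ K ({x}ᶜ : Set X))
    (hv : v ∈ K ({x}ᶜ : Set X)) (hu' : u' ∈ K ({x}ᶜ : Set X)) (hv' : v' ∈ K ({x}ᶜ : Set X)) :
    mv x u v * mv x u' v' = mv x (u' * u) (v * v') := by
  apply aut_ext
  intro y
  by_cases h : y = x
  · subst h
    rw [MulAut.mul_apply, mv_self hu' hv', map_mul, map_mul, mv_fix hu', mv_fix hv',
      mv_self hu hv, mv_self (mul_mem hu' hu) (mul_mem hv hv')]
    group
  · rw [MulAut.mul_apply, mv_of h, mv_of h, mv_of h]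

theorem mv_one (x : X) : mv x 1 1 = 1 := by
  apply aut_ext
  intro y
  by_cases h : y = x
  · subst h; rw [mv_self (one_mem _) (one_mem _)]; simp
  · rw [mv_of h]; rfl

theorem mv_inv {x : X} {u v : FreeGroup X} (hu : u ∈ K ({x}ᶜ : Set X))
    (hv : v ∈ K ({x}ᶜ : Set X)) : (mv x u v)⁻¹ = mv x u⁻¹ v⁻¹ := by
  rw [inv_eq_iff_mul_eq_one, mv_mul hu hv (inv_mem hu) (inv_mem hv), inv_mul_cancel,
    mul_inv_cancel, mv_one]

theorem mv_mem_IA {x : X} {u v : FreeGroup X} (h : abv (u * v) = 0) : mv x u v ∈ IA X := by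
  rw [mem_IA_iff]
  intro y
  by_cases hy : y = x
  · subst hy
    by_cases h' : u ∈ K ({y}ᶜ : Set X) ∧ v ∈ K ({y}ᶜ : Set X)
    · rw [mv_self h'.1 h'.2, abv_mul, abv_mul, abv_of]
      rw [abv_mul] at h
      rw [add_assoc, add_comm, add_assoc, add_comm (abv v), h, add_zero]
    · rw [mv, dif_neg h']
      exact abv_of y
  · rw [mv_of hy, abv_of]

/-- A move is determined by its values. -/
theorem eq_mv {f : MulAut (FreeGroup X)} {x : X} {u v : FreeGroup X}
    (hu : u ∈ K ({x}ᶜ : Set X)) (hv : v ∈ K ({x}ᶜ : Set X))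
    (h : f (FreeGroup.of x) = u * FreeGroup.of x * v)
    (h' : ∀ y, y ≠ x → f (FreeGroup.of y) = FreeGroup.of y) : f = mv x u v := by
  apply aut_ext
  intro y
  by_cases hy : y = x
  · subst hy; rw [h, mv_self hu hv]
  · rw [h' y hy, mv_of hy]

end words

end Pool.Agent.IAH
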