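import Mathlib

/-!
# The groups `IA(X)`
-/

namespace Pool.Agent.IAH

open Finsupp

variable {X : Type}

/-- The abelianisation `F(X) → ℤ^X`, sending a word to its exponent sums. -/
noncomputable def ab (X : Type) : FreeGroup X →* Multiplicative (X →₀ ℤ) :=
  FreeGroup.lift (fun x => Multiplicative.ofAdd (single x 1))

/-- The vector of exponent sums of a word. -/
noncomputable def abv (w : FreeGroup X) : X →₀ ℤ := Multiplicative.toAdd (ab X w)

/-- The group `IA(X)` of the automorphisms of the free group on `X` that act trivially on the
abelianisation. -/
def IA (X : Type) : Subgroup (MulAut (FreeGroup X)) where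
  carrier := {f | ∀ w, abv (f w) = abv w}
  mul_mem' {f g} hf hg w := by
    rw [MulAut.mul_apply, hf, hg]
  one_mem' w := rfl
  inv_mem' {f} hf w := by
    have h := hf (f⁻¹ w)
    rw [MulAut.apply_inv_self] at h
    exact h.symm

/-- The subgroup of the words in the letters of `S`. -/
def K (S : Set X) : Subgroup (FreeGroup X) := Subgroup.closure (FreeGroup.of '' S)

end Pool.Agent.IAH
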