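import Pool.Agent.IAH.HiaDef

/-!
# The functor generated by the tori
-/

namespace Pool.Agent.IAH

open Finsupp CategoryTheory

/-- `f` is a move of the letter `x` by words in the letters of `S`: it sends `x` to `u x v` with
words `u`, `v` in the letters of `S` and fixes the other letters. -/
def IsMv {X : Type} (f : MulAut (FreeGroup X)) (x : X) (S : Set X) : Prop :=
  (∃ u ∈ K S, ∃ v ∈ K S, f (FreeGroup.of x) = u * FreeGroup.of x * v) ∧
    ∀ y, y ≠ x → f (FreeGroup.of y) = FreeGroup.of y

/-- The families `f 0, …, f (d - 1)` of elements of `IA(X)` such that each `f i` is a move of a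
letter `s i` by words in the letters that are not among the (distinct) letters
`s 0, …, s (d - 1)`. -/
def IsTorus {X : Type} {d : ℕ} (f : Fin d → IA X) : Prop :=
  ∃ s : Fin d → X, Function.Injective s ∧
    ∀ i, IsMv (f i : MulAut (FreeGroup X)) (s i) (Set.range s)ᶜ

/-- The subspace of `H_d(IA(Y); k)` spanned by the images under all the morphisms of `S(ℤ)` of the
classes of the standard tori. -/
noncomputable def torSub (k : Type) [CommRing k] (d : ℕ) (Y : SZ) :
    Submodule k ((HIA k d).obj Y) :=
  Submodule.span k {c | ∃ (X : SZ) (φ : X ⟶ Y) (f : Fin d → IA X.X), IsTorus f ∧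
    ((HIA k d).map φ).hom (torusClass k f) = c}

theorem torSub_map (k : Type) [CommRing k] (d : ℕ) {Y Y' : SZ} (ψ : Y ⟶ Y') :
    ∀ c ∈ torSub k d Y, ((HIA k d).map ψ).hom c ∈ torSub k d Y' := by
  intro c hc
  refine Submodule.span_induction ?_ (by simp) (fun a b _ _ ha hb => by
    rw [map_add]; exact Submodule.add_mem _ ha hb)
    (fun r a _ ha => by rw [map_smul]; exact Submodule.smul_mem _ _ ha) hc
  rintro _ ⟨X, φ, f, hf, rfl⟩
  refine Submodule.subset_span ⟨X, φ ≫ ψ, f, hf, ?_⟩
  rw [CategoryTheory.Functor.map_comp]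
  rfl

/-- The module `torSub`, as an object of the category of modules. -/
noncomputable def torObj (k : Type) [CommRing k] (d : ℕ) (Y : SZ) : ModuleCat k :=
  ModuleCat.of k (torSub k d Y)

/-- The restriction to `torObj` of the map given by a morphism of `S(ℤ)`. -/
noncomputable def torHom (k : Type) [CommRing k] (d : ℕ) {Y Y' : SZ} (ψ : Y ⟶ Y') :
    torObj k d Y ⟶ torObj k d Y' :=
  ModuleCat.ofHom (((HIA k d).map ψ).hom.restrict (torSub_map k d ψ))

theorem torHom_id (k : Type) [CommRing k] (d : ℕ) (Y : SZ) :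
    torHom k d (𝟙 Y) = 𝟙 (torObj k d Y) := by
  refine ModuleCat.hom_ext (LinearMap.ext fun c => Subtype.ext ?_)
  change ((HIA k d).map (𝟙 Y)).hom c.1 = c.1
  rw [CategoryTheory.Functor.map_id]; rfl

theorem torHom_comp (k : Type) [CommRing k] (d : ℕ) {X Y Z : SZ} (φ : X ⟶ Y) (ψ : Y ⟶ Z) :
    torHom k d (φ ≫ ψ) = torHom k d φ ≫ torHom k d ψ := by
  refine ModuleCat.hom_ext (LinearMap.ext fun c => Subtype.ext ?_)
  change ((HIA k d).map (φ ≫ ψ)).hom c.1 = _
  rw [CategoryTheory.Functor.map_comp]; rfl

/-- The subfunctor `E_d` of `H_d(IA; k)` generated by the classes of the standard tori. -/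
noncomputable def torFun (k : Type) [CommRing k] (d : ℕ) : SZ ⥤ ModuleCat k where
  obj Y := torObj k d Y
  map ψ := torHom k d ψ
  map_id Y := torHom_id k d Y
  map_comp φ ψ := torHom_comp k d φ ψ

end Pool.Agent.IAH
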