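import Pool.Agent.IAH.Low
import Pool.Agent.IAH.GenDef

/-!
# The functor generated by the tori, and the lower bound
-/

namespace Pool.Agent.IAH

open Finsupp CategoryTheory

section inj

variable {A B : Type}

open Classical in
/-- The bijection of `A ⊕ (B \ j(A))` and `B`. -/
noncomputable def injEq (j : A → B) (hj : Function.Injective j) :
    A ⊕ ((Set.range j)ᶜ : Set B) ≃ B :=
  (Equiv.sumCongr (Equiv.ofInjective j hj) (Equiv.refl _)).trans (Equiv.Set.sumCompl (Set.range j))

theorem injEq_inl (j : A → B) (hj : Function.Injective j) (a : A) :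
    injEq j hj (Sum.inl a) = j a := by
  simp [injEq]

theorem injEq_inr (j : A → B) (hj : Function.Injective j) (b : ((Set.range j)ᶜ : Set B)) :
    injEq j hj (Sum.inr b) = b.1 := by
  simp [injEq]

/-- The lift of the morphism given by an injection. -/
noncomputable def injΘ (j : A → B) (hj : Function.Injective j) :
    FreeGroup (A ⊕ ((Set.range j)ᶜ : Set B)) ≃* FreeGroup B :=
  FreeGroup.freeGroupCongr (injEq j hj)

theorem injΘ_inl_of (j : A → B) (hj : Function.Injective j) (a : A) :
    injΘ j hj (FreeGroup.of (Sum.inl a)) = FreeGroup.of (j a) := by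
  rw [injΘ, FreeGroup.freeGroupCongr_apply, FreeGroup.map.of, injEq_inl]

theorem injΘ_inr_of (j : A → B) (hj : Function.Injective j) (b : ((Set.range j)ᶜ : Set B)) :
    injΘ j hj (FreeGroup.of (Sum.inr b)) = FreeGroup.of b.1 := by
  rw [injΘ, FreeGroup.freeGroupCongr_apply, FreeGroup.map.of, injEq_inr]

theorem injΘ_inl (j : A → B) (hj : Function.Injective j) (w : FreeGroup A) :
    injΘ j hj (FreeGroup.map Sum.inl w) = FreeGroup.map j w := by
  have : (injΘ j hj).toMonoidHom.comp (FreeGroup.map Sum.inl) = FreeGroup.map j := by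
    apply FreeGroup.ext_hom
    intro x
    change injΘ j hj (FreeGroup.map Sum.inl (FreeGroup.of x)) = _
    rw [FreeGroup.map.of, injΘ_inl_of, FreeGroup.map.of]
  exact congrArg (fun g => g w) this

theorem push_injΘ_map (j : A → B) (hj : Function.Injective j) (f : MulAut (FreeGroup A))
    (w : FreeGroup A) :
    push (injΘ j hj) f (FreeGroup.map j w) = FreeGroup.map j (f w) := by
  rw [← injΘ_inl j hj w, push_apply', extA_inl, injΘ_inl]

theorem push_injΘ_of (j : A → B) (hj : Function.Injective j) (f : MulAut (FreeGroup A)) (a : A) :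
    push (injΘ j hj) f (FreeGroup.of (j a)) = FreeGroup.map j (f (FreeGroup.of a)) := by
  rw [← FreeGroup.map.of (f := j) (x := a), push_injΘ_map]

theorem push_injΘ_not (j : A → B) (hj : Function.Injective j) (f : MulAut (FreeGroup A))
    {b : B} (hb : ∀ a, j a ≠ b) :
    push (injΘ j hj) f (FreeGroup.of b) = FreeGroup.of b := by
  have hb' : b ∈ ((Set.range j)ᶜ : Set B) := by
    rintro ⟨a, ha⟩
    exact hb a ha
  have := injΘ_inr_of j hj ⟨b, hb'⟩
  rw [← this, push_apply', extA_inr_of]

end inj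

theorem isLift_inj {A B : SZ} (j : A.X → B.X) (hj : Function.Injective j) :
    IsLift (ofInj j hj) (injΘ j hj) := by
  constructor
  · intro x
    rw [injΘ_inl_of, abv_of, ofInj_i, mapDomain_single]
  · intro r
    rw [injΘ_inr_of, abv_of]
    refine Finsupp.ext fun a => ?_
    rw [ofInj_p]
    classical
    rw [single_apply, if_neg]
    · rfl
    · intro h
      exact r.2 ⟨a, h.symm⟩

theorem fI_HIA (k : Type) [CommRing k] (d : ℕ) {A B : SZ} (j : A.X → B.X)
    (hj : Function.Injective j) : fI (HIA k d) j hj = hmap (pushIA (injΘ j hj)) d :=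
  HIA_map (isLift_inj j hj)

theorem IsTorus.commute {X : Type} {d : ℕ} {f : Fin d → IA X} (h : IsTorus f) (i j : Fin d) :
    Commute (f i) (f j) := by
  obtain ⟨s, hs, hf⟩ := h
  by_cases hij : i = j
  · subst hij; exact Commute.refl _
  have key : ∀ i j : Fin d, i ≠ j → (f i : MulAut (FreeGroup X)) ((f j : MulAut (FreeGroup X))
      (FreeGroup.of (s i))) = (f j : MulAut (FreeGroup X)) ((f i : MulAut (FreeGroup X))
      (FreeGroup.of (s i))) := by
    intro i j hij
    obtain ⟨⟨u, hu, v, hv, h1⟩, h2⟩ := hf i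
    obtain ⟨h3, h4⟩ := hf j
    have hfix : ∀ w ∈ K ((Set.range s)ᶜ : Set X), (f j : MulAut (FreeGroup X)) w = w := by
      intro w hw
      refine K_fix' (fun y hy => h4 y ?_) hw
      rintro rfl
      exact hy ⟨j, rfl⟩
    rw [h4 (s i) (fun h => hij (hs h)), h1, map_mul, map_mul, hfix u hu, hfix v hv,
      h4 (s i) (fun h => hij (hs h))]
  apply Subtype.ext
  change (f i : MulAut (FreeGroup X)) * f j = f j * f i
  apply aut_ext
  intro y
  rw [MulAut.mul_apply, MulAut.mul_apply]
  by_cases h1 : y = s i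
  · subst h1; exact key i j hij
  · by_cases h2 : y = s j
    · subst h2; exact (key j i (Ne.symm hij)).symm
    · rw [(hf j).2 y h2, (hf i).2 y h1, (hf j).2 y h2]

theorem torusClass_eq (k : Type) [CommRing k] {G : Type} [Group G] {d : ℕ} (f : Fin d → G)
    (h : ∀ i j, Commute (f i) (f j)) : torusClass k f = tc f := by
  rw [torusClass, torus_eq_tor d f h, tc]

/-- The class of a torus, as an element of the functor. -/
noncomputable def tcl (k : Type) [CommRing k] (A : SZ) {d : ℕ} (f : Fin d → IA A.X) :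
    (HIA k d).obj A := tc f

theorem tcl_map (k : Type) [CommRing k] {A B : SZ} {d : ℕ} {φ : A ⟶ B} {R : Type} [Finite R]
    {Θ : FreeGroup (A.X ⊕ R) ≃* FreeGroup B.X} (h : IsLift φ Θ) (f : Fin d → IA A.X)
    (hf : ∀ i j, Commute (f i) (f j)) :
    ((HIA k d).map φ).hom (tcl k A f) = tcl k B (fun i => pushIA Θ (f i)) := by
  have h1 := hmap_tc (k := k) (pushIA Θ) f hf
  rw [HIA_map h]
  exact h1

theorem tcl_fI (k : Type) [CommRing k] {A B : SZ} {d : ℕ} (j : A.X → B.X)
    (hj : Function.Injective j) (f : Fin d → IA A.X) (hf : ∀ i j, Commute (f i) (f j)) :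
    fI (HIA k d) j hj (tcl k A f) = tcl k B (fun i => pushIA (injΘ j hj) (f i)) :=
  tcl_map k (isLift_inj j hj) f hf

theorem fI_torFun (k : Type) [CommRing k] (d : ℕ) {A B : SZ} (j : A.X → B.X)
    (hj : Function.Injective j) (c : (torFun k d).obj A) :
    (fI (torFun k d) j hj c).1 = fI (HIA k d) j hj c.1 := rfl

/-- The object `ℤ^(3d)`. -/
abbrev obA (d : ℕ) : SZ := ⟨Fin d × Fin 3⟩

/-- The standard family of `d` commuting elements on `3 d` letters. -/
noncomputable def stdF {X : Type} {d : ℕ} (e : Fin d × Fin 3 → X) (i : Fin d) : IA X :=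
  ⟨mv (e (i, 0)) 1 (cm (FreeGroup.of (e (i, 1))) (FreeGroup.of (e (i, 2)))), mv_mem_IA (by
    rw [one_mul, abv_cm])⟩

theorem stdF_torus {X : Type} {d : ℕ} (e : Fin d × Fin 3 → X) (he : Function.Injective e) :
    IsTorus (stdF e) := by
  refine ⟨fun i => e (i, 0), fun i j h => (Prod.ext_iff.1 (he h)).1, fun i => ⟨⟨1, one_mem _,
    cm (FreeGroup.of (e (i, 1))) (FreeGroup.of (e (i, 2))), ?_, ?_⟩, ?_⟩⟩
  · refine cm_mem (of_mem_K ?_) (of_mem_K ?_)
    · rintro ⟨j, hj⟩
      have := he hj
      simp at this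
    · rintro ⟨j, hj⟩
      have := he hj
      simp at this
  · refine mv_self (one_mem _) (cm_mem (of_mem_K ?_) (of_mem_K ?_))
    · intro h
      have := he h
      simp at this
    · intro h
      have := he h
      simp at this
  · intro y hy
    exact mv_of hy _ _

/-- The Johnson coefficients. -/
noncomputable def tJ (k : Type) [CommRing k] {X : Type} {d : ℕ} (e : Fin d × Fin 3 → X)
    (i : Fin d) (f : IA X) : k :=
  ((joh (e (i, 0)) (e (i, 1)) (e (i, 2)) (f : MulAut (FreeGroup X)) : ℤ) : k)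

theorem tJ_mul (k : Type) [CommRing k] {X : Type} {d : ℕ} {e : Fin d × Fin 3 → X}
    (he : Function.Injective e) (i : Fin d) (f g : IA X) :
    tJ k e i (f * g) = tJ k e i f + tJ k e i g := by
  have h1 : e (i, 0) ≠ e (i, 1) := fun h => by simpa using he h
  have h2 : e (i, 0) ≠ e (i, 2) := fun h => by simpa using he h
  unfold tJ
  rw [Subgroup.coe_mul, joh_mul h1 h2 f.2 g.2]
  push_cast
  rfl

theorem tJ_std (k : Type) [CommRing k] {X : Type} {d : ℕ} {e : Fin d × Fin 3 → X}
    (he : Function.Injective e) (i j : Fin d) :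
    tJ k e i (stdF e j) = if i = j then 1 else 0 := by
  by_cases h : i = j
  · subst h
    have h1 : e (i, 0) ≠ e (i, 1) := fun h => by simpa using he h
    have h2 : e (i, 0) ≠ e (i, 2) := fun h => by simpa using he h
    have h3 : e (i, 1) ≠ e (i, 2) := fun h => by simpa using he h
    rw [if_pos rfl, tJ]
    have := joh_mv h1 h2 h3
    change ((joh _ _ _ (mv _ _ _) : ℤ) : k) = 1
    rw [this, Int.cast_one]
  · rw [if_neg h, tJ, joh_fix, Int.cast_zero]
    refine mv_of ?_ _ _
    intro h'
    exact h (Prod.ext_iff.1 (he h')).1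

theorem tJ_push (k : Type) [CommRing k] {Y X : Type} {d : ℕ} {e : Fin d × Fin 3 → X}
    (J : Y → X) (hJ : Function.Injective J) (i : Fin d) (l : Fin 3)
    (h : ∀ y, J y ≠ e (i, l)) (f : IA Y) : tJ k e i (pushIA (injΘ J hJ) f) = 0 := by
  rw [tJ, pushIA_coe]
  have key : ∀ c : X, (∀ y, J y ≠ c) → c ≠ e (i, 0) →
      push (injΘ J hJ) f (FreeGroup.of (e (i, 0))) ∈ K ({c}ᶜ : Set X) := by
    intro c hc hne
    by_cases hx : ∃ y, J y = e (i, 0)
    · obtain ⟨y, hy⟩ := hx
      rw [← hy, push_injΘ_of]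
      exact map_mem_K (fun y => hc y) _
    · have hx' : ∀ y, J y ≠ e (i, 0) := fun y hy => hx ⟨y, hy⟩
      rw [push_injΘ_not J hJ _ hx']
      exact of_mem_K (Ne.symm hne)
  by_cases h0 : e (i, l) = e (i, 0)
  · rw [joh_fix, Int.cast_zero]
    exact push_injΘ_not J hJ _ (fun y => by rw [← h0]; exact h y)
  · have hl : l = 1 ∨ l = 2 := by
      fin_cases l
      · exact absurd rfl h0
      · exact Or.inl rfl
      · exact Or.inr rfl
    rcases hl with rfl | rfl
    · rw [joh_K (c := e (i, 1)) (Or.inl rfl) (key _ h h0), Int.cast_zero]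
    · rw [joh_K (c := e (i, 2)) (Or.inr rfl) (key _ h h0), Int.cast_zero]

theorem pushIA_std {Y X : Type} {d : ℕ} (e : Fin d × Fin 3 → Y) (he : Function.Injective e)
    (J : Y → X) (hJ : Function.Injective J) (i : Fin d) :
    pushIA (injΘ J hJ) (stdF e i) = stdF (J ∘ e) i := by
  apply Subtype.ext
  have h1 : e (i, 0) ≠ e (i, 1) := fun h => by simpa using he h
  have h2 : e (i, 0) ≠ e (i, 2) := fun h => by simpa using he h
  rw [pushIA_coe]
  refine eq_mv (one_mem _) (cm_mem (of_mem_K (fun h => h1 (hJ h).symm))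
    (of_mem_K (fun h => h2 (hJ h).symm))) ?_ ?_
  · change push (injΘ J hJ) _ (FreeGroup.of (J (e (i, 0)))) = _
    rw [push_injΘ_of]
    change FreeGroup.map J (mv _ _ _ _) = _
    rw [mv_self (one_mem _) (cm_mem (of_mem_K (Ne.symm h1)) (of_mem_K (Ne.symm h2))), one_mul,
      map_mul, map_cm, FreeGroup.map.of, FreeGroup.map.of, FreeGroup.map.of, one_mul]
    rfl
  · intro y hy
    by_cases hx : ∃ a, J a = y
    · obtain ⟨a, rfl⟩ := hx
      have ha : a ≠ e (i, 0) := fun h => hy (congrArg J h)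
      rw [push_injΘ_of]
      change FreeGroup.map J (mv _ _ _ _) = _
      rw [mv_of ha, FreeGroup.map.of]
    · exact push_injΘ_not J hJ _ (fun a h => hx ⟨a, h⟩)

/-- The standard class. -/
noncomputable def stdC (k : Type) [CommRing k] (d : ℕ) : (HIA k d).obj (obA d) :=
  torusClass k (stdF (X := Fin d × Fin 3) id)

theorem stdC_mem (k : Type) [CommRing k] (d : ℕ) : stdC k d ∈ torSub k d (obA d) := by
  refine Submodule.subset_span ⟨obA d, 𝟙 _, stdF (X := Fin d × Fin 3) id,
    stdF_torus _ Function.injective_id, ?_⟩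
  rw [CategoryTheory.Functor.map_id]
  rfl

theorem not_prp (k : Type) [CommRing k] [Nontrivial k] (d : ℕ) (Z : SZ) :
    fI (HIA k d) (A := obA d) (B := (obA d).add Z) Sum.inl Sum.inl_injective (stdC k d)
      ∉ Prp (HIA k d) Z (obA d) := by
  intro hmem
  let e : Fin d × Fin 3 → (obA d).X ⊕ Z.X := Sum.inl
  have he : Function.Injective e := Sum.inl_injective
  obtain ⟨Ψ', hΨ1, hΨ2⟩ := exists_functional (k := k) (G := IA ((obA d).X ⊕ Z.X)) (tJ k e)
    (tJ_mul k he)
  let Ψ : (HIA k d).obj ((obA d).add Z) →ₗ[k] k := Ψ'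
  have h1 : Ψ (fI (HIA k d) (A := obA d) (B := (obA d).add Z) Sum.inl Sum.inl_injective
      (stdC k d)) = 1 := by
    have hc := (stdF_torus (X := Fin d × Fin 3) (d := d) id Function.injective_id).commute
    have e0 : stdC k d = tcl k (obA d) (stdF (X := Fin d × Fin 3) id) := torusClass_eq k _ hc
    have e1 : (fun i => pushIA (injΘ (Sum.inl : Fin d × Fin 3 → (Fin d × Fin 3) ⊕ Z.X)
        Sum.inl_injective) (stdF (X := Fin d × Fin 3) id i)) = stdF e := by
      funext i
      exact pushIA_std id Function.injective_id _ _ i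
    rw [e0, tcl_fI k _ _ _ hc]
    have h2 := hΨ1 (stdF e) ((stdF_torus e he).commute) (fun i j hij => by
      rw [tJ_std k he, if_neg hij.ne])
    have h3 : (∏ j, tJ k e j (stdF e j)) = 1 :=
      Finset.prod_eq_one fun j _ => by rw [tJ_std k he, if_pos rfl]
    rw [h3] at h2
    refine Eq.trans ?_ h2
    exact congrArg (fun f => Ψ' (tc f)) e1
  have h0 : ∀ c ∈ Prp (HIA k d) Z (obA d), Ψ c = 0 := by
    intro c hc
    refine Submodule.span_induction ?_ (map_zero _) (fun a b _ _ ha hb => by
      rw [map_add, ha, hb, add_zero]) (fun r a _ ha => by rw [map_smul, ha, smul_zero]) hc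
    rintro _ ⟨S, j, hj, w, ⟨a, ha⟩, rfl⟩
    rw [fI_HIA]
    refine hΨ2 _ _ a.1 (fun h => ?_) _
    refine tJ_push k _ _ a.1 a.2 ?_ h
    rintro (s | z)
    · intro h'
      exact ha s (Sum.inl_injective h')
    · intro h'
      cases h'
  rw [h0 _ hmem] at h1
  exact zero_ne_one h1

theorem card_obA (d : ℕ) : Nat.card (obA d).X = 3 * d := by
  change Nat.card (Fin d × Fin 3) = _
  rw [Nat.card_prod, Nat.card_fin, Nat.card_fin, mul_comm]

/-- The lower bound for the homology. -/
theorem not_wpol_HIA (k : Type) [CommRing k] [Nontrivial k] (d : ℕ) :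
    ¬ WPol (3 * d) (HIA k d) := by
  intro h
  obtain ⟨Z, hZ⟩ := small_of_wpol _ _ h (obA d) (card_obA d) (stdC k d)
  exact not_prp k d Z hZ

/-- The lower bound for the functor generated by the tori. -/
theorem not_wpol_torFun (k : Type) [CommRing k] [Nontrivial k] (d : ℕ) :
    ¬ WPol (3 * d) (torFun k d) := by
  intro h
  obtain ⟨Z, hZ⟩ := small_of_wpol _ _ h (obA d) (card_obA d) ⟨stdC k d, stdC_mem k d⟩
  refine not_prp k d Z ?_
  have key : ∀ c ∈ Prp (torFun k d) Z (obA d), (c : torSub k d ((obA d).add Z)).1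
      ∈ Prp (HIA k d) Z (obA d) := by
    intro c hc
    refine Submodule.span_induction (p := fun (c : (torFun k d).obj ((obA d).add Z)) _ =>
      (c : torSub k d ((obA d).add Z)).1 ∈ Prp (HIA k d) Z (obA d)) ?_ ?_ ?_ ?_ hc
    · rintro _ ⟨S, j, hj, w, ha, rfl⟩
      exact Submodule.subset_span ⟨S, j, hj, w.1, ha, rfl⟩
    · exact Submodule.zero_mem _
    · intro a b _ _ ha hb
      exact Submodule.add_mem _ ha hb
    · intro r a _ ha
      exact Submodule.smul_mem _ _ ha
  exact key _ hZ

end Pool.Agent.IAH
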