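import Mathlib

/-!
# Group homology with trivial coefficients, classes of cycles, classes of tori
-/

namespace Pool.Agent.IAH

open CategoryTheory Finsupp

/-- Inhomogeneous chains of degree `n` with coefficients in `k`. -/
abbrev Ch (k G : Type) [CommRing k] (n : ℕ) : Type := (Fin n → G) →₀ k

/-- Homology with trivial coefficients. -/
noncomputable abbrev Hm (k G : Type) [CommRing k] [Group G] (n : ℕ) : ModuleCat k :=
  groupHomology (Rep.trivial k G k) n

variable {k G : Type} [CommRing k] [Group G]

/-- Being a cycle, for the differential of the complex of inhomogeneous chains. -/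
def IsCy {n : ℕ} (x : Ch k G n) : Prop :=
  (groupHomology.inhomogeneousChains (Rep.trivial k G k)).d n ((ComplexShape.down ℕ).next n) x = 0

/-- The cycle given by a chain. -/
noncomputable def mkCy {n : ℕ} (x : Ch k G n) (h : IsCy x) :
    groupHomology.cycles (Rep.trivial k G k) n :=
  groupHomology.cyclesMk n _ rfl x h

open Classical in
/-- The homology class of a chain (zero if the chain is not a cycle). -/
noncomputable def cls {n : ℕ} (x : Ch k G n) : Hm k G n :=
  if h : IsCy x then (groupHomology.π (Rep.trivial k G k) n).hom (mkCy x h) else 0

/-- The map induced on homology by a group homomorphism. -/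
noncomputable def hmapC {H : Type} [Group H] (f : G →* H) (n : ℕ) : Hm k G n ⟶ Hm k H n :=
  groupHomology.map (A := Rep.trivial k G k) (B := Rep.trivial k H k) f (𝟙 _) n

/-- The linear map induced on homology by a group homomorphism. -/
noncomputable def hmap {H : Type} [Group H] (f : G →* H) (n : ℕ) : Hm k G n →ₗ[k] Hm k H n :=
  (hmapC f n).hom

/-- The signed sum of the insertions of `a` at all places of a tuple. -/
noncomputable def ins (a : G) {n : ℕ} : Ch k G n →ₗ[k] Ch k G (n + 1) :=
  linearCombination k (fun t => ∑ i : Fin (n + 1),
    (-1 : k) ^ (i : ℕ) • single (Fin.insertNth i a t : Fin (n + 1) → G) (1 : k))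

/-- The chain of a torus: the shuffle product of the chains `[g 0], …, [g (d - 1)]`, which is
the alternating sum of the tuples obtained by permuting the entries of `g`. -/
noncomputable def torus : (d : ℕ) → (Fin d → G) → Ch k G d
  | 0, _ => single (fun i => i.elim0) 1
  | d + 1, g => ins (g 0) (torus d (Fin.tail g))

/-- The class in homology of the torus given by commuting elements: the class of the cycle
`torus d f`. -/
noncomputable def torusClass (k : Type) [CommRing k] {G : Type} [Group G] {d : ℕ}
    (f : Fin d → G) : Hm k G d := cls (torus d f)

end Pool.Agent.IAH
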