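import Mathlib

/-!
# The category `S(ℤ)` and weakly polynomial functors
-/

namespace Pool.Agent.IAH

open CategoryTheory CategoryTheory.Limits

/-- An object of `S(ℤ)`: the free abelian group `X →₀ ℤ` on a finite set `X`. -/
structure SZ where
  /-- the finite set -/
  X : Type
  /-- it is finite -/
  [fin : Finite X]

attribute [instance] SZ.fin

/-- A morphism of `S(ℤ)`: a homomorphism `i` with a left inverse `p`. -/
@[ext]
structure SZHom (A B : SZ) where
  /-- the injection -/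
  i : (A.X →₀ ℤ) →+ (B.X →₀ ℤ)
  /-- the retraction -/
  p : (B.X →₀ ℤ) →+ (A.X →₀ ℤ)
  /-- the retraction is a left inverse -/
  pi : ∀ v, p (i v) = v

noncomputable instance : Category SZ where
  Hom A B := SZHom A B
  id A := ⟨AddMonoidHom.id _, AddMonoidHom.id _, fun _ => rfl⟩
  comp f g := ⟨g.i.comp f.i, f.p.comp g.p, fun v => by
    simp only [AddMonoidHom.comp_apply, g.pi, f.pi]⟩

theorem SZ.hom_ext {A B : SZ} {f g : A ⟶ B} (h1 : f.i = g.i) (h2 : f.p = g.p) : f = g :=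
  SZHom.ext h1 h2

/-- The morphism given by an injective map of finite sets. -/
noncomputable def ofInj {A B : SZ} (j : A.X → B.X) (hj : Function.Injective j) : A ⟶ B where
  i := Finsupp.mapDomain.addMonoidHom j
  p := Finsupp.comapDomain.addMonoidHom hj
  pi v := Finsupp.comapDomain_mapDomain j hj v

/-- The sum of two objects. -/
abbrev SZ.add (A B : SZ) : SZ := ⟨A.X ⊕ B.X⟩

/-- The isomorphism `ℤ^(A ⊕ B) = ℤ^A × ℤ^B`. -/
noncomputable def spl (A B : SZ) : ((A.add B).X →₀ ℤ) ≃+ (A.X →₀ ℤ) × (B.X →₀ ℤ) :=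
  Finsupp.sumFinsuppAddEquivProdFinsupp

theorem spl_fst (A B : SZ) (v : (A.add B).X →₀ ℤ) (a : A.X) :
    (spl A B v).1 a = v (Sum.inl a) := rfl

theorem spl_snd (A B : SZ) (v : (A.add B).X →₀ ℤ) (b : B.X) :
    (spl A B v).2 b = v (Sum.inr b) := rfl

theorem spl_inl (A B : SZ) (u : A.X →₀ ℤ) :
    spl A B (Finsupp.mapDomain Sum.inl u) = (u, 0) := by
  refine Prod.ext (Finsupp.ext fun a => ?_) (Finsupp.ext fun a => ?_)
  · rw [spl_fst, Finsupp.mapDomain_apply Sum.inl_injective]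
  · rw [spl_snd, Finsupp.mapDomain_notin_range _ _ (by simp)]
    rfl

theorem spl_inr (A B : SZ) (u : B.X →₀ ℤ) :
    spl A B (Finsupp.mapDomain Sum.inr u) = (0, u) := by
  refine Prod.ext (Finsupp.ext fun a => ?_) (Finsupp.ext fun a => ?_)
  · rw [spl_fst, Finsupp.mapDomain_notin_range _ _ (by simp)]
    rfl
  · rw [spl_snd, Finsupp.mapDomain_apply Sum.inr_injective]

theorem spl_symm (A B : SZ) (u : A.X →₀ ℤ) (v : B.X →₀ ℤ) :
    (spl A B).symm (u, v) = Finsupp.mapDomain Sum.inl u + Finsupp.mapDomain Sum.inr v := by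
  rw [AddEquiv.symm_apply_eq, map_add, spl_inl, spl_inr]
  simp

/-- The sum of two morphisms. -/
noncomputable def sumMap {A B C D : SZ} (f : A ⟶ C) (g : B ⟶ D) : A.add B ⟶ C.add D where
  i := (spl C D).symm.toAddMonoidHom.comp ((f.i.prodMap g.i).comp (spl A B).toAddMonoidHom)
  p := (spl A B).symm.toAddMonoidHom.comp ((f.p.prodMap g.p).comp (spl C D).toAddMonoidHom)
  pi v := by
    have h : Prod.map (⇑f.p) (⇑g.p) (Prod.map (⇑f.i) (⇑g.i) ((spl A B) v)) = spl A B v :=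
      Prod.ext (f.pi _) (g.pi _)
    simp [h]

theorem sumMap_i {A B C D : SZ} (f : A ⟶ C) (g : B ⟶ D) (v : (A.add B).X →₀ ℤ) :
    (sumMap f g).i v = (spl C D).symm (f.i (spl A B v).1, g.i (spl A B v).2) := rfl

theorem sumMap_p {A B C D : SZ} (f : A ⟶ C) (g : B ⟶ D) (v : (C.add D).X →₀ ℤ) :
    (sumMap f g).p v = (spl A B).symm (f.p (spl C D v).1, g.p (spl C D v).2) := rfl

theorem id_i (A : SZ) (v : A.X →₀ ℤ) : (𝟙 A : A ⟶ A).i v = v := rfl

theorem id_p (A : SZ) (v : A.X →₀ ℤ) : (𝟙 A : A ⟶ A).p v = v := rfl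

theorem comp_i {A B C : SZ} (f : A ⟶ B) (g : B ⟶ C) (v : A.X →₀ ℤ) :
    (f ≫ g).i v = g.i (f.i v) := rfl

theorem comp_p {A B C : SZ} (f : A ⟶ B) (g : B ⟶ C) (v : C.X →₀ ℤ) :
    (f ≫ g).p v = f.p (g.p v) := rfl

theorem sumMap_id (A B : SZ) : sumMap (𝟙 A) (𝟙 B) = 𝟙 (A.add B) := by
  refine SZ.hom_ext (AddMonoidHom.ext fun v => ?_) (AddMonoidHom.ext fun v => ?_)
  · rw [sumMap_i, id_i, id_i, id_i]
    exact AddEquiv.symm_apply_apply _ _
  · rw [sumMap_p, id_p, id_p, id_p]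
    exact AddEquiv.symm_apply_apply _ _

theorem sumMap_comp {A B C D E F : SZ} (f : A ⟶ C) (g : B ⟶ D) (f' : C ⟶ E) (g' : D ⟶ F) :
    sumMap f g ≫ sumMap f' g' = sumMap (f ≫ f') (g ≫ g') := by
  refine SZ.hom_ext (AddMonoidHom.ext fun v => ?_) (AddMonoidHom.ext fun v => ?_)
  · rw [comp_i, sumMap_i, sumMap_i, sumMap_i, AddEquiv.apply_symm_apply, comp_i, comp_i]
  · rw [comp_p, sumMap_p, sumMap_p, sumMap_p, AddEquiv.apply_symm_apply, comp_p, comp_p]

/-- The functor `x ⊕ -`. -/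
noncomputable def addL (x : SZ) : SZ ⥤ SZ where
  obj Y := x.add Y
  map f := sumMap (𝟙 x) f
  map_id Y := sumMap_id x Y
  map_comp f g := by rw [sumMap_comp, Category.comp_id]

/-- The natural transformation from the identity to `x ⊕ -`, made of the standard inclusions. -/
noncomputable def inclL (x : SZ) : 𝟭 SZ ⟶ addL x where
  app Y := ofInj (A := Y) (B := x.add Y) Sum.inr Sum.inr_injective
  naturality Y Y' f := by
    refine SZ.hom_ext (AddMonoidHom.ext fun v => ?_) (AddMonoidHom.ext fun v => ?_)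
    · change Finsupp.mapDomain Sum.inr (f.i v) = (sumMap (𝟙 x) f).i (Finsupp.mapDomain Sum.inr v)
      rw [sumMap_i, spl_inr, spl_symm, id_i, Finsupp.mapDomain_zero, zero_add]
    · refine Finsupp.ext fun a => ?_
      rfl

variable {k : Type} [CommRing k]

/-- The functor `δ_x F`, the cokernel of `F ⟶ F(x ⊕ -)`. -/
noncomputable def delta (x : SZ) (F : SZ ⥤ ModuleCat k) : SZ ⥤ ModuleCat k :=
  cokernel (Functor.whiskerRight (inclL x) F)

/-- Stably null functors. -/
def StablyNull (F : SZ ⥤ ModuleCat k) : Prop :=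
  ∀ (V : SZ) (u : F.obj V), ∃ x : SZ,
    (F.map (ofInj (A := V) (B := V.add x) Sum.inl Sum.inl_injective)).hom u = 0

/-- `WPol m F` says that the image of `F` in the quotient by the stably null functors lies in
`Pol_{m - 1}`. -/
def WPol : ℕ → (SZ ⥤ ModuleCat k) → Prop
  | 0, F => StablyNull F
  | m + 1, F => ∀ x : SZ, WPol m (delta x F)

end Pool.Agent.IAH
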