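import Pool.Agent.IAH.Ext
import Pool.Agent.IAH.SzDef

/-!
# Lifts of morphisms of `S(ℤ)` to free groups
-/

namespace Pool.Agent.IAH

open Finsupp CategoryTheory

/-- The homomorphism `IA(X) → IA(Y)` given by `Θ`. -/
noncomputable def pushIA {X Y R : Type} (Θ : FreeGroup (X ⊕ R) ≃* FreeGroup Y) : IA X →* IA Y :=
  ((push Θ).comp (IA X).subtype).codRestrict (IA Y) (fun f => push_mem Θ f.2)

/-- `Θ : F(A ⊕ R) ≃ F(B)` lifts the morphism `φ : ℤ^A → ℤ^B` of `S(ℤ)`: the composite of the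
standard inclusion and of the isomorphism given by `Θ` is `φ`. -/
def IsLift {A B : SZ} (φ : A ⟶ B) {R : Type} (Θ : FreeGroup (A.X ⊕ R) ≃* FreeGroup B.X) : Prop :=
  (∀ x, abv (Θ (FreeGroup.of (Sum.inl x))) = φ.i (single x 1)) ∧
    ∀ r, φ.p (abv (Θ (FreeGroup.of (Sum.inr r)))) = 0

end Pool.Agent.IAH
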