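import Pool.Agent.IAH.Det
import Pool.Agent.IAH.Crit
import Pool.Agent.IAH.LiftDef

/-!
# Existence and uniqueness of lifts
-/

namespace Pool.Agent.IAH

open Finsupp CategoryTheory

theorem pushIA_coe {X Y R : Type} (Θ : FreeGroup (X ⊕ R) ≃* FreeGroup Y) (f : IA X) :
    (pushIA Θ f : MulAut (FreeGroup Y)) = push Θ f := rfl

theorem IsLift.inl {A B : SZ} {φ : A ⟶ B} {R : Type} {Θ : FreeGroup (A.X ⊕ R) ≃* FreeGroup B.X}
    (h : IsLift φ Θ) (v : FreeGroup A.X) :
    abv (Θ (FreeGroup.map Sum.inl v)) = φ.i (abv v) := by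
  refine abv_ind (fun v => abv (Θ (FreeGroup.map Sum.inl v))) (fun v => φ.i (abv v)) ?_ ?_ ?_ v
  · intro v w; simp only [map_mul, abv_mul]
  · intro v w; simp only [abv_mul, map_add]
  · intro x; rw [FreeGroup.map.of, h.1, abv_of]

theorem IsLift.p {A B : SZ} {φ : A ⟶ B} {R : Type} {Θ : FreeGroup (A.X ⊕ R) ≃* FreeGroup B.X}
    (h : IsLift φ Θ) (v : FreeGroup (A.X ⊕ R)) (a : A.X) :
    φ.p (abv (Θ v)) a = abv v (Sum.inl a) := by
  have : φ.p (abv (Θ v)) = comapDomain.addMonoidHom Sum.inl_injective (abv v) := by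
    refine abv_ind (fun v => φ.p (abv (Θ v)))
      (fun v => comapDomain.addMonoidHom Sum.inl_injective (abv v)) ?_ ?_ ?_ v
    · intro v w; simp only [map_mul, abv_mul, map_add]
    · intro v w; simp only [abv_mul, map_add]
    · rintro (x | r)
      · rw [h.1, φ.pi, abv_of, ← mapDomain_single (f := Sum.inl) (a := x)]
        exact (comapDomain_mapDomain Sum.inl Sum.inl_injective _).symm
      · rw [h.2, abv_of]
        refine Finsupp.ext fun b => ?_
        change (0 : ℤ) = (single (Sum.inr r) (1 : ℤ) : A.X ⊕ R →₀ ℤ) (Sum.inl b)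
        classical
        rw [single_apply, if_neg (by simp)]
  rw [this]; rfl

/-- The decomposition of `ℤ^B` given by a morphism `ℤ^A → ℤ^B`. -/
noncomputable def decE {A B : SZ} (φ : A ⟶ B) :
    (A.X →₀ ℤ) × (LinearMap.ker φ.p.toIntLinearMap) ≃+ (B.X →₀ ℤ) where
  toFun v := φ.i v.1 + v.2.1
  invFun w := (φ.p w, ⟨w - φ.i (φ.p w), by
    rw [LinearMap.mem_ker]
    change φ.p (w - φ.i (φ.p w)) = 0
    rw [map_sub, φ.pi, sub_self]⟩)
  left_inv v := by
    have h : φ.p v.2.1 = 0 := v.2.2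
    refine Prod.ext ?_ (Subtype.ext ?_)
    · change φ.p (φ.i v.1 + v.2.1) = v.1
      rw [map_add, φ.pi, h, add_zero]
    · change φ.i v.1 + v.2.1 - φ.i (φ.p (φ.i v.1 + v.2.1)) = v.2.1
      rw [map_add φ.p, φ.pi, h, add_zero, add_sub_cancel_left]
  right_inv w := by
    change φ.i (φ.p w) + (w - φ.i (φ.p w)) = w
    abel
  map_add' v w := by
    change φ.i (v.1 + w.1) + (v.2.1 + w.2.1) = _
    rw [map_add]
    abel

/-- Every morphism has a lift. -/
theorem exists_lift {A B : SZ} (φ : A ⟶ B) : ∃ (R : Type) (_ : Finite R)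
    (Θ : FreeGroup (A.X ⊕ R) ≃* FreeGroup B.X), IsLift φ Θ := by
  classical
  obtain ⟨n, ⟨c⟩⟩ := Submodule.nonempty_basis_of_pid (Finsupp.basisSingleOne (R := ℤ) (ι := B.X))
    (LinearMap.ker φ.p.toIntLinearMap)
  let g : (A.X ⊕ Fin n →₀ ℤ) ≃+ (B.X →₀ ℤ) := sumFinsuppAddEquivProdFinsupp.trans
    (((AddEquiv.refl (A.X →₀ ℤ)).prodCongr c.repr.symm.toAddEquiv).trans (decE φ))
  obtain ⟨Θ, hΘ⟩ := Lf_all _ _ _ g rfl
  have hg : ∀ v, g v = φ.i (sumFinsuppAddEquivProdFinsupp v).1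
      + (c.repr.symm (sumFinsuppAddEquivProdFinsupp v).2).1 := fun v => rfl
  refine ⟨Fin n, inferInstance, Θ, fun x => ?_, fun r => ?_⟩
  · rw [hΘ, abv_of, hg]
    have h1 : sumFinsuppAddEquivProdFinsupp (single (Sum.inl x : A.X ⊕ Fin n) (1 : ℤ))
        = (single x 1, 0) := by
      rw [← mapDomain_single (f := Sum.inl) (a := x)]
      exact spl_inl A ⟨Fin n⟩ _
    rw [h1]
    have h2 : c.repr.symm 0 = 0 := map_zero _
    rw [h2]
    exact add_zero _
  · rw [hΘ, abv_of, hg]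
    have h1 : sumFinsuppAddEquivProdFinsupp (single (Sum.inr r : A.X ⊕ Fin n) (1 : ℤ))
        = (0, single r 1) := by
      rw [← mapDomain_single (f := Sum.inr) (a := r)]
      exact spl_inr A ⟨Fin n⟩ _
    rw [h1, map_zero, zero_add]
    exact (c.repr.symm (single r 1)).2

/-- The isomorphism of `F(X ⊕ R)` and `F(X ⊕ R')` given by an isomorphism of `F(R)` and `F(R')`. -/
noncomputable def sndE {R R' : Type} (X : Type) (ρ : FreeGroup R →* FreeGroup R') :
    FreeGroup (X ⊕ R) →* FreeGroup (X ⊕ R') :=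
  FreeGroup.lift (Sum.elim (fun x => FreeGroup.of (Sum.inl x))
    (fun r => FreeGroup.map Sum.inr (ρ (FreeGroup.of r))))

theorem sndE_inl_of {R R' X : Type} (ρ : FreeGroup R →* FreeGroup R') (x : X) :
    sndE X ρ (FreeGroup.of (Sum.inl x)) = FreeGroup.of (Sum.inl x) := by
  rw [sndE, FreeGroup.lift_apply_of]; rfl

theorem sndE_inr_of {R R' X : Type} (ρ : FreeGroup R →* FreeGroup R') (r : R) :
    sndE X ρ (FreeGroup.of (Sum.inr r)) = FreeGroup.map Sum.inr (ρ (FreeGroup.of r)) := by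
  rw [sndE, FreeGroup.lift_apply_of]; rfl

theorem sndE_inl {R R' X : Type} (ρ : FreeGroup R →* FreeGroup R') (w : FreeGroup X) :
    sndE X ρ (FreeGroup.map Sum.inl w) = FreeGroup.map Sum.inl w := by
  have : (sndE X ρ).comp (FreeGroup.map Sum.inl) = FreeGroup.map Sum.inl := by
    apply FreeGroup.ext_hom
    intro x
    rw [MonoidHom.comp_apply, FreeGroup.map.of, sndE_inl_of, FreeGroup.map.of]
  exact congrArg (fun g => g w) this

theorem sndE_inr {R R' X : Type} (ρ : FreeGroup R →* FreeGroup R') (w : FreeGroup R) :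
    sndE X ρ (FreeGroup.map Sum.inr w) = FreeGroup.map Sum.inr (ρ w) := by
  have : (sndE X ρ).comp (FreeGroup.map Sum.inr) = (FreeGroup.map Sum.inr).comp ρ := by
    apply FreeGroup.ext_hom
    intro x
    rw [MonoidHom.comp_apply, FreeGroup.map.of, sndE_inr_of]; rfl
  exact congrArg (fun g => g w) this

/-- The same for an isomorphism. -/
noncomputable def sndA {R R' : Type} (X : Type) (ρ : FreeGroup R ≃* FreeGroup R') :
    FreeGroup (X ⊕ R) ≃* FreeGroup (X ⊕ R') :=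
  MonoidHom.toMulEquiv (sndE X ρ.toMonoidHom) (sndE X ρ.symm.toMonoidHom)
    (by
      apply FreeGroup.ext_hom
      rintro (x | r)
      · rw [MonoidHom.comp_apply, sndE_inl_of, sndE_inl_of]; rfl
      · rw [MonoidHom.comp_apply, sndE_inr_of, sndE_inr]
        exact (congrArg (FreeGroup.map Sum.inr) (ρ.symm_apply_apply _)).trans FreeGroup.map.of)
    (by
      apply FreeGroup.ext_hom
      rintro (x | r)
      · rw [MonoidHom.comp_apply, sndE_inl_of, sndE_inl_of]; rfl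
      · rw [MonoidHom.comp_apply, sndE_inr_of, sndE_inr]
        exact (congrArg (FreeGroup.map Sum.inr) (ρ.apply_symm_apply _)).trans FreeGroup.map.of)

theorem sndA_inl_of {R R' X : Type} (ρ : FreeGroup R ≃* FreeGroup R') (x : X) :
    sndA X ρ (FreeGroup.of (Sum.inl x)) = FreeGroup.of (Sum.inl x) :=
  sndE_inl_of ρ.toMonoidHom x

theorem sndA_inl {R R' X : Type} (ρ : FreeGroup R ≃* FreeGroup R') (w : FreeGroup X) :
    sndA X ρ (FreeGroup.map Sum.inl w) = FreeGroup.map Sum.inl w :=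
  sndE_inl ρ.toMonoidHom w

theorem sndA_inr_of {R R' X : Type} (ρ : FreeGroup R ≃* FreeGroup R') (r : R) :
    sndA X ρ (FreeGroup.of (Sum.inr r)) = FreeGroup.map Sum.inr (ρ (FreeGroup.of r)) :=
  sndE_inr_of ρ.toMonoidHom r

theorem extA_fix_inr {X R : Type} (f : MulAut (FreeGroup X)) (w : FreeGroup R) :
    extA R f (FreeGroup.map Sum.inr w) = FreeGroup.map Sum.inr w := by
  have : (extA R f).toMonoidHom.comp (FreeGroup.map Sum.inr) = FreeGroup.map Sum.inr := by
    apply FreeGroup.ext_hom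
    intro x
    rw [MonoidHom.comp_apply, FreeGroup.map.of]
    exact extA_inr_of f x
  exact congrArg (fun g => g w) this

/-- Restriction to the second summand. -/
noncomputable def tR (X R : Type) : (X ⊕ R →₀ ℤ) →+ (R →₀ ℤ) :=
  comapDomain.addMonoidHom Sum.inr_injective

/-- Extension by zero from the second summand. -/
noncomputable def jR (X R : Type) : (R →₀ ℤ) →+ (X ⊕ R →₀ ℤ) :=
  mapDomain.addMonoidHom Sum.inr

theorem tR_jR {X R : Type} (v : R →₀ ℤ) : tR X R (jR X R v) = v :=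
  comapDomain_mapDomain _ Sum.inr_injective _

theorem jR_tR {X R : Type} {v : X ⊕ R →₀ ℤ} (h : ∀ x, v (Sum.inl x) = 0) :
    jR X R (tR X R v) = v := by
  refine Finsupp.ext fun t => ?_
  rcases t with x | r
  · rw [h]
    exact mapDomain_notin_range _ _ (by simp)
  · exact mapDomain_apply Sum.inr_injective _ _

theorem jR_inl {X R : Type} (v : R →₀ ℤ) (x : X) : jR X R v (Sum.inl x) = 0 :=
  mapDomain_notin_range _ _ (by simp)

theorem lift_comm {A B : SZ} {φ : A ⟶ B} {R R' : Type} {Θ : FreeGroup (A.X ⊕ R) ≃* FreeGroup B.X}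
    {Θ' : FreeGroup (A.X ⊕ R') ≃* FreeGroup B.X} (h : IsLift φ Θ) (h' : IsLift φ Θ')
    (v : A.X ⊕ R →₀ ℤ) (a : A.X) : linE (Θ.trans Θ'.symm) v (Sum.inl a) = v (Sum.inl a) := by
  obtain ⟨w, rfl⟩ := abv_surj v
  rw [linE_abv, ← h'.p, MulEquiv.trans_apply, MulEquiv.apply_symm_apply, h.p]

/-- Two lifts of the same morphism differ by an element of `IA`. -/
theorem lift_unique {A B : SZ} {φ : A ⟶ B} {R R' : Type} [Finite R] [Finite R']
    {Θ : FreeGroup (A.X ⊕ R) ≃* FreeGroup B.X} {Θ' : FreeGroup (A.X ⊕ R') ≃* FreeGroup B.X}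
    (h : IsLift φ Θ) (h' : IsLift φ Θ') :
    ∃ κ ∈ IA B.X, ∀ f, push Θ f = κ * push Θ' f * κ⁻¹ := by
  let Ψ : FreeGroup (A.X ⊕ R) ≃* FreeGroup (A.X ⊕ R') := Θ.trans Θ'.symm
  have hΨ : ∀ v, Θ' (Ψ v) = Θ v := fun v => by
    rw [MulEquiv.trans_apply, MulEquiv.apply_symm_apply]
  have hc := lift_comm h h'
  have hc' : ∀ (v : A.X ⊕ R' →₀ ℤ) (a : A.X), (linE Ψ).symm v (Sum.inl a) = v (Sum.inl a) := by
    intro v a
    rw [← hc, AddEquiv.apply_symm_apply]
  have hinl : ∀ x, abv (Ψ (FreeGroup.of (Sum.inl x))) = single (Sum.inl x) 1 := by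
    intro x
    apply (linE Θ').injective
    rw [linE_abv, hΨ, h.1, linE_single, h'.1]
  let ρ : (R →₀ ℤ) ≃+ (R' →₀ ℤ) :=
    { toFun := fun v => tR A.X R' (linE Ψ (jR A.X R v))
      invFun := fun v => tR A.X R ((linE Ψ).symm (jR A.X R' v))
      left_inv := fun v => by
        change tR A.X R ((linE Ψ).symm (jR A.X R' (tR A.X R' (linE Ψ (jR A.X R v))))) = v
        rw [jR_tR (fun x => by rw [hc, jR_inl]), AddEquiv.symm_apply_apply, tR_jR]
      right_inv := fun v => by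
        change tR A.X R' (linE Ψ (jR A.X R (tR A.X R ((linE Ψ).symm (jR A.X R' v))))) = v
        rw [jR_tR (fun x => by rw [hc', jR_inl]), AddEquiv.apply_symm_apply, tR_jR]
      map_add' := fun v w => by simp only [map_add] }
  obtain ⟨ρ', hρ'⟩ := Lf_all _ _ _ ρ rfl
  let σ := sndA A.X ρ'
  have hσ : ∀ w, abv (Ψ w) = abv (σ w) := by
    intro w
    refine abv_ind (fun w => abv (Ψ w)) (fun w => abv (σ w)) ?_ ?_ ?_ w
    · intro v w; simp only [map_mul, abv_mul]
    · intro v w; simp only [map_mul, abv_mul]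
    · rintro (x | r)
      · rw [hinl, sndA_inl_of, abv_of]
      · rw [sndA_inr_of, abv_map, hρ', abv_of, ← linE_single]
        have e1 : (single (Sum.inr r) 1 : A.X ⊕ R →₀ ℤ) = jR A.X R (single r 1) :=
          (mapDomain_single).symm
        rw [e1]
        exact (jR_tR (fun x => by rw [hc, jR_inl])).symm
  let κ0 : MulAut (FreeGroup (A.X ⊕ R')) := σ.symm.trans Ψ
  have hκ0 : ∀ v, κ0 (σ v) = Ψ v := fun v => by
    change Ψ (σ.symm (σ v)) = Ψ v
    rw [MulEquiv.symm_apply_apply]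
  have hκ0m : κ0 ∈ IA (A.X ⊕ R') := by
    intro w
    obtain ⟨v, rfl⟩ := σ.surjective w
    rw [hκ0, hσ]
  have hext : ∀ (f : MulAut (FreeGroup A.X)) (v : FreeGroup (A.X ⊕ R)),
      σ (extA R f v) = extA R' f (σ v) := by
    intro f v
    have : σ.toMonoidHom.comp (extA R f).toMonoidHom
        = (extA R' f).toMonoidHom.comp σ.toMonoidHom := by
      apply FreeGroup.ext_hom
      rintro (x | r)
      · change σ (extA R f (FreeGroup.of (Sum.inl x))) = extA R' f (σ (FreeGroup.of (Sum.inl x)))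
        rw [extA_inl_of, sndA_inl, sndA_inl_of, extA_inl_of]
      · change σ (extA R f (FreeGroup.of (Sum.inr r))) = extA R' f (σ (FreeGroup.of (Sum.inr r)))
        rw [extA_inr_of, sndA_inr_of, extA_fix_inr]
    exact congrArg (fun g => g v) this
  let κ : MulAut (FreeGroup B.X) := MulAut.congr Θ' κ0
  have hκ : ∀ u, κ (Θ' u) = Θ' (κ0 u) := fun u => by
    change Θ' (κ0 (Θ'.symm (Θ' u))) = _
    rw [MulEquiv.symm_apply_apply]
  refine ⟨κ, ?_, fun f => ?_⟩
  · intro w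
    obtain ⟨v, rfl⟩ := Θ'.surjective w
    rw [hκ]
    exact abv_equiv Θ' (hκ0m v)
  · rw [eq_mul_inv_iff_mul_eq]
    apply MulEquiv.ext
    intro w
    obtain ⟨u, rfl⟩ := Θ'.surjective w
    obtain ⟨v, rfl⟩ := σ.surjective u
    rw [MulAut.mul_apply, MulAut.mul_apply, hκ, hκ0, hΨ, push_apply', push_apply', ← hext, hκ, hκ0,
      hΨ]

theorem hmap_lift {A B : SZ} {φ : A ⟶ B} {R R' : Type} [Finite R] [Finite R']
    {Θ : FreeGroup (A.X ⊕ R) ≃* FreeGroup B.X} {Θ' : FreeGroup (A.X ⊕ R') ≃* FreeGroup B.X}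
    (h : IsLift φ Θ) (h' : IsLift φ Θ') (k : Type) [CommRing k] (d : ℕ) :
    hmap (k := k) (pushIA Θ) d = hmap (pushIA Θ') d := by
  obtain ⟨κ, hκ, hf⟩ := lift_unique h h'
  have e : pushIA Θ = (MulAut.conj (⟨κ, hκ⟩ : IA B.X)).toMonoidHom.comp (pushIA Θ') := by
    apply MonoidHom.ext
    intro f
    apply Subtype.ext
    rw [pushIA_coe, hf]
    rfl
  rw [e, hmap_comp, hmap_conj, LinearMap.id_comp]

theorem isLift_id (A : SZ) : IsLift (𝟙 A)
    (FreeGroup.freeGroupCongr (Equiv.sumEmpty A.X Empty)) := by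
  constructor
  · intro x
    have e : FreeGroup.freeGroupCongr (Equiv.sumEmpty A.X Empty) (FreeGroup.of (Sum.inl x))
        = FreeGroup.of x := by simp
    rw [e, abv_of]; rfl
  · intro r; exact r.elim

theorem push_id (A : SZ) (f : MulAut (FreeGroup A.X)) :
    push (FreeGroup.freeGroupCongr (Equiv.sumEmpty A.X Empty)) f = f := by
  apply MulEquiv.ext
  intro w
  obtain ⟨v, rfl⟩ := (FreeGroup.freeGroupCongr (Equiv.sumEmpty A.X Empty)).surjective w
  rw [push_apply']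
  have : (FreeGroup.freeGroupCongr (Equiv.sumEmpty A.X Empty)).toMonoidHom.comp
      (extA Empty f).toMonoidHom = f.toMonoidHom.comp
        (FreeGroup.freeGroupCongr (Equiv.sumEmpty A.X Empty)).toMonoidHom := by
    apply FreeGroup.ext_hom
    rintro (x | r)
    · change FreeGroup.freeGroupCongr (Equiv.sumEmpty A.X Empty)
        (extA Empty f (FreeGroup.of (Sum.inl x))) = f (FreeGroup.freeGroupCongr
          (Equiv.sumEmpty A.X Empty) (FreeGroup.of (Sum.inl x)))
      rw [extA_inl_of]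
      have e : FreeGroup.freeGroupCongr (Equiv.sumEmpty A.X Empty) (FreeGroup.of (Sum.inl x))
        = FreeGroup.of x := by simp
      rw [e]
      have e2 : ∀ w : FreeGroup A.X, FreeGroup.freeGroupCongr (Equiv.sumEmpty A.X Empty)
          (FreeGroup.map Sum.inl w) = w := by
        intro w
        have : (FreeGroup.freeGroupCongr (Equiv.sumEmpty A.X Empty)).toMonoidHom.comp
            (FreeGroup.map Sum.inl) = MonoidHom.id _ := by
          apply FreeGroup.ext_hom
          intro x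
          simp
        exact congrArg (fun g => g w) this
      exact e2 _
    · exact r.elim
  exact congrArg (fun g => g v) this

/-- The sum of an isomorphism and of the identity. -/
noncomputable def fstE {X Y : Type} (S : Type) (g : FreeGroup X →* FreeGroup Y) :
    FreeGroup (X ⊕ S) →* FreeGroup (Y ⊕ S) :=
  FreeGroup.lift (Sum.elim (fun x => FreeGroup.map Sum.inl (g (FreeGroup.of x)))
    (fun s => FreeGroup.of (Sum.inr s)))

theorem fstE_inl_of {X Y S : Type} (g : FreeGroup X →* FreeGroup Y) (x : X) :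
    fstE S g (FreeGroup.of (Sum.inl x)) = FreeGroup.map Sum.inl (g (FreeGroup.of x)) := by
  rw [fstE, FreeGroup.lift_apply_of]; rfl

theorem fstE_inr_of {X Y S : Type} (g : FreeGroup X →* FreeGroup Y) (s : S) :
    fstE S g (FreeGroup.of (Sum.inr s)) = FreeGroup.of (Sum.inr s) := by
  rw [fstE, FreeGroup.lift_apply_of]; rfl

theorem fstE_inl {X Y S : Type} (g : FreeGroup X →* FreeGroup Y) (w : FreeGroup X) :
    fstE S g (FreeGroup.map Sum.inl w) = FreeGroup.map Sum.inl (g w) := by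
  have : (fstE S g).comp (FreeGroup.map Sum.inl) = (FreeGroup.map Sum.inl).comp g := by
    apply FreeGroup.ext_hom
    intro x
    rw [MonoidHom.comp_apply, FreeGroup.map.of, fstE_inl_of]; rfl
  exact congrArg (fun g => g w) this

/-- The sum of an isomorphism and of the identity. -/
noncomputable def fstA {X Y : Type} (S : Type) (g : FreeGroup X ≃* FreeGroup Y) :
    FreeGroup (X ⊕ S) ≃* FreeGroup (Y ⊕ S) :=
  MonoidHom.toMulEquiv (fstE S g.toMonoidHom) (fstE S g.symm.toMonoidHom)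
    (by
      apply FreeGroup.ext_hom
      rintro (x | r)
      · rw [MonoidHom.comp_apply, fstE_inl_of, fstE_inl]
        exact (congrArg (FreeGroup.map Sum.inl) (g.symm_apply_apply _)).trans FreeGroup.map.of
      · rw [MonoidHom.comp_apply, fstE_inr_of, fstE_inr_of]; rfl)
    (by
      apply FreeGroup.ext_hom
      rintro (x | r)
      · rw [MonoidHom.comp_apply, fstE_inl_of, fstE_inl]
        exact (congrArg (FreeGroup.map Sum.inl) (g.apply_symm_apply _)).trans FreeGroup.map.of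
      · rw [MonoidHom.comp_apply, fstE_inr_of, fstE_inr_of]; rfl)

theorem fstA_inl_of {X Y S : Type} (g : FreeGroup X ≃* FreeGroup Y) (x : X) :
    fstA S g (FreeGroup.of (Sum.inl x)) = FreeGroup.map Sum.inl (g (FreeGroup.of x)) :=
  fstE_inl_of g.toMonoidHom x

theorem fstA_inr_of {X Y S : Type} (g : FreeGroup X ≃* FreeGroup Y) (s : S) :
    fstA S g (FreeGroup.of (Sum.inr s)) = FreeGroup.of (Sum.inr s) :=
  fstE_inr_of g.toMonoidHom s

theorem fstA_inl {X Y S : Type} (g : FreeGroup X ≃* FreeGroup Y) (w : FreeGroup X) :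
    fstA S g (FreeGroup.map Sum.inl w) = FreeGroup.map Sum.inl (g w) :=
  fstE_inl g.toMonoidHom w

/-- The composite of two lifts. -/
noncomputable def compΘ {X Y Z R S : Type} (Θ : FreeGroup (X ⊕ R) ≃* FreeGroup Y)
    (Ξ : FreeGroup (Y ⊕ S) ≃* FreeGroup Z) : FreeGroup (X ⊕ (R ⊕ S)) ≃* FreeGroup Z :=
  ((FreeGroup.freeGroupCongr (Equiv.sumAssoc X R S).symm).trans (fstA S Θ)).trans Ξ

theorem compΘ_inl {X Y Z R S : Type} (Θ : FreeGroup (X ⊕ R) ≃* FreeGroup Y)
    (Ξ : FreeGroup (Y ⊕ S) ≃* FreeGroup Z) (w : FreeGroup X) :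
    compΘ Θ Ξ (FreeGroup.map Sum.inl w)
      = Ξ (FreeGroup.map Sum.inl (Θ (FreeGroup.map Sum.inl w))) := by
  have : (compΘ Θ Ξ).toMonoidHom.comp (FreeGroup.map Sum.inl)
      = Ξ.toMonoidHom.comp ((FreeGroup.map Sum.inl).comp
        (Θ.toMonoidHom.comp (FreeGroup.map Sum.inl))) := by
    apply FreeGroup.ext_hom
    intro x
    change Ξ (fstA S Θ (FreeGroup.freeGroupCongr (Equiv.sumAssoc X R S).symm
      (FreeGroup.map Sum.inl (FreeGroup.of x)))) = Ξ (FreeGroup.map Sum.inl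
        (Θ (FreeGroup.map Sum.inl (FreeGroup.of x))))
    rw [FreeGroup.map.of, FreeGroup.map.of]
    have e : FreeGroup.freeGroupCongr (Equiv.sumAssoc X R S).symm (FreeGroup.of (Sum.inl x))
        = FreeGroup.of (Sum.inl (Sum.inl x)) := by simp
    rw [e, fstA_inl_of]
  exact congrArg (fun g => g w) this

theorem compΘ_inr_inl {X Y Z R S : Type} (Θ : FreeGroup (X ⊕ R) ≃* FreeGroup Y)
    (Ξ : FreeGroup (Y ⊕ S) ≃* FreeGroup Z) (r : R) :
    compΘ Θ Ξ (FreeGroup.of (Sum.inr (Sum.inl r)))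
      = Ξ (FreeGroup.map Sum.inl (Θ (FreeGroup.of (Sum.inr r)))) := by
  change Ξ (fstA S Θ (FreeGroup.freeGroupCongr (Equiv.sumAssoc X R S).symm
    (FreeGroup.of (Sum.inr (Sum.inl r))))) = _
  have e : FreeGroup.freeGroupCongr (Equiv.sumAssoc X R S).symm (FreeGroup.of (Sum.inr (Sum.inl r)))
      = FreeGroup.of (Sum.inl (Sum.inr r)) := by simp
  rw [e, fstA_inl_of]

theorem compΘ_inr_inr {X Y Z R S : Type} (Θ : FreeGroup (X ⊕ R) ≃* FreeGroup Y)
    (Ξ : FreeGroup (Y ⊕ S) ≃* FreeGroup Z) (s : S) :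
    compΘ Θ Ξ (FreeGroup.of (Sum.inr (Sum.inr s))) = Ξ (FreeGroup.of (Sum.inr s)) := by
  change Ξ (fstA S Θ (FreeGroup.freeGroupCongr (Equiv.sumAssoc X R S).symm
    (FreeGroup.of (Sum.inr (Sum.inr s))))) = _
  have e : FreeGroup.freeGroupCongr (Equiv.sumAssoc X R S).symm (FreeGroup.of (Sum.inr (Sum.inr s)))
      = FreeGroup.of (Sum.inr s) := by simp
  rw [e, fstA_inr_of]

theorem push_comp {X Y Z R S : Type} (Θ : FreeGroup (X ⊕ R) ≃* FreeGroup Y)
    (Ξ : FreeGroup (Y ⊕ S) ≃* FreeGroup Z) (f : MulAut (FreeGroup X)) :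
    push (compΘ Θ Ξ) f = push Ξ (push Θ f) := by
  apply MulEquiv.ext
  intro w
  obtain ⟨v, rfl⟩ := (compΘ Θ Ξ).surjective w
  have : (push (compΘ Θ Ξ) f).toMonoidHom.comp (compΘ Θ Ξ).toMonoidHom
      = (push Ξ (push Θ f)).toMonoidHom.comp (compΘ Θ Ξ).toMonoidHom := by
    apply FreeGroup.ext_hom
    rintro (x | (r | s))
    · change push (compΘ Θ Ξ) f (compΘ Θ Ξ (FreeGroup.of (Sum.inl x)))
        = push Ξ (push Θ f) (compΘ Θ Ξ (FreeGroup.of (Sum.inl x)))
      rw [push_apply', extA_inl_of, compΘ_inl, ← FreeGroup.map.of (f := Sum.inl) (x := x),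
        compΘ_inl, push_apply', extA_inl, push_apply', extA_inl]
    · change push (compΘ Θ Ξ) f (compΘ Θ Ξ (FreeGroup.of (Sum.inr (Sum.inl r))))
        = push Ξ (push Θ f) (compΘ Θ Ξ (FreeGroup.of (Sum.inr (Sum.inl r))))
      rw [push_apply', extA_inr_of, compΘ_inr_inl, push_apply', extA_inl, push_apply', extA_inr_of]
    · change push (compΘ Θ Ξ) f (compΘ Θ Ξ (FreeGroup.of (Sum.inr (Sum.inr s))))
        = push Ξ (push Θ f) (compΘ Θ Ξ (FreeGroup.of (Sum.inr (Sum.inr s))))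
      rw [push_apply', extA_inr_of, compΘ_inr_inr, push_apply', extA_inr_of]
  exact congrArg (fun g => g v) this

theorem pushIA_comp {X Y Z R S : Type} (Θ : FreeGroup (X ⊕ R) ≃* FreeGroup Y)
    (Ξ : FreeGroup (Y ⊕ S) ≃* FreeGroup Z) :
    pushIA (compΘ Θ Ξ) = (pushIA Ξ).comp (pushIA Θ) := by
  apply MonoidHom.ext
  intro f
  apply Subtype.ext
  exact push_comp Θ Ξ f

theorem isLift_comp {A B C : SZ} {φ : A ⟶ B} {ψ : B ⟶ C} {R S : Type}
    {Θ : FreeGroup (A.X ⊕ R) ≃* FreeGroup B.X} {Ξ : FreeGroup (B.X ⊕ S) ≃* FreeGroup C.X}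
    (h : IsLift φ Θ) (h' : IsLift ψ Ξ) : IsLift (φ ≫ ψ) (compΘ Θ Ξ) := by
  constructor
  · intro x
    rw [← FreeGroup.map.of (f := Sum.inl) (x := x), compΘ_inl, h'.inl, h.inl, abv_of]
    rfl
  · rintro (r | s)
    · rw [compΘ_inr_inl, h'.inl]
      change φ.p (ψ.p (ψ.i _)) = 0
      rw [ψ.pi, h.2]
    · rw [compΘ_inr_inr]
      change φ.p (ψ.p _) = 0
      rw [h'.2, map_zero]

theorem hia_id (k : Type) [CommRing k] (d : ℕ) (A : SZ) {R : Type} [Finite R]
    {Θ : FreeGroup (A.X ⊕ R) ≃* FreeGroup A.X} (h : IsLift (𝟙 A) Θ) :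
    hmap (k := k) (pushIA Θ) d = LinearMap.id := by
  have h1 := hmap_lift h (isLift_id A) k d
  have h2 : pushIA (FreeGroup.freeGroupCongr (Equiv.sumEmpty A.X Empty))
      = MonoidHom.id (IA A.X) := by
    apply MonoidHom.ext
    intro f
    apply Subtype.ext
    exact push_id A f
  rw [h2, hmap_id] at h1
  exact h1

theorem hia_comp (k : Type) [CommRing k] (d : ℕ) {A B C : SZ} {φ : A ⟶ B} {ψ : B ⟶ C}
    {R S T : Type} [Finite R] [Finite S] [Finite T] {Θ : FreeGroup (A.X ⊕ R) ≃* FreeGroup B.X}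
    {Ξ : FreeGroup (B.X ⊕ S) ≃* FreeGroup C.X} {Φ : FreeGroup (A.X ⊕ T) ≃* FreeGroup C.X}
    (h : IsLift φ Θ) (h' : IsLift ψ Ξ) (h'' : IsLift (φ ≫ ψ) Φ) :
    hmap (k := k) (pushIA Φ) d = (hmap (pushIA Ξ) d).comp (hmap (pushIA Θ) d) := by
  have h1 := hmap_lift h'' (isLift_comp h h') k d
  rw [pushIA_comp, hmap_comp] at h1
  exact h1

end Pool.Agent.IAH
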