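import Pool.Agent.IAH.Hia

/-!
# The functor `H_d(IA; k)` on `S(ℤ)`
-/

namespace Pool.Agent.IAH

open Finsupp CategoryTheory

/-- A chosen lift. -/
noncomputable def liftT {A B : SZ} (φ : A ⟶ B) : Type := (exists_lift φ).choose

noncomputable instance {A B : SZ} (φ : A ⟶ B) : Finite (liftT φ) :=
  (exists_lift φ).choose_spec.choose

/-- A chosen lift. -/
noncomputable def liftΘ {A B : SZ} (φ : A ⟶ B) :
    FreeGroup (A.X ⊕ liftT φ) ≃* FreeGroup B.X :=
  (exists_lift φ).choose_spec.choose_spec.choose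

theorem liftΘ_spec {A B : SZ} (φ : A ⟶ B) : IsLift φ (liftΘ φ) :=
  (exists_lift φ).choose_spec.choose_spec.choose_spec

/-- The homomorphism of `IA`-groups given by the chosen lift of a morphism of `S(ℤ)`. -/
noncomputable def iaMap {A B : SZ} (φ : A ⟶ B) : IA A.X →* IA B.X := pushIA (liftΘ φ)

/-- The homomorphism of the homology of `IA`-groups given by a morphism of `S(ℤ)`. -/
noncomputable def hiaMap (k : Type) [CommRing k] (d : ℕ) {A B : SZ} (φ : A ⟶ B) :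
    Hm k (IA A.X) d ⟶ Hm k (IA B.X) d :=
  hmapC (k := k) (iaMap φ) d

theorem hiaMap_id (k : Type) [CommRing k] (d : ℕ) (A : SZ) :
    hiaMap k d (𝟙 A) = 𝟙 (Hm k (IA A.X) d) :=
  (congrArg ModuleCat.ofHom (hia_id k d A (liftΘ_spec (𝟙 A)))).trans ModuleCat.ofHom_id

theorem hiaMap_comp (k : Type) [CommRing k] (d : ℕ) {A B C : SZ} (φ : A ⟶ B) (ψ : B ⟶ C) :
    hiaMap k d (φ ≫ ψ) = hiaMap k d φ ≫ hiaMap k d ψ :=
  (congrArg ModuleCat.ofHom (hia_comp k d (liftΘ_spec φ) (liftΘ_spec ψ)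
    (liftΘ_spec (φ ≫ ψ)))).trans (ModuleCat.ofHom_comp _ _)

/-- The functor `H_d(IA; k)` on `S(ℤ)`. -/
noncomputable def HIA (k : Type) [CommRing k] (d : ℕ) : SZ ⥤ ModuleCat k where
  obj A := Hm k (IA A.X) d
  map φ := hiaMap k d φ
  map_id A := hiaMap_id k d A
  map_comp φ ψ := hiaMap_comp k d φ ψ

theorem HIA_map {k : Type} [CommRing k] {d : ℕ} {A B : SZ} {φ : A ⟶ B} {R : Type} [Finite R]
    {Θ : FreeGroup (A.X ⊕ R) ≃* FreeGroup B.X} (h : IsLift φ Θ) :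
    ((HIA k d).map φ).hom = hmap (pushIA Θ) d :=
  hmap_lift (liftΘ_spec φ) h k d

end Pool.Agent.IAH
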