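import Pool.Agent.IAH.StepP
import Pool.Agent.IAH.Cross

/-!
# The unipotent automorphisms of `ℤ^(Y ⊕ Z)`
-/

namespace Pool.Agent.IAH

open Finsupp CategoryTheory

variable {k : Type} [CommRing k] {d : ℕ}

/-- The automorphism `(u, w) ↦ (u, w - β u)` of `ℤ^(Y ⊕ Z)`. -/
noncomputable def hmor {Y Z : SZ} (β : (Y.X →₀ ℤ) →+ (Z.X →₀ ℤ)) : Y.add Z ⟶ Y.add Z where
  i := AddMonoidHom.mk' (fun v => (spl Y Z).symm ((spl Y Z v).1, (spl Y Z v).2 - β (spl Y Z v).1))
    (fun v w => by
      rw [← map_add]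
      congr 1
      simp only [map_add, Prod.fst_add, Prod.snd_add, Prod.mk_add_mk, Prod.mk.injEq, true_and]
      abel)
  p := AddMonoidHom.mk' (fun v => (spl Y Z).symm ((spl Y Z v).1, (spl Y Z v).2 + β (spl Y Z v).1))
    (fun v w => by
      rw [← map_add]
      congr 1
      simp only [map_add, Prod.fst_add, Prod.snd_add, Prod.mk_add_mk, Prod.mk.injEq, true_and]
      abel)
  pi v := by
    change (spl Y Z).symm ((spl Y Z ((spl Y Z).symm _)).1, (spl Y Z ((spl Y Z).symm _)).2
      + β (spl Y Z ((spl Y Z).symm _)).1) = v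
    rw [AddEquiv.apply_symm_apply, sub_add_cancel]
    exact (spl Y Z).symm_apply_apply v

theorem hmor_i {Y Z : SZ} (β : (Y.X →₀ ℤ) →+ (Z.X →₀ ℤ)) (v : (Y.add Z).X →₀ ℤ) :
    (hmor β).i v = (spl Y Z).symm ((spl Y Z v).1, (spl Y Z v).2 - β (spl Y Z v).1) := rfl

theorem hmor_p {Y Z : SZ} (β : (Y.X →₀ ℤ) →+ (Z.X →₀ ℤ)) (v : (Y.add Z).X →₀ ℤ) :
    (hmor β).p v = (spl Y Z).symm ((spl Y Z v).1, (spl Y Z v).2 + β (spl Y Z v).1) := rfl

theorem hmor_add {Y Z : SZ} (β γ : (Y.X →₀ ℤ) →+ (Z.X →₀ ℤ)) :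
    hmor (β + γ) = hmor γ ≫ hmor β := by
  refine SZ.hom_ext (AddMonoidHom.ext fun v => ?_) (AddMonoidHom.ext fun v => ?_)
  · rw [comp_i, hmor_i, hmor_i, hmor_i, AddEquiv.apply_symm_apply]
    congr 2
    exact sub_add_eq_sub_sub_swap _ _ _
  · rw [comp_p, hmor_p, hmor_p, hmor_p, AddEquiv.apply_symm_apply]
    congr 2
    exact (add_assoc _ _ _).symm

theorem hmor_zero {Y Z : SZ} : hmor (0 : (Y.X →₀ ℤ) →+ (Z.X →₀ ℤ)) = 𝟙 (Y.add Z) := by
  refine SZ.hom_ext (AddMonoidHom.ext fun v => ?_) (AddMonoidHom.ext fun v => ?_)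
  · rw [hmor_i, AddMonoidHom.zero_apply, sub_zero]
    exact (spl Y Z).symm_apply_apply v
  · rw [hmor_p, AddMonoidHom.zero_apply, add_zero]
    exact (spl Y Z).symm_apply_apply v

/-- The homomorphism given by a matrix. -/
noncomputable def matH {Y Z : Type} [Finite Z] (b : Y → Z → ℤ) : (Y →₀ ℤ) →+ (Z →₀ ℤ) :=
  liftAddHom (fun y => (zmultiplesHom (Z →₀ ℤ)) (Finsupp.equivFunOnFinite.symm (b y)))

theorem matH_single {Y Z : Type} [Finite Z] (b : Y → Z → ℤ) (y : Y) (z : Z) :
    matH b (single y 1) z = b y z := by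
  rw [matH, liftAddHom_apply_single, zmultiplesHom_apply, one_smul]
  rfl

theorem hom_ext_mat {Y Z : Type} {β γ : (Y →₀ ℤ) →+ (Z →₀ ℤ)}
    (h : ∀ y z, β (single y 1) z = γ (single y 1) z) : β = γ :=
  add_ext fun y => Finsupp.ext fun z => h y z

theorem matH_add {Y Z : Type} [Finite Z] (b c : Y → Z → ℤ) :
    matH (b + c) = matH b + matH c := by
  refine hom_ext_mat fun y z => ?_
  rw [matH_single, AddMonoidHom.add_apply, Finsupp.add_apply, matH_single, matH_single]
  rfl

theorem matH_zero {Y Z : Type} [Finite Z] : matH (0 : Y → Z → ℤ) = 0 := by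
  refine hom_ext_mat fun y z => ?_
  rw [matH_single]
  rfl

theorem matH_surj {Y Z : Type} [Finite Z] (β : (Y →₀ ℤ) →+ (Z →₀ ℤ)) :
    matH (fun y z => β (single y 1) z) = β :=
  hom_ext_mat fun y z => matH_single _ y z

/-- The action of the matrices. -/
noncomputable def UA (k : Type) [CommRing k] (d : ℕ) (Y Z : SZ) (b : Y.X → Z.X → ℤ) :
    (HIA k d).obj (Y.add Z) →ₗ[k] (HIA k d).obj (Y.add Z) :=
  ((HIA k d).map (hmor (matH b))).hom

theorem UA_zero (Y Z : SZ) : UA k d Y Z 0 = LinearMap.id := by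
  rw [UA, matH_zero, hmor_zero, CategoryTheory.Functor.map_id]
  rfl

theorem UA_add (Y Z : SZ) (a b : Y.X → Z.X → ℤ) :
    UA k d Y Z (a + b) = (UA k d Y Z a).comp (UA k d Y Z b) := by
  rw [UA, matH_add, hmor_add, CategoryTheory.Functor.map_comp]
  rfl

/-- The automorphism `y ↦ y z⁻¹`. -/
noncomputable def hg {Y Z : SZ} (y : Y.X) (z : Z.X) : MulAut (FreeGroup (Y.add Z).X) :=
  mv (Sum.inl y) 1 (FreeGroup.of (Sum.inr z))⁻¹

theorem UA_EM {Y Z : SZ} (y : Y.X) (z : Z.X) :
    UA k d Y Z (EM y z 1) = HA k d (hg y z) := by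
  classical
  have h : mor (hg y z) = hmor (matH (EM y z 1)) := by
    refine mor_eq ?_ ?_
    · intro l
      have hz : (FreeGroup.of (Sum.inr z : (Y.add Z).X))⁻¹ ∈ K ({Sum.inl y}ᶜ : Set (Y.add Z).X) :=
        inv_mem (of_compl (by simp))
      rcases l with y' | z'
      · by_cases hy : y' = y
        · subst hy
          rw [hg, mv_self (one_mem _) hz, one_mul, abv_mul, abv_inv, abv_of, abv_of, hmor_i]
          rw [← mapDomain_single (f := Sum.inl) (a := y'), spl_inl, spl_symm, zero_sub]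
          have e : matH (EM y' z 1) (single y' 1) = single z 1 := by
            refine Finsupp.ext fun z' => ?_
            rw [matH_single]
            by_cases h : z' = z
            · subst h; rw [EM_apply_self, single_apply, if_pos rfl]
            · rw [EM_apply_ne_col _ _ h, single_apply, if_neg (Ne.symm h)]
          rw [e]
          congr 1
          have e2 : (mapDomain Sum.inr (-(single z (1 : ℤ))) : Y.X ⊕ Z.X →₀ ℤ)
              = - mapDomain Sum.inr (single z 1) :=
            map_neg (mapDomain.addMonoidHom (M := ℤ) (Sum.inr : Z.X → Y.X ⊕ Z.X)) _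
          rw [e2, mapDomain_single]
        · have hne : (Sum.inl y' : (Y.add Z).X) ≠ Sum.inl y := fun h => hy (Sum.inl_injective h)
          rw [hg, mv_of hne, abv_of, hmor_i,
            ← mapDomain_single (f := Sum.inl) (a := y'), spl_inl, spl_symm, zero_sub]
          have e : matH (EM y z 1) (single y' 1) = 0 := by
            refine Finsupp.ext fun z' => ?_
            rw [matH_single, EM_apply_ne_row hy]; rfl
          rw [e, neg_zero, mapDomain_zero, add_zero]
      · rw [hg, mv_of (by simp), abv_of, hmor_i,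
          ← mapDomain_single (f := Sum.inr) (a := z'), spl_inr, spl_symm, map_zero, sub_zero,
          mapDomain_zero, zero_add]
    · intro v
      rw [hmor_p, hmor_i, AddEquiv.apply_symm_apply, add_sub_cancel_right]
      exact (spl Y Z).symm_apply_apply v
  rw [UA, HA, h]

end Pool.Agent.IAH
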