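import Pool.Agent.IAH.Bar

namespace Pool.Agent.IAH

open CategoryTheory Finsupp

variable {k G : Type} [CommRing k] [Group G]

theorem sum_contract : ∀ (n : ℕ) (t : Fin (n + 1) → G),
    (∑ j : Fin (n + 1), (-1 : k) ^ ((j : ℕ) + 1) •
      single (Fin.contractNth j (· * ·) t) (1 : k)) = Dt n t
  | 0, t => by
    have h : ∀ s : Fin 0 → G, s = fun i => i.elim0 := fun s => funext fun i => i.elim0
    rw [Fin.sum_univ_succ]
    simp only [Finset.univ_eq_empty, Finset.sum_empty, Fin.val_zero, zero_add, pow_one, Dt, e0,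
      neg_smul, one_smul, add_zero]
    rw [h (Fin.contractNth 0 (fun x1 x2 => x1 * x2) t)]
  | n + 1, t => by
    rw [Fin.sum_univ_succ, Dt, ← sum_contract n (Fin.tail t), map_sum]
    have h1 : Fin.contractNth (0 : Fin (n + 2)) (· * ·) t
        = fun i : Fin (n + 1) => if (i : ℕ) = 0 then t 0 * Fin.tail t i else Fin.tail t i := by
      funext i
      refine Fin.cases ?_ (fun j => ?_) i
      · simp [Fin.contractNth, Fin.tail]
      · simp [Fin.contractNth, Fin.tail]
    have h2 : ∀ j : Fin (n + 1), Fin.contractNth j.succ (· * ·) t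
        = Fin.cons (t 0) (Fin.contractNth j (· * ·) (Fin.tail t)) := by
      intro j
      funext i
      refine Fin.cases ?_ (fun l => ?_) i
      · simp [Fin.contractNth]
      · simp [Fin.contractNth, Fin.tail]
    rw [h1]
    simp only [h2, map_smul, pre_single, ml, lmapDomain_apply, mapDomain_single, Fin.val_zero,
      zero_add, pow_one, neg_smul, one_smul, Fin.val_succ]
    rw [sub_eq_add_neg, ← Finset.sum_neg_distrib]
    congr 1
    refine Finset.sum_congr rfl fun j _ => ?_
    rw [pow_succ (-1 : k) ((j : ℕ) + 1), mul_neg_one, neg_smul]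

theorem sum_contract' (n : ℕ) (t : Fin (n + 1) → G) (c : k) :
    (∑ j : Fin (n + 1), (-1 : k) ^ ((j : ℕ) + 1) •
      single (Fin.contractNth j (· * ·) t) c) = D (single t c) := by
  rw [D_single, ← sum_contract, Finset.smul_sum]
  refine Finset.sum_congr rfl fun j _ => ?_
  rw [smul_comm c]
  congr 1
  rw [smul_single, smul_eq_mul, mul_one]

theorem d_eq_bd (n : ℕ) (x : Ch k G (n + 1)) :
    (groupHomology.inhomogeneousChains.d (Rep.trivial k G k) n).hom x = bd x := by
  induction x using Finsupp.induction_linear with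
  | zero => simp
  | add x y hx hy => rw [map_add, map_add, hx, hy]
  | single t c =>
    have := groupHomology.inhomogeneousChains.d_single (A := Rep.trivial k G k) n t c
    refine this.trans ?_
    rw [bd, LinearMap.add_apply, ← sum_contract']
    congr 1
    simp [tl, mapDomain_single]
    rfl

theorem d_eq_bd' (n : ℕ) (x : Ch k G (n + 1)) :
    ((groupHomology.inhomogeneousChains (Rep.trivial k G k)).d (n + 1) n).hom x = bd x := by
  rw [groupHomology.inhomogeneousChains.d_def]
  exact d_eq_bd n x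

/-- Being a cycle. -/
def IsCyc : {n : ℕ} → Ch k G n → Prop
  | 0, _ => True
  | _ + 1, x => bd x = 0

theorem isCyc_iff : ∀ {n : ℕ} (x : Ch k G n), IsCyc x ↔
    (groupHomology.inhomogeneousChains (Rep.trivial k G k)).d n
      ((ComplexShape.down ℕ).next n) x = 0
  | 0, x => by
    constructor
    · intro _
      have : (groupHomology.inhomogeneousChains (Rep.trivial k G k)).d 0
          ((ComplexShape.down ℕ).next 0) = 0 := by
        apply HomologicalComplex.shape
        simp
      rw [this]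
      rfl
    · intro _; trivial
  | n + 1, x => by
    have e : (ComplexShape.down ℕ).next (n + 1) = n := by simp
    rw [e]
    change bd x = 0 ↔ _
    rw [← d_eq_bd']

/-- The cycle given by a chain. -/
noncomputable def mkCyc {n : ℕ} (x : Ch k G n) (h : IsCyc x) :
    groupHomology.cycles (Rep.trivial k G k) n :=
  mkCy x ((isCyc_iff x).1 h)

theorem i_mkCyc {n : ℕ} (x : Ch k G n) (h : IsCyc x) :
    (groupHomology.iCycles (Rep.trivial k G k) n).hom (mkCyc x h) = x :=
  groupHomology.iCycles_mk (A := Rep.trivial k G k) rfl x ((isCyc_iff x).1 h)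

theorem i_inj {n : ℕ} {a b : groupHomology.cycles (Rep.trivial k G k) n}
    (h : (groupHomology.iCycles (Rep.trivial k G k) n).hom a
      = (groupHomology.iCycles (Rep.trivial k G k) n).hom b) : a = b :=
  (ModuleCat.mono_iff_injective (groupHomology.iCycles (Rep.trivial k G k) n)).1 inferInstance h

theorem cls_of {n : ℕ} {x : Ch k G n} (h : IsCyc x) :
    cls x = (groupHomology.π (Rep.trivial k G k) n).hom (mkCyc x h) := by
  have h' : IsCy x := (isCyc_iff x).1 h
  rw [cls, dif_pos h']
  rfl

theorem IsCyc.zero : ∀ {n : ℕ}, IsCyc (0 : Ch k G n)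
  | 0 => trivial
  | _ + 1 => map_zero _

theorem IsCyc.add : ∀ {n : ℕ} {x y : Ch k G n}, IsCyc x → IsCyc y → IsCyc (x + y)
  | 0, _, _, _, _ => trivial
  | n + 1, x, y, hx, hy => by
    change bd (x + y) = 0
    rw [map_add, (show bd x = 0 from hx), (show bd y = 0 from hy), add_zero]

theorem IsCyc.smul : ∀ {n : ℕ} {x : Ch k G n} (c : k), IsCyc x → IsCyc (c • x)
  | 0, _, _, _ => trivial
  | n + 1, x, c, hx => by
    change bd (c • x) = 0
    rw [map_smul, (show bd x = 0 from hx), smul_zero]

theorem bd_bd (n : ℕ) (x : Ch k G (n + 2)) : bd (bd x) = 0 := by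
  rw [← d_eq_bd', ← d_eq_bd']
  have := (groupHomology.inhomogeneousChains (Rep.trivial k G k)).d_comp_d (n + 2) (n + 1) n
  exact congrArg (fun f => f.hom x) this

theorem IsCyc.bd : ∀ {n : ℕ} (x : Ch k G (n + 1)), IsCyc (bd x)
  | 0, _ => trivial
  | n + 1, x => bd_bd n x

theorem cls_add {n : ℕ} {x y : Ch k G n} (hx : IsCyc x) (hy : IsCyc y) :
    cls (x + y) = cls x + cls y := by
  rw [cls_of hx, cls_of hy, cls_of (hx.add hy), ← map_add]
  congr 1
  apply i_inj
  rw [map_add, i_mkCyc, i_mkCyc, i_mkCyc]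

theorem cls_smul {n : ℕ} {x : Ch k G n} (c : k) (hx : IsCyc x) :
    cls (c • x) = c • cls x := by
  rw [cls_of hx, cls_of (hx.smul c), ← map_smul]
  congr 1
  apply i_inj
  rw [map_smul, i_mkCyc, i_mkCyc]

theorem cls_bd {n : ℕ} (x : Ch k G (n + 1)) : cls (bd x) = 0 := by
  rw [cls_of (IsCyc.bd x)]
  have h : mkCyc (bd x) (IsCyc.bd x)
      = (groupHomology.toCycles (Rep.trivial k G k) (n + 1) n).hom x := by
    apply i_inj
    rw [i_mkCyc, ← d_eq_bd']
    have := (groupHomology.inhomogeneousChains (Rep.trivial k G k)).toCycles_i (n + 1) n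
    exact (congrArg (fun f => f.hom x) this).symm
  rw [h]
  have := (groupHomology.inhomogeneousChains (Rep.trivial k G k)).toCycles_comp_homologyπ (n + 1) n
  exact congrArg (fun f => f.hom x) this

theorem IsCyc.i {n : ℕ} (z : groupHomology.cycles (Rep.trivial k G k) n) :
    IsCyc (k := k) (G := G) ((groupHomology.iCycles (Rep.trivial k G k) n).hom z) := by
  rw [isCyc_iff]
  have := (groupHomology.inhomogeneousChains (Rep.trivial k G k)).iCycles_d n
    ((ComplexShape.down ℕ).next n)
  exact congrArg (fun f => f.hom z) this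

theorem cls_surj {n : ℕ} (c : Hm k G n) : ∃ x : Ch k G n, IsCyc x ∧ cls x = c := by
  obtain ⟨z, rfl⟩ : ∃ z, (groupHomology.π (Rep.trivial k G k) n).hom z = c := by
    refine groupHomology_induction_on c fun x => ⟨x, rfl⟩
  refine ⟨(groupHomology.iCycles (Rep.trivial k G k) n).hom z, IsCyc.i z, ?_⟩
  rw [cls_of (IsCyc.i z)]
  congr 1
  apply i_inj
  rw [i_mkCyc]

theorem cls_functional {n : ℕ} (ψ : Ch k G n →ₗ[k] k) (h : ∀ x : Ch k G (n + 1), ψ (bd x) = 0) :
    ∃ Ψ : Hm k G n →ₗ[k] k, ∀ x : Ch k G n, IsCyc x → Ψ (cls x) = ψ x := by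
  let K := groupHomology.inhomogeneousChains (Rep.trivial k G k)
  let ψ' : K.X n ⟶ ModuleCat.of k k := ModuleCat.ofHom ψ
  have hk : K.d (n + 1) n ≫ ψ' = 0 := by
    refine ModuleCat.hom_ext (LinearMap.ext fun x => ?_)
    change ψ ((K.d (n + 1) n).hom x) = 0
    rw [d_eq_bd']
    exact h x
  have hj : (ComplexShape.down ℕ).prev n = n + 1 := by simp
  refine ⟨(K.homologyι n ≫ K.descOpcycles ψ' (n + 1) hj hk).hom, fun x hx => ?_⟩
  rw [cls_of hx]
  have e1 : K.homologyπ n ≫ K.homologyι n ≫ K.descOpcycles ψ' (n + 1) hj hk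
      = K.iCycles n ≫ ψ' := by
    rw [← Category.assoc, K.homology_π_ι, Category.assoc, K.p_descOpcycles]
  have := congrArg (fun f => f.hom (mkCyc x hx)) e1
  refine Eq.trans this ?_
  change ψ ((groupHomology.iCycles (Rep.trivial k G k) n).hom (mkCyc x hx)) = ψ x
  rw [i_mkCyc]

theorem IsCyc.mp {H : Type} [Group H] (f : G →* H) : ∀ {n : ℕ} {x : Ch k G n}, IsCyc x →
    IsCyc (mp f x)
  | 0, _, _ => trivial
  | n + 1, x, hx => by
    change IAH.bd (IAH.mp f x) = 0
    rw [bd_mp, (show IAH.bd x = 0 from hx), map_zero]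

theorem chainsMap_eq {H : Type} [Group H] (f : G →* H) (n : ℕ) (x : Ch k G n) :
    ((groupHomology.chainsMap (A := Rep.trivial k G k) (B := Rep.trivial k H k) f (𝟙 _)).f n).hom x
      = mp f x := by
  induction x using Finsupp.induction_linear with
  | zero => simp
  | add x y hx hy => rw [map_add, map_add, hx, hy]
  | single t c =>
    have := groupHomology.chainsMap_f_single (A := Rep.trivial k G k) (B := Rep.trivial k H k) f
      (𝟙 _) n t c
    refine Eq.trans this ?_
    simp only [mp, lmapDomain_apply, mapDomain_single]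
    rfl

theorem hmap_cls {H : Type} [Group H] (f : G →* H) {n : ℕ} {x : Ch k G n} (hx : IsCyc x) :
    hmap f n (cls x) = cls (mp f x) := by
  rw [cls_of hx, cls_of (hx.mp f)]
  have h1 := groupHomology.π_map (A := Rep.trivial k G k) (B := Rep.trivial k H k) f (𝟙 _) n
  have h2 := congrArg (fun g => g.hom (mkCyc x hx)) h1
  refine Eq.trans h2 ?_
  change (groupHomology.π (Rep.trivial k H k) n).hom _ = _
  congr 1
  apply i_inj
  rw [i_mkCyc]
  have h3 := HomologicalComplex.cyclesMap_i
    (groupHomology.chainsMap (A := Rep.trivial k G k) (B := Rep.trivial k H k) f (𝟙 _)) n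
  have h4 := congrArg (fun g => g.hom (mkCyc x hx)) h3
  refine Eq.trans h4 ?_
  rw [← chainsMap_eq f n x]
  change ((groupHomology.chainsMap (A := Rep.trivial k G k) (B := Rep.trivial k H k) f (𝟙 _)).f
    n).hom ((groupHomology.iCycles (Rep.trivial k G k) n).hom (mkCyc x hx)) = _
  rw [i_mkCyc]

theorem hm_ext {M : Type} [AddCommGroup M] [Module k M] {n : ℕ} {A B : Hm k G n →ₗ[k] M}
    (h : ∀ x : Ch k G n, IsCyc x → A (cls x) = B (cls x)) : A = B := by
  refine LinearMap.ext fun c => ?_
  obtain ⟨x, hx, rfl⟩ := cls_surj c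
  exact h x hx

theorem hmap_id (n : ℕ) : hmap (k := k) (MonoidHom.id G) n = LinearMap.id := by
  refine hm_ext fun x hx => ?_
  rw [hmap_cls _ hx, LinearMap.id_apply]
  congr 1
  exact mp_id x

theorem hmap_comp {H K : Type} [Group H] [Group K] (f : G →* H) (g : H →* K) (n : ℕ) :
    hmap (k := k) (g.comp f) n = (hmap g n).comp (hmap f n) := by
  refine hm_ext fun x hx => ?_
  rw [hmap_cls _ hx, LinearMap.comp_apply, hmap_cls _ hx, hmap_cls _ (hx.mp f), mp_mp]
  rfl

/-- Inner automorphisms act trivially on homology. -/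
theorem hmap_conj (a : G) (n : ℕ) :
    hmap (k := k) (MulAut.conj a).toMonoidHom n = LinearMap.id := by
  refine hm_ext fun x hx => ?_
  rw [hmap_cls _ hx, LinearMap.id_apply]
  have h : mp ((MulAut.conj a).toMonoidHom : G → G) x = cj a⁻¹ x := by
    rw [cj_eq]
    congr 2
    funext g
    rw [cjHom_apply]
    simp [MulAut.conj_apply]
  rw [h]
  cases n with
  | zero => rw [cj_zero]
  | succ n =>
    have h1 := bd_Hop a⁻¹ x
    rw [(show bd x = 0 from hx), map_zero, sub_zero] at h1
    have h2 : cj a⁻¹ x = x + bd (Hop a⁻¹ x) := by rw [h1]; abel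
    rw [h2, cls_add hx (IsCyc.bd _), cls_bd, add_zero]

end Pool.Agent.IAH
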