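import Pool.Agent.IAH.HiaDef

/-!
# Detection of the tori: the Johnson coefficients
-/

namespace Pool.Agent.IAH

open Finsupp CategoryTheory

/-- The integral Heisenberg group. -/
@[ext]
structure Hei where
  /-- first coordinate -/
  a : ℤ
  /-- second coordinate -/
  b : ℤ
  /-- central coordinate -/
  c : ℤ

namespace Hei

instance : Mul Hei := ⟨fun x y => ⟨x.a + y.a, x.b + y.b, x.c + y.c + x.a * y.b⟩⟩
instance : One Hei := ⟨⟨0, 0, 0⟩⟩
instance : Inv Hei := ⟨fun x => ⟨-x.a, -x.b, -x.c + x.a * x.b⟩⟩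

theorem mul_a (x y : Hei) : (x * y).a = x.a + y.a := rfl
theorem mul_b (x y : Hei) : (x * y).b = x.b + y.b := rfl
theorem mul_c (x y : Hei) : (x * y).c = x.c + y.c + x.a * y.b := rfl
theorem one_a : (1 : Hei).a = 0 := rfl
theorem one_b : (1 : Hei).b = 0 := rfl
theorem one_c : (1 : Hei).c = 0 := rfl
theorem inv_a (x : Hei) : (x⁻¹).a = -x.a := rfl
theorem inv_b (x : Hei) : (x⁻¹).b = -x.b := rfl
theorem inv_c (x : Hei) : (x⁻¹).c = -x.c + x.a * x.b := rfl

instance : Group Hei := Group.ofLeftAxioms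
  (fun x y z => by ext <;> simp only [mul_a, mul_b, mul_c] <;> ring)
  (fun x => by ext <;> simp only [mul_a, mul_b, mul_c, one_a, one_b, one_c] <;> ring)
  (fun x => by
    ext <;> simp only [mul_a, mul_b, mul_c, one_a, one_b, one_c, inv_a, inv_b, inv_c] <;> ring)

end Hei

section heis

variable {X : Type}

open Classical in
/-- The homomorphism to the Heisenberg group given by two letters. -/
noncomputable def eta (a b : X) : FreeGroup X →* Hei :=
  FreeGroup.lift (fun y => ⟨if y = a then 1 else 0, if y = b then 1 else 0, 0⟩)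

theorem eta_a (a b : X) (w : FreeGroup X) : (eta a b w).a = abv w a := by
  classical
  refine abv_ind (fun w => (eta a b w).a) (fun w => abv w a) ?_ ?_ ?_ w
  · intro v w; rw [map_mul, Hei.mul_a]
  · intro v w; rw [abv_mul]; rfl
  · intro x; rw [eta, FreeGroup.lift_apply_of, abv_of, single_apply]

theorem eta_b (a b : X) (w : FreeGroup X) : (eta a b w).b = abv w b := by
  classical
  refine abv_ind (fun w => (eta a b w).b) (fun w => abv w b) ?_ ?_ ?_ w
  · intro v w; rw [map_mul, Hei.mul_b]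
  · intro v w; rw [abv_mul]; rfl
  · intro x; rw [eta, FreeGroup.lift_apply_of, abv_of, single_apply]

theorem eta_of_c (a b x : X) : (eta a b (FreeGroup.of x)).c = 0 := by
  rw [eta, FreeGroup.lift_apply_of]

/-- An additive function vanishes on the words with zero exponent sums. -/
theorem add_vanish {M : Type} [AddCommGroup M] (f : FreeGroup X → M)
    (hf : ∀ v w, f (v * w) = f v + f w) {w : FreeGroup X} (hw : abv w = 0) : f w = 0 := by
  let L : (X →₀ ℤ) →+ M := liftAddHom (fun x => (zmultiplesHom M) (f (FreeGroup.of x)))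
  have h := abv_ind f (fun w => L (abv w)) hf (fun v w => by rw [abv_mul, map_add])
    (fun x => by rw [abv_of, liftAddHom_apply_single, zmultiplesHom_apply, one_smul]) w
  rw [h]
  change L (abv w) = 0
  rw [hw, map_zero]

theorem eta_IA {f : MulAut (FreeGroup X)} (hf : f ∈ IA X) (a b : X) {w : FreeGroup X}
    (hw : abv w = 0) : (eta a b (f w)).c = (eta a b w).c := by
  have h := add_vanish (fun w => (eta a b (f w)).c - (eta a b w).c) ?_ hw
  · exact sub_eq_zero.1 h
  · intro v w
    simp only [map_mul, Hei.mul_c, eta_a, eta_b, hf v, hf w]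
    ring

/-- The Johnson coefficient of `f` at `x`, `a`, `b`. -/
noncomputable def joh (x a b : X) (f : MulAut (FreeGroup X)) : ℤ :=
  (eta a b (f (FreeGroup.of x))).c

theorem joh_mul {x a b : X} (ha : x ≠ a) (hb : x ≠ b) {f g : MulAut (FreeGroup X)}
    (hf : f ∈ IA X) (hg : g ∈ IA X) : joh x a b (f * g) = joh x a b f + joh x a b g := by
  obtain ⟨w, h1, hw⟩ : ∃ w, g (FreeGroup.of x) = FreeGroup.of x * w ∧ abv w = 0 :=
    ⟨(FreeGroup.of x)⁻¹ * g (FreeGroup.of x), by group, by
      rw [abv_mul, abv_inv, hg, neg_add_cancel]⟩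
  have hxa : abv (FreeGroup.of x) a = 0 := by
    classical
    rw [abv_of, single_apply, if_neg ha]
  rw [joh, joh, joh, MulAut.mul_apply, h1, map_mul, map_mul, map_mul, Hei.mul_c, Hei.mul_c,
    eta_IA hf a b hw, eta_a, eta_a, eta_of_c, hf, hxa]
  ring

theorem joh_fix {x a b : X} {f : MulAut (FreeGroup X)}
    (h : f (FreeGroup.of x) = FreeGroup.of x) : joh x a b f = 0 := by
  rw [joh, h, eta_of_c]

theorem eta_K {a b c : X} (hc : c = a ∨ c = b) {w : FreeGroup X} (hw : w ∈ K ({c}ᶜ : Set X)) :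
    (eta a b w).c = 0 := by
  classical
  rcases hc with rfl | rfl
  · have : K ({c}ᶜ : Set X) ≤ Subgroup.comap (eta c b)
        { carrier := {h : Hei | h.a = 0 ∧ h.c = 0}
          mul_mem' := by
            rintro x y ⟨h1, h2⟩ ⟨h3, h4⟩
            refine ⟨?_, ?_⟩
            · rw [Hei.mul_a, h1, h3, add_zero]
            · rw [Hei.mul_c, h1, h2, h4]; ring
          one_mem' := ⟨rfl, rfl⟩
          inv_mem' := by
            rintro x ⟨h1, h2⟩
            refine ⟨?_, ?_⟩
            · rw [Hei.inv_a, h1, neg_zero]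
            · rw [Hei.inv_c, h1, h2]; ring } := by
      rw [K, Subgroup.closure_le]
      rintro _ ⟨y, hy, rfl⟩
      refine ⟨?_, eta_of_c _ _ _⟩
      rw [eta_a, abv_of, single_apply, if_neg (by simpa using hy)]
    exact (this hw).2
  · have : K ({c}ᶜ : Set X) ≤ Subgroup.comap (eta a c)
        { carrier := {h : Hei | h.b = 0 ∧ h.c = 0}
          mul_mem' := by
            rintro x y ⟨h1, h2⟩ ⟨h3, h4⟩
            refine ⟨?_, ?_⟩
            · rw [Hei.mul_b, h1, h3, add_zero]
            · rw [Hei.mul_c, h3, h2, h4]; ring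
          one_mem' := ⟨rfl, rfl⟩
          inv_mem' := by
            rintro x ⟨h1, h2⟩
            refine ⟨?_, ?_⟩
            · rw [Hei.inv_b, h1, neg_zero]
            · rw [Hei.inv_c, h1, h2]; ring } := by
      rw [K, Subgroup.closure_le]
      rintro _ ⟨y, hy, rfl⟩
      refine ⟨?_, eta_of_c _ _ _⟩
      rw [eta_b, abv_of, single_apply, if_neg (by simpa using hy)]
    exact (this hw).2

theorem joh_K {x a b c : X} (hc : c = a ∨ c = b) {f : MulAut (FreeGroup X)}
    (h : f (FreeGroup.of x) ∈ K ({c}ᶜ : Set X)) : joh x a b f = 0 := eta_K hc h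

theorem joh_mv {x a b : X} (ha : x ≠ a) (hb : x ≠ b) (hab : a ≠ b) :
    joh x a b (mv x 1 (cm (FreeGroup.of a) (FreeGroup.of b))) = 1 := by
  classical
  have ha' : FreeGroup.of a ∈ K ({x}ᶜ : Set X) := of_mem_K (Ne.symm ha)
  have hb' : FreeGroup.of b ∈ K ({x}ᶜ : Set X) := of_mem_K (Ne.symm hb)
  have hm : cm (FreeGroup.of a) (FreeGroup.of b) ∈ K ({x}ᶜ : Set X) := cm_mem ha' hb'
  have h1 : eta a b (FreeGroup.of a) = ⟨1, 0, 0⟩ := by
    rw [eta, FreeGroup.lift_apply_of, if_pos rfl, if_neg hab]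
  have h2 : eta a b (FreeGroup.of b) = ⟨0, 1, 0⟩ := by
    rw [eta, FreeGroup.lift_apply_of, if_pos rfl, if_neg (Ne.symm hab)]
  have h3 : eta a b (FreeGroup.of x) = 1 := by
    rw [eta, FreeGroup.lift_apply_of, if_neg ha, if_neg hb]; rfl
  rw [joh, mv_self (one_mem _) hm, one_mul, map_mul, h3, one_mul, cm, map_mul,
    map_mul, map_mul, map_inv, map_inv, h1, h2]
  simp only [Hei.mul_c, Hei.mul_a, Hei.mul_b, Hei.inv_a, Hei.inv_b, Hei.inv_c]
  norm_num

end heis

end Pool.Agent.IAH
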