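import Pool.Agent.IAH.Gen

/-!
# Calculations in one slot of a torus
-/

namespace Pool.Agent.IAH

open Finsupp CategoryTheory

variable {k : Type} [CommRing k] {d : ℕ}

/-- The morphism of `S(ℤ)` given by an automorphism of the free group. -/
noncomputable def mor {A : SZ} (g : MulAut (FreeGroup A.X)) : A ⟶ A where
  i := (linE g).toAddMonoidHom
  p := (linE g).symm.toAddMonoidHom
  pi v := (linE g).symm_apply_apply v

theorem mor_i {A : SZ} (g : MulAut (FreeGroup A.X)) (v : FreeGroup A.X) :
    (mor g).i (abv v) = abv (g v) := linE_abv _ _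

theorem mor_eq {A : SZ} {g : MulAut (FreeGroup A.X)} {φ : A ⟶ A}
    (h : ∀ x, abv (g (FreeGroup.of x)) = φ.i (single x 1)) (h' : ∀ v, φ.i (φ.p v) = v) :
    mor g = φ := by
  have hi : (mor g).i = φ.i := add_ext fun x => by rw [← h, ← abv_of, mor_i]
  refine SZ.hom_ext hi (AddMonoidHom.ext fun v => ?_)
  have h1 : (mor g).i ((mor g).p v) = v := (linE g).apply_symm_apply v
  have h2 : (mor g).i (φ.p v) = v := by rw [hi, h']
  exact (linE g).injective (h1.trans h2.symm)

theorem mor_isLift {A : SZ} (g : MulAut (FreeGroup A.X)) :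
    IsLift (mor g) ((FreeGroup.freeGroupCongr (Equiv.sumEmpty A.X Empty)).trans g) := by
  constructor
  · intro x
    rw [← abv_of, mor_i]
    rfl
  · intro r; exact r.elim

theorem push_mor {A : SZ} (g f : MulAut (FreeGroup A.X)) :
    push ((FreeGroup.freeGroupCongr (Equiv.sumEmpty A.X Empty)).trans g) f = g * f * g⁻¹ := by
  have h := push_id A f
  rw [eq_mul_inv_iff_mul_eq]
  apply MulEquiv.ext
  intro w
  have h1 : push ((FreeGroup.freeGroupCongr (Equiv.sumEmpty A.X Empty)).trans g) f (g w)
      = g (push (FreeGroup.freeGroupCongr (Equiv.sumEmpty A.X Empty)) f w) := by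
    rw [push_apply, push_apply]
    change g (FreeGroup.freeGroupCongr (Equiv.sumEmpty A.X Empty) (extA Empty f
      ((FreeGroup.freeGroupCongr (Equiv.sumEmpty A.X Empty)).symm (g.symm (g w))))) = _
    rw [MulEquiv.symm_apply_apply]
  rw [MulAut.mul_apply, MulAut.mul_apply, h1, h]

/-- The action of an automorphism of the free group on the homology of `IA`. -/
noncomputable def HA (k : Type) [CommRing k] (d : ℕ) {A : SZ} (g : MulAut (FreeGroup A.X)) :
    (HIA k d).obj A →ₗ[k] (HIA k d).obj A := ((HIA k d).map (mor g)).hom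

theorem mor_mul {A : SZ} (g h : MulAut (FreeGroup A.X)) : mor (g * h) = mor h ≫ mor g := by
  refine mor_eq ?_ ?_
  · intro x
    rw [MulAut.mul_apply, ← abv_of]
    change _ = (mor g).i ((mor h).i _)
    rw [mor_i, mor_i]
  · intro v
    change (mor g).i ((mor h).i ((mor h).p ((mor g).p v))) = v
    have h1 : ∀ v, (mor h).i ((mor h).p v) = v := fun v => (linE h).apply_symm_apply v
    have h2 : ∀ v, (mor g).i ((mor g).p v) = v := fun v => (linE g).apply_symm_apply v
    rw [h1, h2]

theorem HA_mul {A : SZ} (g h : MulAut (FreeGroup A.X)) (c : (HIA k d).obj A) :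
    HA k d (g * h) c = HA k d g (HA k d h c) := by
  rw [HA, mor_mul, CategoryTheory.Functor.map_comp]
  rfl

theorem HA_congr {A : SZ} {g h : MulAut (FreeGroup A.X)}
    (e : ∀ x, abv (g (FreeGroup.of x)) = abv (h (FreeGroup.of x))) :
    HA k d g = HA k d h := by
  have : mor g = mor h := by
    refine mor_eq (fun x => ?_) (fun v => (linE h).apply_symm_apply v)
    rw [e, ← mor_i, abv_of]
  rw [HA, HA, this]

theorem HA_one {A : SZ} (c : (HIA k d).obj A) : HA k d (1 : MulAut (FreeGroup A.X)) c = c := by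
  have : mor (1 : MulAut (FreeGroup A.X)) = 𝟙 A := by
    refine mor_eq (fun x => ?_) (fun v => rfl)
    exact abv_of x
  rw [HA, this, CategoryTheory.Functor.map_id]
  rfl

theorem HA_inv {A : SZ} (g : MulAut (FreeGroup A.X)) (c : (HIA k d).obj A) :
    HA k d g⁻¹ (HA k d g c) = c := by
  rw [← HA_mul, inv_mul_cancel, HA_one]

theorem HA_inv' {A : SZ} (g : MulAut (FreeGroup A.X)) (c : (HIA k d).obj A) :
    HA k d g (HA k d g⁻¹ c) = c := by
  rw [← HA_mul, mul_inv_cancel, HA_one]

/-- A vector fixed by `g` is fixed by the powers of `g`. -/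
theorem HA_zpow {A : SZ} (g : MulAut (FreeGroup A.X)) (c : (HIA k d).obj A)
    (h : HA k d g c = c) (n : ℤ) : HA k d (g ^ n) c = c := by
  have hi : HA k d g⁻¹ c = c := by
    conv_lhs => rw [← h]
    rw [HA_inv]
  induction n using Int.induction_on with
  | zero => rw [zpow_zero, HA_one]
  | succ n ih => rw [zpow_add_one, HA_mul, h, ih]
  | pred n ih => rw [zpow_sub_one, HA_mul, hi, ih]

open Classical in
/-- The class of a torus given by automorphisms (zero if they are not in `IA`). -/
noncomputable def tm (k : Type) [CommRing k] (A : SZ) {d : ℕ}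
    (f : Fin d → MulAut (FreeGroup A.X)) : (HIA k d).obj A :=
  if h : ∀ i, f i ∈ IA A.X then tcl k A (fun i => ⟨f i, h i⟩) else 0

theorem tm_of {A : SZ} {f : Fin d → MulAut (FreeGroup A.X)} (h : ∀ i, f i ∈ IA A.X) :
    tm k A f = tcl k A (fun i => ⟨f i, h i⟩) := dif_pos h

theorem tm_map {A B : SZ} {φ : A ⟶ B} {R : Type} [Finite R]
    {Θ : FreeGroup (A.X ⊕ R) ≃* FreeGroup B.X} (h : IsLift φ Θ)
    (f : Fin d → MulAut (FreeGroup A.X)) (hI : ∀ i, f i ∈ IA A.X)
    (hf : ∀ i j, Commute (f i) (f j)) :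
    ((HIA k d).map φ).hom (tm k A f) = tm k B (fun i => push Θ (f i)) := by
  rw [tm_of hI, tm_of (fun i => push_mem Θ (hI i))]
  have hc : ∀ i j : Fin d, Commute (⟨f i, hI i⟩ : IA A.X) ⟨f j, hI j⟩ :=
    fun i j => Subtype.ext (hf i j)
  rw [tcl_map k h _ hc]
  rfl

theorem HA_tm {A : SZ} (g : MulAut (FreeGroup A.X)) (f : Fin d → MulAut (FreeGroup A.X))
    (hI : ∀ i, f i ∈ IA A.X) (hf : ∀ i j, Commute (f i) (f j)) :
    HA k d g (tm k A f) = tm k A (fun i => g * f i * g⁻¹) := by
  rw [HA, tm_map (mor_isLift g) f hI hf]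
  simp only [push_mor]

/-- A slot: the other elements lie in `IA` and commute. -/
structure Slot {A : SZ} (f : Fin d → MulAut (FreeGroup A.X)) (i : Fin d) : Prop where
  mem : ∀ j, j ≠ i → f j ∈ IA A.X
  comm : ∀ j l, j ≠ i → l ≠ i → Commute (f j) (f l)

/-- The automorphisms that commute with the other elements. -/
def cen {A : SZ} (f : Fin d → MulAut (FreeGroup A.X)) (i : Fin d) :
    Subgroup (MulAut (FreeGroup A.X)) where
  carrier := {g | ∀ j, j ≠ i → Commute (f j) g}
  mul_mem' hg hh j hj := (hg j hj).mul_right (hh j hj)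
  one_mem' j _ := Commute.one_right _
  inv_mem' hg j hj := (hg j hj).inv_right

/-- The value of the class when the element `i` is replaced by `g`. -/
noncomputable def chi (k : Type) [CommRing k] {A : SZ} (f : Fin d → MulAut (FreeGroup A.X))
    (i : Fin d) (g : MulAut (FreeGroup A.X)) : (HIA k d).obj A :=
  tm k A (Function.update f i g)

section slot

variable {A : SZ} {f : Fin d → MulAut (FreeGroup A.X)} {i : Fin d}

theorem Slot.upd_mem (hS : Slot f i) {g : MulAut (FreeGroup A.X)} (hg : g ∈ IA A.X) (j : Fin d) :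
    Function.update f i g j ∈ IA A.X := by
  by_cases h : j = i
  · subst h; rwa [Function.update_self]
  · rw [Function.update_of_ne h]; exact hS.mem j h

theorem Slot.upd_comm (hS : Slot f i) {g : MulAut (FreeGroup A.X)} (hg : g ∈ cen f i)
    (j l : Fin d) : Commute (Function.update f i g j) (Function.update f i g l) := by
  by_cases hj : j = i
  · subst hj
    by_cases hl : l = j
    · subst hl; exact Commute.refl _
    · rw [Function.update_self, Function.update_of_ne hl]; exact (hg l hl).symm
  · by_cases hl : l = i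
    · subst hl; rw [Function.update_self, Function.update_of_ne hj]; exact hg j hj
    · rw [Function.update_of_ne hl, Function.update_of_ne hj]; exact hS.comm j l hj hl

theorem chi_mul (hS : Slot f i) {a b : MulAut (FreeGroup A.X)} (ha : a ∈ IA A.X)
    (hb : b ∈ IA A.X) (ha' : a ∈ cen f i) (hb' : b ∈ cen f i) :
    chi k f i (a * b) = chi k f i a + chi k f i b := by
  classical
  let f' : Fin d → IA A.X := fun j => if h : j = i then 1 else ⟨f j, hS.mem j h⟩
  have hf' : ∀ (c : MulAut (FreeGroup A.X)) (hc : c ∈ IA A.X),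
      chi k f i c = tcl k A (Function.update f' i ⟨c, hc⟩) := by
    intro c hc
    rw [chi, tm_of (hS.upd_mem hc)]
    congr 1
    funext j
    apply Subtype.ext
    by_cases h : j = i
    · subst h
      change Function.update f j c j = _
      rw [Function.update_self, Function.update_self]
    · change Function.update f i c j = _
      rw [Function.update_of_ne h, Function.update_of_ne h]
      simp only [f', dif_neg h]
  rw [hf' _ (mul_mem ha hb), hf' a ha, hf' b hb]
  have h1 : ∀ j (h : j ≠ i), f' j = ⟨f j, hS.mem j h⟩ := fun j h => dif_neg h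
  refine tc_mul f' i ⟨a, ha⟩ ⟨b, hb⟩ ?_ ?_ ?_
  · intro j l hj hl
    rw [h1 j hj, h1 l hl]
    exact Subtype.ext (hS.comm j l hj hl)
  · intro j hj
    rw [h1 j hj]
    exact Subtype.ext (ha' j hj)
  · intro j hj
    rw [h1 j hj]
    exact Subtype.ext (hb' j hj)

theorem chi_one (hS : Slot f i) : chi k f i 1 = 0 := by
  have h := chi_mul (k := k) hS (one_mem _) (one_mem _) (one_mem _) (one_mem _)
  rw [mul_one] at h
  exact left_eq_add.1 h

theorem chi_inv (hS : Slot f i) {a : MulAut (FreeGroup A.X)} (ha : a ∈ IA A.X)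
    (ha' : a ∈ cen f i) : chi k f i a⁻¹ = - chi k f i a := by
  have h := chi_mul (k := k) hS ha (inv_mem ha) ha' (inv_mem ha')
  rw [mul_inv_cancel, chi_one hS] at h
  exact eq_neg_of_add_eq_zero_right h.symm

theorem chi_cm (hS : Slot f i) {a b : MulAut (FreeGroup A.X)} (ha : a ∈ IA A.X)
    (hb : b ∈ IA A.X) (ha' : a ∈ cen f i) (hb' : b ∈ cen f i) :
    chi k f i (cm a b) = 0 := by
  rw [cm, chi_mul hS (mul_mem (mul_mem ha hb) (inv_mem ha)) (inv_mem hb)
    (mul_mem (mul_mem ha' hb') (inv_mem ha')) (inv_mem hb'),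
    chi_mul hS (mul_mem ha hb) (inv_mem ha) (mul_mem ha' hb') (inv_mem ha'),
    chi_mul hS ha hb ha' hb', chi_inv hS ha ha', chi_inv hS hb hb']
  abel

/-- Conjugation in one slot. -/
theorem chi_conj (hS : Slot f i) {g a : MulAut (FreeGroup A.X)} (ha : a ∈ IA A.X)
    (ha' : a ∈ cen f i) (hg : g ∈ cen f i) :
    HA k d g (chi k f i a) = chi k f i (g * a * g⁻¹) := by
  rw [chi, HA_tm g _ (hS.upd_mem ha) (hS.upd_comm ha'), chi]
  congr 1
  funext j
  by_cases h : j = i
  · subst h; rw [Function.update_self, Function.update_self]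
  · rw [Function.update_of_ne h, Function.update_of_ne h, ← (hg j h).eq, mul_inv_cancel_right]

end slot

end Pool.Agent.IAH
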