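import Pool.Agent.IAH.Slot

/-!
# Reduction of a slot to spare letters
-/

namespace Pool.Agent.IAH

open Finsupp CategoryTheory

section ident

variable {X : Type} {x c : X} {N : Set X}

theorem K_compl (hx : x ∉ N) {u : FreeGroup X} (hu : u ∈ K N) : u ∈ K ({x}ᶜ : Set X) := by
  have h : N ⊆ ({x}ᶜ : Set X) := by
    intro y hy hyx
    rw [Set.mem_singleton_iff] at hyx
    subst hyx
    exact hx hy
  exact K_mono h hu

theorem mv_inv_of {x y : X} (h : y ≠ x) (u v : FreeGroup X) :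
    (mv x u v)⁻¹ (FreeGroup.of y) = FreeGroup.of y := by
  have := MulAut.inv_apply_self (FreeGroup X) (mv x u v) (FreeGroup.of y)
  rwa [mv_of h] at this

theorem of_compl {x y : X} (h : y ≠ x) : FreeGroup.of y ∈ K ({x}ᶜ : Set X) := of_mem_K h

/-- `mv x u v` as a product. -/
theorem mv_split {u v : FreeGroup X} (hu : u ∈ K ({x}ᶜ : Set X)) (hv : v ∈ K ({x}ᶜ : Set X)) :
    mv x u v = mv x u u⁻¹ * mv x 1 (u * v) := by
  rw [mv_mul hu (inv_mem hu) (one_mem _) (mul_mem hu hv)]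
  congr 1 <;> group

theorem idR {s : X} (hsx : s ≠ x) {w : FreeGroup X} (hx : w ∈ K ({x}ᶜ : Set X))
    (hs : w ∈ K ({s}ᶜ : Set X)) :
    mv x 1 (FreeGroup.of s)⁻¹ * mv s 1 w * (mv x 1 (FreeGroup.of s)⁻¹)⁻¹
      = mv s 1 w * mv x 1 w := by
  have h1 := inv_mem (of_compl hsx)
  rw [mul_inv_eq_iff_eq_mul]
  apply aut_ext
  intro y
  simp only [MulAut.mul_apply]
  by_cases hy : y = x
  · subst hy
    rw [mv_of (Ne.symm hsx), mv_self (one_mem _) h1, one_mul, map_mul, map_inv, mv_of hsx,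
      mv_self (one_mem _) hx, one_mul, map_mul, map_mul, map_inv, mv_of (Ne.symm hsx),
      mv_self (one_mem _) hs, mv_fix hs]
    group
  · by_cases hy' : y = s
    · subst hy'
      rw [mv_self (one_mem _) hs, map_mul, map_mul, mv_of hy, mv_fix hx, map_one, mv_of hy,
        mv_self (one_mem _) hs, one_mul]
    · rw [mv_of hy', mv_of hy, mv_of hy, mv_of hy']

theorem idK (hxc : c ≠ x) {u : FreeGroup X} (hu : u ∈ K ({x}ᶜ : Set X)) :
    mv x 1 (FreeGroup.of c) * mv x u u⁻¹ * (mv x 1 (FreeGroup.of c))⁻¹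
      = mv x u u⁻¹ * mv x 1 (cm u (FreeGroup.of c)) := by
  have hc := of_compl hxc
  rw [mv_inv (one_mem _) hc, mv_mul (one_mem _) hc hu (inv_mem hu),
    mv_mul (mul_mem hu (one_mem _)) (mul_mem hc (inv_mem hu)) (inv_mem (one_mem _)) (inv_mem hc),
    mv_mul hu (inv_mem hu) (one_mem _) (cm_mem hu hc)]
  rw [cm]
  congr 1 <;> group

theorem idL (hxc : c ≠ x) {u : FreeGroup X} (hx : u ∈ K ({x}ᶜ : Set X))
    (hc : u ∈ K ({c}ᶜ : Set X)) :
    mv c 1 (FreeGroup.of x) * mv x u u⁻¹ * (mv c 1 (FreeGroup.of x))⁻¹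
      = mv c 1 (cm (FreeGroup.of x) u) * mv x u u⁻¹ := by
  have h1 := of_compl (Ne.symm hxc)
  have h2 := cm_mem h1 hc
  rw [mul_inv_eq_iff_eq_mul]
  apply aut_ext
  intro y
  simp only [MulAut.mul_apply]
  by_cases hy : y = x
  · subst hy
    rw [mv_of (Ne.symm hxc), mv_self hx (inv_mem hx), map_mul, map_mul, map_inv, mv_fix hc,
      mv_of (Ne.symm hxc), map_mul, map_mul, map_inv, mv_fix hc, mv_of (Ne.symm hxc)]
  · by_cases hy' : y = c
    · subst hy'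
      rw [mv_of hy, mv_self (one_mem _) h1, one_mul, map_mul, mv_of hy, mv_self hx (inv_mem hx),
        map_mul, map_mul, map_mul, map_inv, mv_self (one_mem _) h2, mv_fix hc, mv_of (Ne.symm hy),
        cm]
      group
    · rw [mv_of hy', mv_of hy, mv_of hy', mv_of hy']

/-- The automorphism `x ↦ c⁻¹`, `c ↦ x`. -/
noncomputable def w0 (x c : X) : MulAut (FreeGroup X) :=
  mv x (FreeGroup.of c)⁻¹ (FreeGroup.of c) * (mv x 1 (FreeGroup.of c))⁻¹
    * mv c 1 (FreeGroup.of x) * (mv x 1 (FreeGroup.of c))⁻¹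

theorem w0_x (hxc : c ≠ x) : w0 x c (FreeGroup.of x) = (FreeGroup.of c)⁻¹ := by
  have h1 := of_compl hxc
  have h2 := of_compl (Ne.symm hxc)
  rw [w0, mv_inv (one_mem _) h1]
  simp only [MulAut.mul_apply]
  rw [mv_self (inv_mem (one_mem _)) (inv_mem h1)]
  simp only [map_mul, map_inv, map_one, mv_of (Ne.symm hxc), mv_self (one_mem _) h2,
    mv_self (inv_mem (one_mem _)) (inv_mem h1), mv_of hxc, mv_self (inv_mem h1) h1]
  group

theorem w0_c (hxc : c ≠ x) : w0 x c (FreeGroup.of c) = FreeGroup.of x := by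
  have h1 := of_compl hxc
  have h2 := of_compl (Ne.symm hxc)
  rw [w0, mv_inv (one_mem _) h1]
  simp only [MulAut.mul_apply]
  simp only [map_mul, map_inv, map_one, mv_of (Ne.symm hxc), mv_self (one_mem _) h2,
    mv_self (inv_mem (one_mem _)) (inv_mem h1), mv_of hxc, mv_self (inv_mem h1) h1]
  group

theorem w0_of {y : X} (hx : y ≠ x) (hc : y ≠ c) : w0 x c (FreeGroup.of y) = FreeGroup.of y := by
  have h3 : (mv x 1 (FreeGroup.of c))⁻¹ (FreeGroup.of y) = FreeGroup.of y := mv_inv_of hx _ _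
  rw [w0]
  simp only [MulAut.mul_apply]
  rw [h3, mv_of hc, h3, mv_of hx]

theorem w0_fix (hx : x ∉ N) (hc : c ∉ N) {u : FreeGroup X} (hu : u ∈ K N) : w0 x c u = u :=
  K_fix' (fun y hy => w0_of (fun h => hx (by rw [← h]; exact hy))
    (fun h => hc (by rw [← h]; exact hy))) hu

theorem idW1 (hxc : c ≠ x) (hx : x ∉ N) (hc : c ∉ N) {u : FreeGroup X} (hu : u ∈ K N) :
    w0 x c * mv x u u⁻¹ * (w0 x c)⁻¹ = mv c u u⁻¹ := by
  have hux := K_compl hx hu
  have huc := K_compl hc hu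
  rw [mul_inv_eq_iff_eq_mul]
  apply aut_ext
  intro y
  simp only [MulAut.mul_apply]
  by_cases hy : y = x
  · subst hy
    rw [mv_self hux (inv_mem hux), map_mul, map_mul, map_inv, w0_fix hx hc hu, w0_x hxc, map_inv,
      mv_self huc (inv_mem huc)]
    group
  · by_cases hy' : y = c
    · subst hy'
      rw [mv_of hy, w0_c hxc, mv_of (Ne.symm hy)]
    · rw [mv_of hy, w0_of hy hy', mv_of hy']

theorem idW2 (hxc : c ≠ x) (hx : x ∉ N) (hc : c ∉ N) {u : FreeGroup X} (hu : u ∈ K N) :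
    w0 x c * mv x 1 (cm u (FreeGroup.of c)) * (w0 x c)⁻¹ = mv c (cm (FreeGroup.of x) u) 1 := by
  have hux := K_compl hx hu
  have huc := K_compl hc hu
  have h1 := of_compl hxc
  have h2 := of_compl (Ne.symm hxc)
  rw [mul_inv_eq_iff_eq_mul]
  apply aut_ext
  intro y
  simp only [MulAut.mul_apply]
  by_cases hy : y = x
  · subst hy
    rw [mv_self (one_mem _) (cm_mem hux h1), one_mul, map_mul, w0_x hxc, map_inv,
      mv_self (cm_mem h2 huc) (one_mem _), cm, cm, map_mul, map_mul, map_mul, map_inv, map_inv,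
      w0_fix hx hc hu, w0_c hxc]
    group
  · by_cases hy' : y = c
    · subst hy'
      rw [mv_of hy, w0_c hxc, mv_of (Ne.symm hy)]
    · rw [mv_of hy, w0_of hy hy', mv_of hy']

theorem mvC_mul {g h : FreeGroup X} (hg : g ∈ K ({c}ᶜ : Set X)) (hh : h ∈ K ({c}ᶜ : Set X)) :
    mv c g g⁻¹ * mv c h h⁻¹ = mv c (h * g) (h * g)⁻¹ := by
  rw [mv_mul hg (inv_mem hg) hh (inv_mem hh), mul_inv_rev]

theorem mvC_inv {g : FreeGroup X} (hg : g ∈ K ({c}ᶜ : Set X)) :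
    (mv c g g⁻¹)⁻¹ = mv c g⁻¹ (g⁻¹)⁻¹ := mv_inv hg (inv_mem hg)

theorem mvC_cm {g h : FreeGroup X} (hg : g ∈ K ({c}ᶜ : Set X)) (hh : h ∈ K ({c}ᶜ : Set X)) :
    mv c (cm g h) (cm g h)⁻¹ = cm (mv c h⁻¹ (h⁻¹)⁻¹) (mv c g⁻¹ (g⁻¹)⁻¹) := by
  have hg' := inv_mem hg
  have hh' := inv_mem hh
  have e : cm (mv c h⁻¹ (h⁻¹)⁻¹) (mv c g⁻¹ (g⁻¹)⁻¹) = mv c h⁻¹ (h⁻¹)⁻¹ * mv c g⁻¹ (g⁻¹)⁻¹
      * (mv c h⁻¹ (h⁻¹)⁻¹)⁻¹ * (mv c g⁻¹ (g⁻¹)⁻¹)⁻¹ := rfl
  have e2 : cm g h = g⁻¹⁻¹ * (h⁻¹⁻¹ * (g⁻¹ * h⁻¹)) := by rw [cm]; group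
  rw [e, mvC_inv hh', mvC_inv hg', mvC_mul hh' hg', mvC_mul (mul_mem hg' hh') (inv_mem hh'),
    mvC_mul (mul_mem (inv_mem hh') (mul_mem hg' hh')) (inv_mem hg'), e2]

/-- `g` moves only the letters of `B`, by words in the letters of `U`. -/
def Blk (B U : Set X) (g : MulAut (FreeGroup X)) : Prop :=
  (∀ y, y ∉ B → g (FreeGroup.of y) = FreeGroup.of y) ∧ ∀ y ∈ B, g (FreeGroup.of y) ∈ K U

theorem blk_mv {B U : Set X} (hB : B ⊆ U) (hx : x ∈ B) {u v : FreeGroup X} (hu : u ∈ K U)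
    (hv : v ∈ K U) : Blk B U (mv x u v) := by
  refine ⟨fun y hy => mv_of (fun h => hy (by rw [h]; exact hx)) u v, fun y hy => ?_⟩
  by_cases h : y = x
  · subst h
    by_cases h' : u ∈ K ({y}ᶜ : Set X) ∧ v ∈ K ({y}ᶜ : Set X)
    · rw [mv_self h'.1 h'.2]
      exact mul_mem (mul_mem hu (of_mem_K (hB hx))) hv
    · rw [mv, dif_neg h']
      exact of_mem_K (hB hx)
  · rw [mv_of h]
    exact of_mem_K (hB hy)

end ident

variable {k : Type} [CommRing k] {d : ℕ} {A : SZ} {f : Fin d → MulAut (FreeGroup A.X)} {i : Fin d}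

/-- The other elements do not interact with the letters of `B`. -/
structure Spec (f : Fin d → MulAut (FreeGroup A.X)) (i : Fin d) (B U : Set A.X) : Prop where
  sub : B ⊆ U
  fix : ∀ j, j ≠ i → ∀ y ∈ U, f j (FreeGroup.of y) = FreeGroup.of y
  out : ∀ j, j ≠ i → ∀ y, y ∉ B → f j (FreeGroup.of y) ∈ K (Bᶜ : Set A.X)

theorem Spec.cen {B U : Set A.X} (h : Spec f i B U) {g : MulAut (FreeGroup A.X)}
    (hg : Blk B U g) : g ∈ cen f i := by
  intro j hj
  change f j * g = g * f j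
  apply aut_ext
  intro y
  rw [MulAut.mul_apply, MulAut.mul_apply]
  by_cases hy : y ∈ B
  · rw [h.fix j hj y (h.sub hy)]
    exact K_fix' (h.fix j hj) (hg.2 y hy)
  · rw [hg.1 y hy]
    exact (K_fix' hg.1 (h.out j hj y hy)).symm

theorem HA_IA {g : MulAut (FreeGroup A.X)} (hg : g ∈ IA A.X) (c : (HIA k d).obj A) :
    HA k d g c = c := by
  rw [HA_congr (h := 1) (fun x => by rw [mem_IA_iff.1 hg, MulAut.one_apply, abv_of]), HA_one]

/-- The reduction of a slot to spare letters. -/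
theorem stepA (hS : Slot f i) {x c s : A.X} {N : Set A.X} (hxc : c ≠ x) (hxs : s ≠ x)
    (hcs : s ≠ c) (hx : x ∉ N) (hc : c ∉ N) (hs : s ∉ N)
    (hsp : Spec f i {x, c, s} (N ∪ {x, c, s})) (P : Submodule k ((HIA k d).obj A))
    (hPk : ∀ m ∈ P, HA k d (mv x 1 (FreeGroup.of c))⁻¹ m ∈ P)
    (hPh : ∀ m ∈ P, HA k d (mv x 1 (FreeGroup.of s)⁻¹) m ∈ P)
    (hR : ∀ w ∈ K (N ∪ {c}), abv w = 0 → chi k f i (mv s 1 w) ∈ P)
    (hC : ∀ u ∈ K N, chi k f i (mv c u u⁻¹) ∈ P)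
    (hQ : ∀ w ∈ K (N ∪ {x}), abv w = 0 → chi k f i (mv c 1 w) ∈ P)
    {u v : FreeGroup A.X} (hu : u ∈ K N) (hv : v ∈ K N) (huv : abv (u * v) = 0) :
    chi k f i (mv x u v) ∈ P := by
  -- membership facts
  have hNU : N ⊆ N ∪ {x, c, s} := Set.subset_union_left
  have hxU : x ∈ N ∪ ({x, c, s} : Set A.X) := Or.inr (by simp)
  have hcU : c ∈ N ∪ ({x, c, s} : Set A.X) := Or.inr (by simp)
  have hsU : s ∈ N ∪ ({x, c, s} : Set A.X) := Or.inr (by simp)
  have hxB : x ∈ ({x, c, s} : Set A.X) := by simp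
  have hcB : c ∈ ({x, c, s} : Set A.X) := by simp
  have hsB : s ∈ ({x, c, s} : Set A.X) := by simp
  have hof : ∀ {y : A.X}, y ∈ N ∪ ({x, c, s} : Set A.X) →
      FreeGroup.of y ∈ K (N ∪ ({x, c, s} : Set A.X)) := fun h => of_mem_K h
  have huU : u ∈ K (N ∪ ({x, c, s} : Set A.X)) := K_mono hNU hu
  have cenmv : ∀ {y : A.X} {a b : FreeGroup A.X}, y ∈ ({x, c, s} : Set A.X) →
      a ∈ K (N ∪ ({x, c, s} : Set A.X)) → b ∈ K (N ∪ ({x, c, s} : Set A.X)) →
      mv y a b ∈ cen f i := fun hy ha hb => hsp.cen (blk_mv hsp.sub hy ha hb)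
  have hux := K_compl hx hu
  have huc := K_compl hc hu
  have hus := K_compl hs hu
  have h1c := of_compl hxc
  have h1x := of_compl (Ne.symm hxc)
  -- the `R` slots
  have hRx : ∀ w ∈ K (N ∪ {c}), abv w = 0 → chi k f i (mv x 1 w) ∈ P := by
    intro w hw h0
    have hwx : w ∈ K ({x}ᶜ : Set A.X) := K_compl (by
      rintro (h | h)
      · exact hx h
      · exact hxc h.symm) hw
    have hws : w ∈ K ({s}ᶜ : Set A.X) := K_compl (by
      rintro (h | h)
      · exact hs h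
      · exact hcs h) hw
    have hwU : w ∈ K (N ∪ ({x, c, s} : Set A.X)) := K_mono (by
      rintro y (h | h)
      · exact Or.inl h
      · rw [Set.mem_singleton_iff] at h; subst h; exact hcU) hw
    have e := chi_conj (k := k) hS (g := mv x 1 (FreeGroup.of s)⁻¹) (a := mv s 1 w)
      (mv_mem_IA (by rw [one_mul, h0])) (cenmv hsB (one_mem _) hwU)
      (cenmv hxB (one_mem _) (inv_mem (hof hsU)))
    rw [idR hxs hwx hws, chi_mul hS (mv_mem_IA (by rw [one_mul, h0]))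
      (mv_mem_IA (by rw [one_mul, h0])) (cenmv hsB (one_mem _) hwU)
      (cenmv hxB (one_mem _) hwU)] at e
    have h2 := hPh _ (hR w hw h0)
    rw [e] at h2
    exact (Submodule.add_mem_iff_right _ (hR w hw h0)).1 h2
  -- splitting
  have huvN : u * v ∈ K N := mul_mem hu hv
  rw [mv_split hux (K_compl hx hv), chi_mul hS (mv_mem_IA (by rw [mul_inv_cancel, abv_one]))
    (mv_mem_IA (by rw [one_mul, huv])) (cenmv hxB huU (inv_mem huU))
    (cenmv hxB (one_mem _) (K_mono hNU huvN))]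
  refine Submodule.add_mem _ ?_ (hRx _ (K_mono Set.subset_union_left huvN) huv)
  -- the `C` slot
  have hIC : mv x u u⁻¹ ∈ IA A.X := mv_mem_IA (by rw [mul_inv_cancel, abv_one])
  have hCC : mv x u u⁻¹ ∈ cen f i := cenmv hxB huU (inv_mem huU)
  have hcmU1 : cm u (FreeGroup.of c) ∈ K (N ∪ ({x, c, s} : Set A.X)) := cm_mem huU (hof hcU)
  have hcmU2 : cm (FreeGroup.of x) u ∈ K (N ∪ ({x, c, s} : Set A.X)) := cm_mem (hof hxU) huU
  have hIr : mv x 1 (cm u (FreeGroup.of c)) ∈ IA A.X := mv_mem_IA (by rw [one_mul, abv_cm])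
  have hCr : mv x 1 (cm u (FreeGroup.of c)) ∈ cen f i := cenmv hxB (one_mem _) hcmU1
  have hIq : mv c 1 (cm (FreeGroup.of x) u) ∈ IA A.X := mv_mem_IA (by rw [one_mul, abv_cm])
  have hCq : mv c 1 (cm (FreeGroup.of x) u) ∈ cen f i := cenmv hcB (one_mem _) hcmU2
  have hkC : mv x 1 (FreeGroup.of c) ∈ cen f i := cenmv hxB (one_mem _) (hof hcU)
  have hlC : mv c 1 (FreeGroup.of x) ∈ cen f i := cenmv hcB (one_mem _) (hof hxU)
  have hκC : mv x (FreeGroup.of c)⁻¹ (FreeGroup.of c) ∈ cen f i :=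
    cenmv hxB (inv_mem (hof hcU)) (hof hcU)
  have hκI : mv x (FreeGroup.of c)⁻¹ (FreeGroup.of c) ∈ IA A.X :=
    mv_mem_IA (by rw [inv_mul_cancel, abv_one])
  have hwC : w0 x c ∈ cen f i := mul_mem (mul_mem (mul_mem hκC (inv_mem hkC)) hlC) (inv_mem hkC)
  set a := chi k f i (mv x u u⁻¹) with ha
  set r := chi k f i (mv x 1 (cm u (FreeGroup.of c))) with hr
  set q := chi k f i (mv c 1 (cm (FreeGroup.of x) u)) with hq
  set b := chi k f i (mv c u u⁻¹) with hb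
  have hcN : FreeGroup.of c ∈ K (N ∪ {c}) := of_mem_K (Or.inr rfl)
  have hxN : FreeGroup.of x ∈ K (N ∪ {x}) := of_mem_K (Or.inr rfl)
  have hrP : r ∈ P := hRx _ (cm_mem (K_mono Set.subset_union_left hu) hcN) (abv_cm _ _)
  have hqP : q ∈ P := hQ _ (cm_mem hxN (K_mono Set.subset_union_left hu)) (abv_cm _ _)
  have hbP : b ∈ P := hC u hu
  have e1 : HA k d (mv x 1 (FreeGroup.of c)) a = a + r := by
    rw [ha, chi_conj hS hIC hCC hkC, idK hxc hux, chi_mul hS hIC hIr hCC hCr]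
  have e2 : HA k d (mv c 1 (FreeGroup.of x)) a = q + a := by
    rw [ha, chi_conj hS hIC hCC hlC, idL hxc hux huc, chi_mul hS hIq hIC hCq hCC]
  have e3 : HA k d (w0 x c) a = b := by
    rw [ha, chi_conj hS hIC hCC hwC, idW1 hxc hx hc hu]
  have e4 : HA k d (w0 x c) r = q := by
    rw [hr, chi_conj hS hIr hCr hwC, idW2 hxc hx hc hu,
      mv_split (cm_mem h1x huc) (one_mem _), mul_one, chi_mul hS ?_ hIq ?_ hCq]
    · rw [mvC_cm h1x huc, chi_cm hS (mv_mem_IA (by rw [mul_inv_cancel, abv_one]))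
        (mv_mem_IA (by rw [mul_inv_cancel, abv_one]))
        (cenmv hcB (inv_mem huU) (inv_mem (inv_mem huU)))
        (cenmv hcB (inv_mem (hof hxU)) (inv_mem (inv_mem (hof hxU)))), zero_add]
    · exact mv_mem_IA (by rw [mul_inv_cancel, abv_one])
    · exact cenmv hcB hcmU2 (inv_mem hcmU2)
  have e5 : ∀ m, HA k d (w0 x c) m = HA k d (mv x 1 (FreeGroup.of c))⁻¹
      (HA k d (mv c 1 (FreeGroup.of x)) (HA k d (mv x 1 (FreeGroup.of c))⁻¹ m)) := by
    intro m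
    rw [w0, HA_mul, HA_mul, HA_mul, HA_IA hκI]
  have e6 : HA k d (mv x 1 (FreeGroup.of c))⁻¹ a
      = a - HA k d (mv x 1 (FreeGroup.of c))⁻¹ r := by
    have h := congrArg (HA k d (mv x 1 (FreeGroup.of c))⁻¹) e1
    rw [HA_inv, map_add] at h
    exact eq_sub_of_add_eq h.symm
  have e7 : b = a - HA k d (mv x 1 (FreeGroup.of c))⁻¹ r
      + HA k d (mv x 1 (FreeGroup.of c))⁻¹ q - q := by
    rw [← e3, e5, e6, map_sub, e2, map_sub, map_add, e6, ← e5, e4]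
    abel
  have e8 : a = b + HA k d (mv x 1 (FreeGroup.of c))⁻¹ r
      - HA k d (mv x 1 (FreeGroup.of c))⁻¹ q + q := by
    rw [e7]
    abel
  rw [e8]
  exact Submodule.add_mem _ (Submodule.sub_mem _ (Submodule.add_mem _ hbP (hPk _ hrP))
    (hPk _ hqP)) hqP

end Pool.Agent.IAH
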