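import Pool.Agent.IAH.Hmor

/-!
# The classes with spare slot letters
-/

namespace Pool.Agent.IAH

open Finsupp CategoryTheory

section gen

variable {X : Type}

/-- Two moves of different letters that do not involve each other commute. -/
theorem mv_comm {x y : X} (hxy : x ≠ y) {u v u' v' : FreeGroup X}
    (hu : u ∈ K ({x}ᶜ : Set X)) (hv : v ∈ K ({x}ᶜ : Set X))
    (hu2 : u ∈ K ({y}ᶜ : Set X)) (hv2 : v ∈ K ({y}ᶜ : Set X))
    (hu' : u' ∈ K ({y}ᶜ : Set X)) (hv' : v' ∈ K ({y}ᶜ : Set X))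
    (hu2' : u' ∈ K ({x}ᶜ : Set X)) (hv2' : v' ∈ K ({x}ᶜ : Set X)) :
    Commute (mv x u v) (mv y u' v') := by
  change mv x u v * mv y u' v' = mv y u' v' * mv x u v
  apply aut_ext
  intro z
  rw [MulAut.mul_apply, MulAut.mul_apply]
  by_cases hx : z = x
  · subst hx
    rw [mv_of hxy, mv_self hu hv, map_mul, map_mul, mv_fix hu2, mv_fix hv2, mv_of hxy]
  · by_cases hy : z = y
    · subst hy
      rw [mv_self hu' hv', map_mul, map_mul, mv_of hx, mv_fix hu2', mv_fix hv2',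
        mv_self hu' hv']
    · rw [mv_of hy, mv_of hx, mv_of hy]

/-- Conjugation of a slot by `y ↦ y s⁻¹`. -/
theorem idH {y s : X} (hys : y ≠ s) {u v : FreeGroup X} (hus : u ∈ K ({s}ᶜ : Set X))
    (hvs : v ∈ K ({s}ᶜ : Set X)) (huy : u ∈ K ({y}ᶜ : Set X)) (hvy : v ∈ K ({y}ᶜ : Set X)) :
    mv y 1 (FreeGroup.of s)⁻¹ * mv s u v * (mv y 1 (FreeGroup.of s)⁻¹)⁻¹
      = mv y 1 ((FreeGroup.of s)⁻¹ * u * FreeGroup.of s * v) * mv s u v := by
  have hs := of_compl (Ne.symm hys)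
  have hw : (FreeGroup.of s)⁻¹ * u * FreeGroup.of s * v ∈ K ({y}ᶜ : Set X) :=
    mul_mem (mul_mem (mul_mem (inv_mem hs) huy) hs) hvy
  rw [mul_inv_eq_iff_eq_mul]
  apply aut_ext
  intro z
  simp only [MulAut.mul_apply]
  by_cases hy : z = y
  · subst hy
    rw [mv_of hys, mv_self (one_mem _) (inv_mem hs), one_mul, map_mul, map_inv, mv_of hys,
      mv_self hus hvs, map_mul, map_inv, map_mul, map_mul, mv_self (one_mem _) hw, mv_fix huy,
      mv_fix hvy, mv_of (Ne.symm hys)]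
    group
  · by_cases hs' : z = s
    · subst hs'
      rw [mv_self hus hvs, map_mul, map_mul, mv_of hy, mv_fix huy, mv_fix hvy,
        mv_self hus hvs, map_mul, map_mul, mv_of hy, mv_fix huy, mv_fix hvy]
    · rw [mv_of hs', mv_of hy, mv_of hs', mv_of hy]

end gen

variable {k : Type} [CommRing k] {d : ℕ}

/-- A family of moves of distinct letters in disjoint sets. -/
structure Fam {X : Type} {d : ℕ} (s : Fin d → X) (D : Fin d → Set X)
    (f : Fin d → MulAut (FreeGroup X)) : Prop where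
  inj : Function.Injective s
  out : ∀ i j, s i ∉ D j
  ex : ∀ i, ∃ u ∈ K (D i), ∃ v ∈ K (D i), abv (u * v) = 0 ∧ f i = mv (s i) u v

theorem Fam.mem {X : Type} {s : Fin d → X} {D : Fin d → Set X}
    {f : Fin d → MulAut (FreeGroup X)} (h : Fam s D f) (i : Fin d) : f i ∈ IA X := by
  obtain ⟨u, _, v, _, huv, e⟩ := h.ex i
  rw [e]
  exact mv_mem_IA huv

theorem Fam.comm_of {X : Type} {s : Fin d → X} {D : Fin d → Set X}
    {f : Fin d → MulAut (FreeGroup X)} (h : Fam s D f) (i : Fin d) {y : X} (hy : y ≠ s i)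
    (hyD : y ∉ D i) {a b : FreeGroup X} (ha : a ∈ K ({y}ᶜ : Set X)) (hb : b ∈ K ({y}ᶜ : Set X))
    (ha' : a ∈ K ({s i}ᶜ : Set X)) (hb' : b ∈ K ({s i}ᶜ : Set X)) :
    Commute (f i) (mv y a b) := by
  obtain ⟨u, hu, v, hv, _, e⟩ := h.ex i
  rw [e]
  exact mv_comm (Ne.symm hy) (K_compl (h.out i i) hu) (K_compl (h.out i i) hv) (K_compl hyD hu)
    (K_compl hyD hv) ha hb ha' hb'

theorem Fam.comm {X : Type} {s : Fin d → X} {D : Fin d → Set X}
    {f : Fin d → MulAut (FreeGroup X)} (h : Fam s D f) (i j : Fin d) :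
    Commute (f i) (f j) := by
  by_cases hij : i = j
  · subst hij; exact Commute.refl _
  obtain ⟨u, hu, v, hv, _, e⟩ := h.ex j
  have := h.comm_of i (y := s j) (fun h' => hij (h.inj h').symm) (h.out j i)
    (K_compl (h.out j j) hu) (K_compl (h.out j j) hv) (K_compl (h.out i j) hu)
    (K_compl (h.out i j) hv)
  rwa [← e] at this

theorem Fam.slot {A : SZ} {s : Fin d → A.X} {D : Fin d → Set A.X}
    {f : Fin d → MulAut (FreeGroup A.X)} (h : Fam s D f) (i : Fin d) : Slot f i :=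
  ⟨fun j _ => h.mem j, fun j l _ _ => h.comm j l⟩

/-- Cross effects of the class of a family: a matrix acts through small matrices. -/
theorem Fam.cross {Y Z : SZ} {s : Fin d → Z.X} {D : Fin d → Set (Y.add Z).X}
    {f : Fin d → MulAut (FreeGroup (Y.add Z).X)} (h : Fam (fun i => Sum.inr (s i)) D f)
    (S0 : Set Y.X) (hS0 : ∀ y, y ∉ S0 → ∀ i, Sum.inl y ∉ D i) (b : Y.X → Z.X → ℤ) :
    UA k d Y Z b (tm k (Y.add Z) f) ∈ Submodule.span k {c | ∃ b',
      SmM S0 (Set.range s) Set.univ b' ∧ UA k d Y Z b' (tm k (Y.add Z) f) = c} := by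
  have hne : ∀ (y : Y.X) (z : Z.X), (Sum.inl y : Y.X ⊕ Z.X) ≠ Sum.inr z := fun y z => by simp
  have hzy : ∀ (y : Y.X) (z : Z.X), (FreeGroup.of (Sum.inr z : (Y.add Z).X))⁻¹
      ∈ K ({Sum.inl y}ᶜ : Set (Y.add Z).X) := fun y z => inv_mem (of_compl (by simp))
  refine cross_span (UA k d Y Z) (UA_zero Y Z) (UA_add Y Z) _ S0 (Set.range s) ?_ ?_ b
  · intro y hy z hz
    rw [UA_EM, HA_tm _ _ h.mem h.comm]
    congr 1
    funext i
    have hc : Commute (f i) (hg y z) := by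
      refine h.comm_of i (hne _ _) (hS0 y hy i) (one_mem _) (hzy y z) (one_mem _)
        (inv_mem (of_compl ?_))
      intro h'
      exact hz ⟨i, (Sum.inr_injective h').symm⟩
    rw [← hc.eq, mul_inv_cancel_right]
  · rintro y hy y' hy' hyy' _ ⟨i, rfl⟩
    rw [UA_EM, UA_EM]
    have hS := Fam.slot (A := Y.add Z) h i
    obtain ⟨u, hu, v, hv, huv, e⟩ := h.ex i
    have hus : u ∈ K ({Sum.inr (s i)}ᶜ : Set (Y.add Z).X) := K_compl (h.out i i) hu
    have hvs : v ∈ K ({Sum.inr (s i)}ᶜ : Set (Y.add Z).X) := K_compl (h.out i i) hv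
    have huy : ∀ y, y ∉ S0 → u ∈ K ({Sum.inl y}ᶜ : Set (Y.add Z).X) :=
      fun y hy => K_compl (hS0 y hy i) hu
    have hvy : ∀ y, y ∉ S0 → v ∈ K ({Sum.inl y}ᶜ : Set (Y.add Z).X) :=
      fun y hy => K_compl (hS0 y hy i) hv
    have hcen : ∀ y, y ∉ S0 → hg y (s i) ∈ cen f i := by
      intro y hy j hj
      refine h.comm_of j (hne _ _) (hS0 y hy j) (one_mem _) (hzy _ _) (one_mem _)
        (inv_mem (of_compl ?_))
      intro h'
      exact hj (h.inj h').symm
    have hfi : f i ∈ cen f i := fun j hj => h.comm j i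
    have e0 : tm k (Y.add Z) f = chi k f i (f i) := by
      rw [chi, Function.update_eq_self]
    have hwy : ∀ y, y ∉ S0 → (FreeGroup.of (Sum.inr (s i) : (Y.add Z).X))⁻¹ * u
        * FreeGroup.of (Sum.inr (s i)) * v ∈ K ({Sum.inl y}ᶜ : Set (Y.add Z).X) := fun y hy =>
      mul_mem (mul_mem (mul_mem (hzy _ _) (huy y hy)) (of_compl (by simp))) (hvy y hy)
    have hρI : mv (Sum.inl y : (Y.add Z).X) 1 ((FreeGroup.of (Sum.inr (s i)))⁻¹ * u
        * FreeGroup.of (Sum.inr (s i)) * v) ∈ IA (Y.add Z).X := mv_mem_IA (by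
      rw [one_mul, abv_mul, abv_mul, abv_mul, abv_inv]
      rw [abv_mul] at huv
      have : abv v = - abv u := (eq_neg_of_add_eq_zero_right huv)
      rw [this]
      abel)
    have hρC : mv (Sum.inl y : (Y.add Z).X) 1 ((FreeGroup.of (Sum.inr (s i)))⁻¹ * u
        * FreeGroup.of (Sum.inr (s i)) * v) ∈ cen f i := by
      intro j hj
      have hj' : (Sum.inr (s i) : (Y.add Z).X) ≠ Sum.inr (s j) := fun h' => hj (h.inj h').symm
      refine h.comm_of j (hne _ _) (hS0 y hy j) (one_mem _) (hwy y hy) (one_mem _) ?_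
      exact mul_mem (mul_mem (mul_mem (inv_mem (of_compl hj')) (K_compl (h.out j i) hu))
        (of_compl hj')) (K_compl (h.out j i) hv)
    have e1 : HA k d (hg y (s i)) (tm k (Y.add Z) f) - tm k (Y.add Z) f
        = chi k f i (mv (Sum.inl y : (Y.add Z).X) 1 ((FreeGroup.of (Sum.inr (s i)))⁻¹ * u
        * FreeGroup.of (Sum.inr (s i)) * v)) := by
      rw [e0, chi_conj hS (h.mem i) hfi (hcen y hy), e, hg, idH (hne y (s i)) hus hvs (huy y hy)
        (hvy y hy), ← e, chi_mul hS hρI (h.mem i) hρC hfi, add_sub_cancel_right]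
    rw [e1, chi_conj hS hρI hρC (hcen y' hy')]
    congr 1
    have hc : Commute (hg y' (s i)) (mv (Sum.inl y : (Y.add Z).X) 1
        ((FreeGroup.of (Sum.inr (s i)))⁻¹ * u * FreeGroup.of (Sum.inr (s i)) * v)) := by
      have hyy : (Sum.inl y' : (Y.add Z).X) ≠ Sum.inl y := fun h' => hyy' (Sum.inl_injective h').symm
      exact mv_comm hyy (one_mem _) (hzy _ _) (one_mem _) (hzy _ _) (one_mem _) (hwy y hy)
        (one_mem _) (hwy y' hy')
    rw [hc.eq, mul_inv_cancel_right]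

end Pool.Agent.IAH
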