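import Pool.Agent.IAH.StepB

/-!
# Descent to small subsets
-/

namespace Pool.Agent.IAH

open Finsupp CategoryTheory

section words

variable {A B : Type}

theorem K_lift {j : A → B} {D : Set B} (hD : D ⊆ Set.range j) {w : FreeGroup B} (hw : w ∈ K D) :
    ∃ v ∈ K (j ⁻¹' D), FreeGroup.map j v = w := by
  have : K D ≤ (K (j ⁻¹' D)).map (FreeGroup.map j) := by
    rw [K, Subgroup.closure_le]
    rintro _ ⟨y, hy, rfl⟩
    obtain ⟨x, rfl⟩ := hD hy
    exact ⟨FreeGroup.of x, of_mem_K hy, FreeGroup.map.of⟩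
  obtain ⟨v, hv, e⟩ := this hw
  exact ⟨v, hv, e⟩

theorem map_K_compl {j : A → B} (hj : Function.Injective j) {x : A} {u : FreeGroup A}
    (hu : u ∈ K ({x}ᶜ : Set A)) : FreeGroup.map j u ∈ K ({j x}ᶜ : Set B) := by
  refine K_map_mem (f := FreeGroup.map j) ?_ hu
  intro y hy
  rw [FreeGroup.map.of]
  exact of_mem_K (fun h => hy (hj h))

theorem push_inj_mv (j : A → B) (hj : Function.Injective j) {x : A} {u v : FreeGroup A}
    (hu : u ∈ K ({x}ᶜ : Set A)) (hv : v ∈ K ({x}ᶜ : Set A)) :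
    push (injΘ j hj) (mv x u v) = mv (j x) (FreeGroup.map j u) (FreeGroup.map j v) := by
  refine eq_mv (map_K_compl hj hu) (map_K_compl hj hv) ?_ ?_
  · rw [push_injΘ_of, mv_self hu hv, map_mul, map_mul, FreeGroup.map.of]
  · intro y hy
    by_cases hx : ∃ a, j a = y
    · obtain ⟨a, rfl⟩ := hx
      rw [push_injΘ_of, mv_of (fun h => hy (congrArg j h)), FreeGroup.map.of]
    · exact push_injΘ_not j hj _ (fun a h => hx ⟨a, h⟩)

end words

variable {k : Type} [CommRing k] {d : ℕ}

theorem Fam.torus {A : SZ} {s : Fin d → A.X} {D : Fin d → Set A.X}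
    {f : Fin d → MulAut (FreeGroup A.X)} (h : Fam s D f) :
    IsTorus (fun i => (⟨f i, h.mem i⟩ : IA A.X)) := by
  refine ⟨s, h.inj, fun i => ?_⟩
  obtain ⟨u, hu, v, hv, huv, e⟩ := h.ex i
  have hD : D i ⊆ (Set.range s)ᶜ := by
    rintro y hy ⟨j, rfl⟩
    exact h.out j i hy
  refine ⟨⟨u, K_mono hD hu, v, K_mono hD hv, ?_⟩, ?_⟩
  · change f i _ = _
    rw [e]
    exact mv_self (K_compl (h.out i i) hu) (K_compl (h.out i i) hv)
  · intro y hy
    change f i _ = _
    rw [e]
    exact mv_of hy _ _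

theorem Fam.tm_mem {A : SZ} {s : Fin d → A.X} {D : Fin d → Set A.X}
    {f : Fin d → MulAut (FreeGroup A.X)} (h : Fam s D f) : tm k A f ∈ torSub k d A := by
  refine Submodule.subset_span ⟨A, 𝟙 A, _, h.torus, ?_⟩
  rw [CategoryTheory.Functor.map_id, tm_of h.mem]
  exact torusClass_eq k _ h.torus.commute

/-- The span of the images of the torus parts of the small subsets. -/
noncomputable def Wsp (k : Type) [CommRing k] (d : ℕ) (Z Y : SZ) :
    Submodule k ((HIA k d).obj (Y.add Z)) :=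
  Submodule.span k {v | ∃ (S : SZ) (j : S.X → Y.X) (hj : Function.Injective j)
    (w : (HIA k d).obj (S.add Z)), Nat.card S.X < 3 * d + 1 ∧ w ∈ torSub k d (S.add Z) ∧
    fI (HIA k d) (A := S.add Z) (B := Y.add Z) (Sum.map j id)
      (Sum.map_injective.2 ⟨hj, Function.injective_id⟩) w = v}

theorem hmor_inj {Y Z S : SZ} (j : S.X → Y.X) (hj : Function.Injective j) (b : Y.X → Z.X → ℤ)
    (hb : ∀ y, (∀ s, j s ≠ y) → ∀ z, b y z = 0) :
    ofInj (A := S.add Z) (B := Y.add Z) (Sum.map j id)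
      (Sum.map_injective.2 ⟨hj, Function.injective_id⟩) ≫ hmor (matH b)
      = hmor (matH (fun s z => b (j s) z)) ≫ ofInj (A := S.add Z) (B := Y.add Z) (Sum.map j id)
      (Sum.map_injective.2 ⟨hj, Function.injective_id⟩) := by
  have e : ofInj (A := S.add Z) (B := Y.add Z) (Sum.map j id)
      (Sum.map_injective.2 ⟨hj, Function.injective_id⟩) = sumMap (ofInj j hj) (𝟙 Z) := by
    rw [← ofInj_id, sumMap_ofInj]
  have h1 : ∀ u, matH b ((ofInj j hj).i u) = matH (fun s z => b (j s) z) u := by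
    intro u
    have : (matH b).comp (ofInj j hj).i = matH (fun s z => b (j s) z) := by
      refine hom_ext_mat fun s z => ?_
      rw [AddMonoidHom.comp_apply, ofInj_i, mapDomain_single, matH_single, matH_single]
    exact congrArg (fun f => f u) this
  have h2 : ∀ u, matH (fun s z => b (j s) z) ((ofInj j hj).p u) = matH b u := by
    intro u
    have : (matH (fun s z => b (j s) z)).comp (ofInj j hj).p = matH b := by
      refine hom_ext_mat fun y z => ?_
      rw [AddMonoidHom.comp_apply, matH_single]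
      by_cases hy : ∃ s, j s = y
      · obtain ⟨s, rfl⟩ := hy
        have e3 : (ofInj j hj).p (single (j s) 1) = single s 1 := by
          rw [← mapDomain_single (f := j) (a := s), ← ofInj_i j hj, (ofInj j hj).pi]
        rw [e3, matH_single]
      · have hy' : ∀ s, j s ≠ y := fun s h => hy ⟨s, h⟩
        have e3 : (ofInj j hj).p (single y 1) = 0 := by
          classical
          refine Finsupp.ext fun s => ?_
          rw [ofInj_p, single_apply, if_neg (Ne.symm (hy' s))]
          rfl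
        rw [e3, map_zero, hb y hy' z]
        rfl
    exact congrArg (fun f => f u) this
  rw [e]
  refine SZ.hom_ext (AddMonoidHom.ext fun v => ?_) (AddMonoidHom.ext fun v => ?_)
  · rw [comp_i, comp_i, sumMap_i, sumMap_i, hmor_i, hmor_i, AddEquiv.apply_symm_apply,
      AddEquiv.apply_symm_apply, h1]
    rfl
  · rw [comp_p, comp_p, sumMap_p, sumMap_p, hmor_p, hmor_p, AddEquiv.apply_symm_apply,
      AddEquiv.apply_symm_apply, h2]
    rfl

/-- The descent. -/
theorem Fam.descend {Y Z : SZ} {s : Fin d → Z.X} {D : Fin d → Set (Y.add Z).X}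
    {f : Fin d → MulAut (FreeGroup (Y.add Z).X)} (h : Fam (fun i => Sum.inr (s i)) D f)
    (S : Set Y.X) (hS : ∀ y, y ∉ S → ∀ i, Sum.inl y ∉ D i) (b : Y.X → Z.X → ℤ)
    (hb : ∀ y, y ∉ S → ∀ z, b y z = 0) (hcard : Nat.card S < 3 * d + 1) :
    UA k d Y Z b (tm k (Y.add Z) f) ∈ Wsp k d Z Y := by
  let So : SZ := ⟨S⟩
  let j : So.X → Y.X := Subtype.val
  have hj : Function.Injective j := Subtype.val_injective
  let J : (So.add Z).X → (Y.add Z).X := Sum.map j id
  have hJ : Function.Injective J := Sum.map_injective.2 ⟨hj, Function.injective_id⟩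
  have hDJ : ∀ i, D i ⊆ Set.range J := by
    intro i l hl
    rcases l with y | z
    · have : y ∈ S := by
        by_contra hy
        exact hS y hy i hl
      exact ⟨Sum.inl ⟨y, this⟩, rfl⟩
    · exact ⟨Sum.inr z, rfl⟩
  -- the family in the smaller object
  have hex : ∀ i, ∃ g : MulAut (FreeGroup (So.add Z).X),
      (∃ u ∈ K (J ⁻¹' D i), ∃ v ∈ K (J ⁻¹' D i), abv (u * v) = 0 ∧
        g = mv (Sum.inr (s i)) u v) ∧ push (injΘ J hJ) g = f i := by
    intro i
    obtain ⟨u, hu, v, hv, huv, e⟩ := h.ex i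
    obtain ⟨u', hu', rfl⟩ := K_lift (hDJ i) hu
    obtain ⟨v', hv', rfl⟩ := K_lift (hDJ i) hv
    have hout : (Sum.inr (s i) : (So.add Z).X) ∉ J ⁻¹' D i := h.out i i
    refine ⟨mv (Sum.inr (s i)) u' v', ⟨u', hu', v', hv', ?_, rfl⟩, ?_⟩
    · rw [← map_mul, abv_map] at huv
      apply mapDomain_injective hJ
      rw [huv, mapDomain_zero]
    · rw [push_inj_mv J hJ (K_compl hout hu') (K_compl hout hv'), e]
      rfl
  choose g hg hgf using hex
  have hfam : Fam (X := (So.add Z).X) (fun i => Sum.inr (s i)) (fun i => J ⁻¹' D i) g := by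
    refine ⟨fun a b hab => h.inj (congrArg Sum.inr (Sum.inr_injective hab)),
      fun i l => h.out i l, hg⟩
  have e1 : tm k (Y.add Z) f = ((HIA k d).map (ofInj (A := So.add Z) (B := Y.add Z) J hJ)).hom
      (tm k (So.add Z) g) := by
    rw [tm_map (isLift_inj (A := So.add Z) (B := Y.add Z) J hJ) g hfam.mem hfam.comm]
    congr 1
    funext i
    exact (hgf i).symm
  have hb' : ∀ y, (∀ t : So.X, j t ≠ y) → ∀ z, b y z = 0 := by
    intro y hy z
    refine hb y (fun hyS => ?_) z
    exact hy ⟨y, hyS⟩ rfl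
  have e2 := hmor_inj (S := So) j hj b hb'
  refine Submodule.subset_span ⟨So, j, hj, UA k d So Z (fun t z => b (j t) z)
    (tm k (So.add Z) g), hcard, torSub_map k d _ _ hfam.tm_mem, ?_⟩
  have e3 := congrArg (fun φ => ((HIA k d).map φ).hom (tm k (So.add Z) g)) e2
  simp only [CategoryTheory.Functor.map_comp] at e3
  rw [e1]
  exact e3.symm

/-- The conclusion for families whose words involve few letters. -/
theorem Fam.mem_Wsp {Y Z : SZ} {s : Fin d → Z.X} {D : Fin d → Set (Y.add Z).X}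
    {f : Fin d → MulAut (FreeGroup (Y.add Z).X)} (h : Fam (fun i => Sum.inr (s i)) D f)
    (S0 : Set Y.X) (hS0 : ∀ y, y ∉ S0 → ∀ i, Sum.inl y ∉ D i) (hcard : Nat.card S0 ≤ 2 * d)
    (b : Y.X → Z.X → ℤ) : UA k d Y Z b (tm k (Y.add Z) f) ∈ Wsp k d Z Y := by
  classical
  refine Submodule.span_le.2 ?_ (h.cross (k := k) S0 hS0 b)
  rintro _ ⟨b', hb', rfl⟩
  let S1 : Set Y.X := {y | y ∉ S0 ∧ ∃ i, b' y (s i) ≠ 0}
  have h1 : Nat.card S1 ≤ d := by
    have hex : ∀ y : S1, ∃ i, b' y.1 (s i) ≠ 0 := fun y => y.2.2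
    choose c hc using hex
    have hci : Function.Injective c := by
      intro y y' hyy
      apply Subtype.ext
      refine (hb' (s (c y)) (Set.mem_univ _)).2 y.1 y'.1 y.2.1 y'.2.1 (hc y) ?_
      rw [hyy]
      exact hc y'
    have := Nat.card_le_card_of_injective c hci
    rwa [Nat.card_fin] at this
  have h2 : Nat.card (S0 ∪ S1 : Set Y.X) < 3 * d + 1 := by
    have h3 : (S0 ∪ S1).ncard ≤ S0.ncard + S1.ncard := Set.ncard_union_le _ _
    have e0 : S0.ncard = Nat.card S0 := rfl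
    have e1 : S1.ncard = Nat.card S1 := rfl
    have e2 : (S0 ∪ S1).ncard = Nat.card (S0 ∪ S1 : Set Y.X) := rfl
    omega
  refine h.descend (S0 ∪ S1) ?_ b' ?_ h2
  · intro y hy i
    exact hS0 y (fun h => hy (Or.inl h)) i
  · intro y hy z
    have hy0 : y ∉ S0 := fun h => hy (Or.inl h)
    by_cases hz : z ∈ Set.range s
    · obtain ⟨i, rfl⟩ := hz
      by_contra hne
      exact hy (Or.inr ⟨hy0, i, hne⟩)
    · exact (hb' z (Set.mem_univ _)).1 hz y hy0

end Pool.Agent.IAH
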