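import Pool.Agent.IAH.StepC

/-!
# Expansion in letters, and transport along morphisms
-/

namespace Pool.Agent.IAH

open Finsupp CategoryTheory

/-- The spare letters. -/
abbrev zob (d : ℕ) : SZ := ⟨Fin d × Fin 3⟩

/-- The slot letter. -/
def sl {d : ℕ} (b : Bool) (i : Fin d) : Fin d × Fin 3 := (i, if b then 0 else 1)

/-- The letters that are allowed in the words of a slot. -/
def al (Y : SZ) {d : ℕ} (b : Bool) (i : Fin d) : Set (Y.add (zob d)).X :=
  {l | (∃ y, l = Sum.inl y) ∨ (b = true ∧ l = Sum.inr (i, 1))}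

theorem sl_notin {Y : SZ} {d : ℕ} (b b' : Bool) (i j : Fin d) (h : i = j → b = b') :
    (Sum.inr (sl b i) : (Y.add (zob d)).X) ∉ al Y b' j := by
  rintro (⟨y, hy⟩ | ⟨hb, hl⟩)
  · cases hy
  · have h1 := Sum.inr_injective hl
    have h2 : i = j := (Prod.ext_iff.1 h1).1
    have h3 := (Prod.ext_iff.1 h1).2
    have h4 := h h2
    subst h4
    subst hb
    simp [sl] at h3

variable {k : Type} [CommRing k] {d : ℕ}

theorem fam_out {Y : SZ} (b : Fin d → Bool) (i j : Fin d) :
    (Sum.inr (sl (b i) i) : (Y.add (zob d)).X) ∉ al Y (b j) j :=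
  sl_notin _ _ _ _ (fun h => by rw [h])

theorem sl_inj {Y : SZ} (b : Fin d → Bool) :
    Function.Injective (fun i => (Sum.inr (sl (b i) i) : (Y.add (zob d)).X)) := by
  intro i j h
  exact (Prod.ext_iff.1 (Sum.inr_injective h)).1

/-- Being a letter element implies being an admissible element. -/
theorem LT_ex {X : Type} {s : X} {T : Set X} {g : MulAut (FreeGroup X)} (hg : g ∈ LT s T) :
    ∃ l ∈ T, ∃ l' ∈ T, ∃ u ∈ K ({l, l'} : Set X), ∃ v ∈ K ({l, l'} : Set X),
      abv (u * v) = 0 ∧ g = mv s u v := by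
  rcases hg with ⟨l, hl, rfl⟩ | ⟨l, hl, l', hl', rfl⟩
  · exact ⟨l, hl, l, hl, FreeGroup.of l, of_mem_K (by simp), (FreeGroup.of l)⁻¹,
      inv_mem (of_mem_K (by simp)), by rw [mul_inv_cancel, abv_one], rfl⟩
  · exact ⟨l, hl, l', hl', 1, one_mem _, cm (FreeGroup.of l) (FreeGroup.of l'),
      cm_mem (of_mem_K (by simp)) (of_mem_K (by simp)), by rw [one_mul, abv_cm], rfl⟩

theorem LT_mem {X : Type} {s : X} {T : Set X} {g : MulAut (FreeGroup X)} (hg : g ∈ LT s T) :
    ∃ u ∈ K T, ∃ v ∈ K T, abv (u * v) = 0 ∧ g = mv s u v := by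
  obtain ⟨l, hl, l', hl', u, hu, v, hv, h⟩ := LT_ex hg
  have hsub : ({l, l'} : Set X) ⊆ T := by
    rintro y (rfl | hy)
    · exact hl
    · rw [Set.mem_singleton_iff] at hy; subst hy; exact hl'
  exact ⟨u, K_mono hsub hu, v, K_mono hsub hv, h⟩

/-- Families of letter elements. -/
theorem letter_mem {Y : SZ} (b : Fin d → Bool) (f : Fin d → MulAut (FreeGroup (Y.add (zob d)).X))
    (hf : ∀ i, f i ∈ LT (Sum.inr (sl (b i) i) : (Y.add (zob d)).X) (al Y (b i) i))
    (β : Y.X → (zob d).X → ℤ) : UA k d Y (zob d) β (tm k (Y.add (zob d)) f) ∈ Wsp k d (zob d) Y := by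
  classical
  choose l hl l' hl' u hu v hv huv e using fun i => LT_ex (hf i)
  have hD : ∀ i, ({l i, l' i} : Set (Y.add (zob d)).X) ⊆ al Y (b i) i := by
    rintro i y (rfl | hy)
    · exact hl i
    · rw [Set.mem_singleton_iff] at hy; subst hy; exact hl' i
  have hfam : Fam (fun i => (Sum.inr (sl (b i) i) : (Y.add (zob d)).X))
      (fun i => ({l i, l' i} : Set (Y.add (zob d)).X)) f :=
    ⟨sl_inj b, fun i j h => fam_out b i j (hD j h),
      fun i => ⟨u i, hu i, v i, hv i, huv i, e i⟩⟩
  let S0 : Set Y.X := {y | ∃ i, (Sum.inl y : (Y.add (zob d)).X) ∈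
    ({l i, l' i} : Set (Y.add (zob d)).X)}
  refine hfam.mem_Wsp (k := k) (s := fun i => sl (b i) i) S0 ?_ ?_ β
  · intro y hy i hi
    exact hy ⟨i, hi⟩
  · have hex : ∀ y : S0, ∃ p : Fin d × Bool,
        (Sum.inl y.1 : (Y.add (zob d)).X) = if p.2 then l p.1 else l' p.1 := by
      rintro ⟨y, i, hi⟩
      rcases hi with h | h
      · exact ⟨(i, true), h⟩
      · exact ⟨(i, false), h⟩
    choose p hp using hex
    have hpi : Function.Injective p := by
      intro y y' h
      apply Subtype.ext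
      have h1 := hp y
      rw [h, ← hp y'] at h1
      exact Sum.inl_injective h1
    have := Nat.card_le_card_of_injective p hpi
    have hB : Nat.card Bool = 2 := by rw [Nat.card_eq_fintype_card, Fintype.card_bool]
    rw [Nat.card_prod, Nat.card_fin, hB] at this
    omega

/-- The admissible elements of a slot. -/
def AE (Y : SZ) {d : ℕ} (b : Fin d → Bool) (i : Fin d)
    (g : MulAut (FreeGroup (Y.add (zob d)).X)) : Prop :=
  ∃ u ∈ K (al Y (b i) i), ∃ v ∈ K (al Y (b i) i), abv (u * v) = 0 ∧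
    g = mv (Sum.inr (sl (b i) i)) u v

theorem AE.fam {Y : SZ} {b : Fin d → Bool} {f : Fin d → MulAut (FreeGroup (Y.add (zob d)).X)}
    (hf : ∀ i, AE Y b i (f i)) :
    Fam (fun i => (Sum.inr (sl (b i) i) : (Y.add (zob d)).X)) (fun i => al Y (b i) i) f :=
  ⟨sl_inj b, fun i j => fam_out b i j, hf⟩

theorem AE.spec {Y : SZ} {b : Fin d → Bool} {f : Fin d → MulAut (FreeGroup (Y.add (zob d)).X)}
    (hf : ∀ i, AE Y b i (f i)) (i : Fin d) :
    Spec (A := Y.add (zob d)) f i {Sum.inr (sl (b i) i), Sum.inr (i, 2)}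
      (al Y (b i) i ∪ {Sum.inr (sl (b i) i), Sum.inr (i, 2)}) := by
  have hne : ∀ j, j ≠ i → ∀ t : Fin 3, (Sum.inr (sl (b j) j) : (Y.add (zob d)).X)
      ≠ Sum.inr (i, t) := by
    intro j hj t h
    exact hj (Prod.ext_iff.1 (Sum.inr_injective h)).1
  refine ⟨Set.subset_union_right, ?_, ?_⟩
  · intro j hj y hy
    obtain ⟨u, _, v, _, _, e⟩ := hf j
    rw [e]
    refine mv_of ?_ _ _
    rintro rfl
    rcases hy with hy | hy
    · exact sl_notin _ _ _ _ (fun h => absurd h hj) hy
    · rcases hy with h | h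
      · exact hne j hj _ h
      · exact hne j hj _ h
  · intro j hj y hy
    obtain ⟨u, hu, v, hv, _, e⟩ := hf j
    have hsub : al Y (b j) j ⊆ ({Sum.inr (sl (b i) i), Sum.inr (i, 2)}ᶜ :
        Set (Y.add (zob d)).X) := by
      rintro l (⟨y, rfl⟩ | ⟨_, rfl⟩) h
      · rcases h with h | h <;> cases h
      · rcases h with h | h
        · exact hj (Prod.ext_iff.1 (Sum.inr_injective h)).1
        · exact hj (Prod.ext_iff.1 (Sum.inr_injective h)).1
    rw [e]
    by_cases h : y = Sum.inr (sl (b j) j)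
    · subst h
      rw [mv_self (K_compl (fam_out b j j) hu) (K_compl (fam_out b j j) hv)]
      exact mul_mem (mul_mem (K_mono hsub hu) (of_mem_K hy)) (K_mono hsub hv)
    · rw [mv_of h]
      exact of_mem_K hy

/-- All the admissible families. -/
theorem adm_mem {Y : SZ} (b : Fin d → Bool) (f : Fin d → MulAut (FreeGroup (Y.add (zob d)).X))
    (hf : ∀ i, AE Y b i (f i)) (β : Y.X → (zob d).X → ℤ) :
    UA k d Y (zob d) β (tm k (Y.add (zob d)) f) ∈ Wsp k d (zob d) Y := by
  classical
  suffices h : ∀ J : Finset (Fin d), ∀ f : Fin d → MulAut (FreeGroup (Y.add (zob d)).X),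
      (∀ i, AE Y b i (f i)) →
      (∀ i, i ∉ J → f i ∈ LT (Sum.inr (sl (b i) i) : (Y.add (zob d)).X) (al Y (b i) i)) →
      UA k d Y (zob d) β (tm k (Y.add (zob d)) f) ∈ Wsp k d (zob d) Y from
    h Finset.univ f hf (fun i hi => absurd (Finset.mem_univ i) hi)
  intro J
  induction J using Finset.induction_on with
  | empty =>
    intro f _ hL
    exact letter_mem b f (fun i => hL i (Finset.notMem_empty i)) β
  | insert i J hiJ ih =>
    intro f hf hL
    have hS : Slot (A := Y.add (zob d)) f i := Fam.slot (A := Y.add (zob d)) (AE.fam hf) i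
    obtain ⟨u, hu, v, hv, huv, e⟩ := hf i
    have hsz : (Sum.inr (sl (b i) i) : (Y.add (zob d)).X) ≠ Sum.inr (i, 2) := by
      intro h
      have := (Prod.ext_iff.1 (Sum.inr_injective h)).2
      cases hb : b i <;> simp [sl, hb] at this
    have hz : (Sum.inr (i, 2) : (Y.add (zob d)).X) ∉ al Y (b i) i := by
      rintro (⟨y, hy⟩ | ⟨_, hl⟩)
      · cases hy
      · have := (Prod.ext_iff.1 (Sum.inr_injective hl)).2
        simp at this
    have h1 := stepP (k := k) hS hsz (fam_out b i i) hz (AE.spec hf i) hu hv huv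
    have h2 : tm k (Y.add (zob d)) f = chi k f i (mv (Sum.inr (sl (b i) i)) u v) := by
      rw [chi, ← e, Function.update_eq_self]
    rw [h2]
    have h3 : spLT k f i (Sum.inr (sl (b i) i)) (al Y (b i) i)
        ≤ (Wsp k d (zob d) Y).comap (UA k d Y (zob d) β) := by
      refine Submodule.span_le.2 ?_
      rintro _ ⟨g, hg, rfl⟩
      refine ih (Function.update f i g) ?_ ?_
      · intro j
        by_cases hj : j = i
        · subst hj
          rw [Function.update_self]
          exact LT_mem hg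
        · rw [Function.update_of_ne hj]
          exact hf j
      · intro j hj
        by_cases hji : j = i
        · subst hji
          rw [Function.update_self]
          exact hg
        · rw [Function.update_of_ne hji]
          exact hL j (fun h => (Finset.mem_insert.1 h).elim hji hj)
    exact h3 h1

end Pool.Agent.IAH
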