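import Pool.Agent.IAH.StepD

/-!
# Transport along morphisms that fix the spare letters
-/

namespace Pool.Agent.IAH

open Finsupp CategoryTheory

section lift

variable {X Y Z R : Type}

/-- The exchange of the last two summands. -/
def exch : (X ⊕ Z) ⊕ R ≃ (X ⊕ R) ⊕ Z where
  toFun t := match t with
    | Sum.inl (Sum.inl x) => Sum.inl (Sum.inl x)
    | Sum.inl (Sum.inr z) => Sum.inr z
    | Sum.inr r => Sum.inl (Sum.inr r)
  invFun t := match t with
    | Sum.inl (Sum.inl x) => Sum.inl (Sum.inl x)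
    | Sum.inl (Sum.inr r) => Sum.inr r
    | Sum.inr z => Sum.inl (Sum.inr z)
  left_inv t := by rcases t with (x | z) | r <;> rfl
  right_inv t := by rcases t with (x | r) | z <;> rfl

/-- The lift of `φ ⊕ 1`. -/
noncomputable def sumΘ (Z : Type) (Θ : FreeGroup (X ⊕ R) ≃* FreeGroup Y) :
    FreeGroup ((X ⊕ Z) ⊕ R) ≃* FreeGroup (Y ⊕ Z) :=
  (FreeGroup.freeGroupCongr exch).trans (fstA Z Θ)

theorem sumΘ_x (Θ : FreeGroup (X ⊕ R) ≃* FreeGroup Y) (x : X) :
    sumΘ Z Θ (FreeGroup.of (Sum.inl (Sum.inl x)))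
      = FreeGroup.map Sum.inl (Θ (FreeGroup.of (Sum.inl x))) := by
  rw [sumΘ, MulEquiv.trans_apply, FreeGroup.freeGroupCongr_apply, FreeGroup.map.of]
  exact fstA_inl_of Θ (Sum.inl x)

theorem sumΘ_z (Θ : FreeGroup (X ⊕ R) ≃* FreeGroup Y) (z : Z) :
    sumΘ Z Θ (FreeGroup.of (Sum.inl (Sum.inr z))) = FreeGroup.of (Sum.inr z) := by
  rw [sumΘ, MulEquiv.trans_apply, FreeGroup.freeGroupCongr_apply, FreeGroup.map.of]
  exact fstA_inr_of Θ z

theorem sumΘ_r (Θ : FreeGroup (X ⊕ R) ≃* FreeGroup Y) (r : R) :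
    sumΘ Z Θ (FreeGroup.of (Sum.inr r))
      = FreeGroup.map Sum.inl (Θ (FreeGroup.of (Sum.inr r))) := by
  rw [sumΘ, MulEquiv.trans_apply, FreeGroup.freeGroupCongr_apply, FreeGroup.map.of]
  exact fstA_inl_of Θ (Sum.inr r)

theorem sumΘ_symm_inl (Θ : FreeGroup (X ⊕ R) ≃* FreeGroup Y) (y : Y) :
    (sumΘ Z Θ).symm (FreeGroup.of (Sum.inl y))
      = FreeGroup.map (fun t : X ⊕ R => (exch.symm (Sum.inl t) : (X ⊕ Z) ⊕ R))
        (Θ.symm (FreeGroup.of y)) := by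
  rw [MulEquiv.symm_apply_eq]
  have : (sumΘ Z Θ).toMonoidHom.comp (FreeGroup.map
      (fun t : X ⊕ R => (exch.symm (Sum.inl t) : (X ⊕ Z) ⊕ R)))
      = (FreeGroup.map Sum.inl).comp Θ.toMonoidHom := by
    apply FreeGroup.ext_hom
    rintro (x | r)
    · rw [MonoidHom.comp_apply, FreeGroup.map.of]
      exact sumΘ_x Θ x
    · rw [MonoidHom.comp_apply, FreeGroup.map.of]
      exact sumΘ_r Θ r
  have h := congrArg (fun f => f (Θ.symm (FreeGroup.of y))) this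
  have h2 : (FreeGroup.map Sum.inl).comp Θ.toMonoidHom (Θ.symm (FreeGroup.of y))
      = (FreeGroup.of (Sum.inl y) : FreeGroup (Y ⊕ Z)) := by
    change FreeGroup.map Sum.inl (Θ (Θ.symm (FreeGroup.of y))) = _
    rw [MulEquiv.apply_symm_apply, FreeGroup.map.of]
  exact (h.trans h2).symm

theorem sumΘ_symm_inr (Θ : FreeGroup (X ⊕ R) ≃* FreeGroup Y) (z : Z) :
    (sumΘ Z Θ).symm (FreeGroup.of (Sum.inr z)) = FreeGroup.of (Sum.inl (Sum.inr z)) := by
  rw [MulEquiv.symm_apply_eq, sumΘ_z]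

/-- The action on the words. -/
noncomputable def tauH (Z : Type) (Θ : FreeGroup (X ⊕ R) ≃* FreeGroup Y) :
    FreeGroup (X ⊕ Z) →* FreeGroup (Y ⊕ Z) :=
  (sumΘ Z Θ).toMonoidHom.comp (FreeGroup.map Sum.inl)

theorem tauH_apply (Θ : FreeGroup (X ⊕ R) ≃* FreeGroup Y) (w : FreeGroup (X ⊕ Z)) :
    tauH Z Θ w = sumΘ Z Θ (FreeGroup.map Sum.inl w) := rfl

theorem tauH_x (Θ : FreeGroup (X ⊕ R) ≃* FreeGroup Y) (x : X) :
    tauH Z Θ (FreeGroup.of (Sum.inl x)) = FreeGroup.map Sum.inl (Θ (FreeGroup.of (Sum.inl x))) := by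
  rw [tauH_apply, FreeGroup.map.of, sumΘ_x]

theorem tauH_z (Θ : FreeGroup (X ⊕ R) ≃* FreeGroup Y) (z : Z) :
    tauH Z Θ (FreeGroup.of (Sum.inr z)) = FreeGroup.of (Sum.inr z) := by
  rw [tauH_apply, FreeGroup.map.of, sumΘ_z]

theorem tauH_compl (Θ : FreeGroup (X ⊕ R) ≃* FreeGroup Y) {z : Z} {u : FreeGroup (X ⊕ Z)}
    (hu : u ∈ K ({Sum.inr z}ᶜ : Set (X ⊕ Z))) :
    tauH Z Θ u ∈ K ({Sum.inr z}ᶜ : Set (Y ⊕ Z)) := by
  refine K_map_mem ?_ hu
  rintro (x | z') h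
  · rw [tauH_x]
    exact map_mem_K (fun y => by simp) _
  · rw [tauH_z]
    exact of_mem_K (fun h' => h (congrArg Sum.inr (Sum.inr_injective h')))

theorem push_sum_mv (Θ : FreeGroup (X ⊕ R) ≃* FreeGroup Y) {z : Z} {u v : FreeGroup (X ⊕ Z)}
    (hu : u ∈ K ({Sum.inr z}ᶜ : Set (X ⊕ Z))) (hv : v ∈ K ({Sum.inr z}ᶜ : Set (X ⊕ Z))) :
    push (sumΘ Z Θ) (mv (Sum.inr z) u v) = mv (Sum.inr z) (tauH Z Θ u) (tauH Z Θ v) := by
  refine eq_mv (tauH_compl Θ hu) (tauH_compl Θ hv) ?_ ?_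
  · rw [← sumΘ_z Θ z, push_apply', extA_inl_of, mv_self hu hv, map_mul, map_mul, map_mul, map_mul,
      FreeGroup.map.of]
    rfl
  · have hext : ∀ t : (X ⊕ Z) ⊕ R, t ∈ ({Sum.inl (Sum.inr z)}ᶜ : Set ((X ⊕ Z) ⊕ R)) →
        extA R (mv (Sum.inr z) u v) (FreeGroup.of t) = FreeGroup.of t := by
      rintro (l | r) ht
      · rw [extA_inl_of, mv_of (fun h => ht (congrArg Sum.inl h)), FreeGroup.map.of]
      · rw [extA_inr_of]
    rintro (y | z') hy
    · rw [push_apply, sumΘ_symm_inl, K_fix' hext (map_mem_K ?_ _), ← sumΘ_symm_inl,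
        MulEquiv.apply_symm_apply]
      rintro (x | r) h
      · cases h
      · cases h
    · have hz : z' ≠ z := fun h => hy (congrArg Sum.inr h)
      rw [← sumΘ_z Θ z', push_apply', hext]
      intro h
      exact hz (Sum.inr_injective (Sum.inl_injective h))

end lift

theorem isLift_sum {A B Z : SZ} {φ : A ⟶ B} {R : Type} {Θ : FreeGroup (A.X ⊕ R) ≃* FreeGroup B.X}
    (h : IsLift φ Θ) : IsLift (A := A.add Z) (B := B.add Z) (sumMap φ (𝟙 Z)) (sumΘ Z.X Θ) := by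
  constructor
  · rintro (x | z)
    · rw [sumΘ_x, abv_map, h.1, sumMap_i, ← mapDomain_single (f := Sum.inl) (a := x), spl_inl,
        spl_symm, map_zero, mapDomain_zero, add_zero]
    · rw [sumΘ_z, abv_of, sumMap_i,
        ← mapDomain_single (f := (Sum.inr : Z.X → A.X ⊕ Z.X)) (a := z), spl_inr, spl_symm, map_zero, mapDomain_zero, zero_add, id_i, mapDomain_single]
  · intro r
    rw [sumΘ_r, abv_map, sumMap_p, spl_inl, h.2, map_zero]
    exact map_zero _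

variable {k : Type} [CommRing k] {d : ℕ}

/-- Transport of admissible families. -/
theorem adm_map {X Y : SZ} (φ : X ⟶ Y) (b : Fin d → Bool)
    (f : Fin d → MulAut (FreeGroup (X.add (zob d)).X)) (hf : ∀ i, AE X b i (f i)) :
    ∃ f' : Fin d → MulAut (FreeGroup (Y.add (zob d)).X), (∀ i, AE Y b i (f' i)) ∧
      ((HIA k d).map (sumMap φ (𝟙 (zob d)))).hom (tm k (X.add (zob d)) f)
        = tm k (Y.add (zob d)) f' := by
  obtain ⟨R, _, Θ, hΘ⟩ := exists_lift φ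
  have hfam := AE.fam hf
  have hl := isLift_sum (Z := zob d) hΘ
  refine ⟨fun i => push (sumΘ (zob d).X Θ) (f i), fun i => ?_, tm_map hl f hfam.mem hfam.comm⟩
  obtain ⟨u, hu, v, hv, huv, e⟩ := hf i
  have hal : ∀ w ∈ K (al X (b i) i), tauH (zob d).X Θ w ∈ K (al Y (b i) i) := by
    intro w hw
    refine K_map_mem ?_ hw
    rintro l (⟨x, rfl⟩ | ⟨hb, rfl⟩)
    · rw [tauH_x]
      exact map_mem_K (T := al Y (b i) i) (fun y => Or.inl ⟨y, rfl⟩) _
    · rw [tauH_z]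
      exact of_mem_K (Or.inr ⟨hb, rfl⟩)
  refine ⟨tauH (zob d).X Θ u, hal u hu, tauH (zob d).X Θ v, hal v hv, ?_, ?_⟩
  · rw [← map_mul, tauH_apply]
    have := hl.inl (u * v)
    rw [huv, map_zero] at this
    exact this
  · change push (sumΘ (zob d).X Θ) (f i) = _
    rw [e]
    exact push_sum_mv Θ (K_compl (fam_out b i i) hu) (K_compl (fam_out b i i) hv)

/-- The morphisms that fix the spare letters. -/
def Par {X Y Z : SZ} (ψ : X.add Z ⟶ Y.add Z) : Prop :=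
  ∀ v : Z.X →₀ ℤ, ψ.i (mapDomain Sum.inr v) = mapDomain Sum.inr v

theorem Par.p {X Y Z : SZ} {ψ : X.add Z ⟶ Y.add Z} (h : Par ψ) (v : Z.X →₀ ℤ) :
    ψ.p (mapDomain Sum.inr v) = mapDomain Sum.inr v := by
  have := ψ.pi (mapDomain Sum.inr v)
  rwa [h v] at this

theorem Par.comp {X Y W Z : SZ} {ψ : X.add Z ⟶ Y.add Z} {χ : Y.add Z ⟶ W.add Z} (h : Par ψ)
    (h' : Par χ) : Par (ψ ≫ χ) := by
  intro v
  rw [comp_i, h v, h' v]

theorem par_sum {X Y Z : SZ} (φ : X ⟶ Y) : Par (sumMap φ (𝟙 Z)) := by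
  intro v
  rw [sumMap_i, spl_inr, spl_symm, map_zero, mapDomain_zero, zero_add, id_i]

/-- The decomposition of a morphism that fixes the spare letters. -/
theorem Par.decomp {X Y Z : SZ} {ψ : X.add Z ⟶ Y.add Z} (h : Par ψ) :
    ∃ (φ : X ⟶ Y) (β : (Y.X →₀ ℤ) →+ (Z.X →₀ ℤ)), ψ = sumMap φ (𝟙 Z) ≫ hmor β := by
  -- the components
  let jX : (X.X →₀ ℤ) →+ ((X.add Z).X →₀ ℤ) := mapDomain.addMonoidHom Sum.inl
  let jY : (Y.X →₀ ℤ) →+ ((Y.add Z).X →₀ ℤ) := mapDomain.addMonoidHom Sum.inl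
  let a : (X.X →₀ ℤ) →+ (Y.X →₀ ℤ) :=
    (AddMonoidHom.fst _ _).comp ((spl Y Z).toAddMonoidHom.comp (ψ.i.comp jX))
  let bb : (X.X →₀ ℤ) →+ (Z.X →₀ ℤ) :=
    (AddMonoidHom.snd _ _).comp ((spl Y Z).toAddMonoidHom.comp (ψ.i.comp jX))
  let α : (Y.X →₀ ℤ) →+ (X.X →₀ ℤ) :=
    (AddMonoidHom.fst _ _).comp ((spl X Z).toAddMonoidHom.comp (ψ.p.comp jY))
  let β : (Y.X →₀ ℤ) →+ (Z.X →₀ ℤ) :=
    (AddMonoidHom.snd _ _).comp ((spl X Z).toAddMonoidHom.comp (ψ.p.comp jY))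
  have hi : ∀ u, ψ.i (mapDomain Sum.inl u)
      = mapDomain Sum.inl (a u) + mapDomain Sum.inr (bb u) := by
    intro u
    rw [← spl_symm]
    exact ((spl Y Z).symm_apply_apply _).symm
  have hp : ∀ u, ψ.p (mapDomain Sum.inl u)
      = mapDomain Sum.inl (α u) + mapDomain Sum.inr (β u) := by
    intro u
    rw [← spl_symm]
    exact ((spl X Z).symm_apply_apply _).symm
  have hrel : ∀ u, α (a u) = u ∧ bb u = - β (a u) := by
    intro u
    have h1 := ψ.pi (mapDomain Sum.inl u)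
    rw [hi, map_add, hp, h.p] at h1
    have h2 := congrArg (spl X Z) h1
    rw [map_add, map_add, spl_inl, spl_inr, spl_inr, spl_inl] at h2
    have h3 := (Prod.ext_iff.1 h2).1
    have h4 := (Prod.ext_iff.1 h2).2
    simp only [Prod.fst_add, Prod.snd_add, add_zero, zero_add] at h3 h4
    exact ⟨h3, eq_neg_of_add_eq_zero_right h4⟩
  let φ : X ⟶ Y := ⟨a, α, fun u => (hrel u).1⟩
  refine ⟨φ, β, ?_⟩
  have hspl : ∀ {A : SZ} (v : (A.add Z).X →₀ ℤ), v = mapDomain Sum.inl (spl A Z v).1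
      + mapDomain Sum.inr (spl A Z v).2 := by
    intro A v
    rw [← spl_symm]
    exact ((spl A Z).symm_apply_apply v).symm
  refine SZ.hom_ext (AddMonoidHom.ext fun v => ?_) (AddMonoidHom.ext fun v => ?_)
  · rw [comp_i, sumMap_i, hmor_i, AddEquiv.apply_symm_apply, id_i, spl_symm]
    conv_lhs => rw [hspl v, map_add, hi, h]
    change mapDomain Sum.inl (a (spl X Z v).1) + mapDomain Sum.inr (bb (spl X Z v).1)
      + mapDomain Sum.inr (spl X Z v).2 = mapDomain Sum.inl (a (spl X Z v).1)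
      + mapDomain Sum.inr ((spl X Z v).2 - β (a (spl X Z v).1))
    rw [(hrel _).2, add_assoc, ← mapDomain_add, neg_add_eq_sub]
  · rw [comp_p, sumMap_p, hmor_p, AddEquiv.apply_symm_apply, id_p, spl_symm]
    conv_lhs => rw [hspl v, map_add, hp, h.p]
    change mapDomain Sum.inl (α (spl Y Z v).1) + mapDomain Sum.inr (β (spl Y Z v).1)
      + mapDomain Sum.inr (spl Y Z v).2 = mapDomain Sum.inl (α (spl Y Z v).1)
      + mapDomain Sum.inr ((spl Y Z v).2 + β (spl Y Z v).1)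
    rw [add_assoc, ← mapDomain_add, add_comm (β _)]

/-- The classes all of whose images by morphisms that fix the spare letters are small. -/
noncomputable def PX (k : Type) [CommRing k] (d : ℕ) (X : SZ) :
    Submodule k ((HIA k d).obj (X.add (zob d))) where
  carrier := {c | ∀ (Y : SZ) (ψ : X.add (zob d) ⟶ Y.add (zob d)), Par ψ →
    ((HIA k d).map ψ).hom c ∈ Wsp k d (zob d) Y}
  add_mem' ha hb Y ψ hψ := by
    rw [map_add]
    exact Submodule.add_mem _ (ha Y ψ hψ) (hb Y ψ hψ)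
  zero_mem' Y ψ _ := by
    rw [map_zero]
    exact Submodule.zero_mem _
  smul_mem' r c hc Y ψ hψ := by
    rw [map_smul]
    exact Submodule.smul_mem _ _ (hc Y ψ hψ)

theorem PX_HA {X : SZ} {g : MulAut (FreeGroup (X.add (zob d)).X)}
    (hg : ∀ z, g (FreeGroup.of (Sum.inr z)) = FreeGroup.of (Sum.inr z))
    {m : (HIA k d).obj (X.add (zob d))} (hm : m ∈ PX k d X) : HA k d g m ∈ PX k d X := by
  have hpar : Par (X := X) (Y := X) (Z := zob d) (mor (A := X.add (zob d)) g) := by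
    intro v
    have : (mor (A := X.add (zob d)) g).i.comp (jR X.X (zob d).X) = jR X.X (zob d).X := by
      refine add_ext fun z => ?_
      change (mor (A := X.add (zob d)) g).i (mapDomain Sum.inr (single z 1))
        = mapDomain Sum.inr (single z 1)
      rw [mapDomain_single, ← abv_of, mor_i, hg]
    exact congrArg (fun f => f v) this
  intro Y ψ hψ
  have := hm Y (mor (A := X.add (zob d)) g ≫ ψ) (hpar.comp hψ)
  rw [CategoryTheory.Functor.map_comp] at this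
  exact this

/-- The admissible families are good. -/
theorem adm_PX {X : SZ} (b : Fin d → Bool) (f : Fin d → MulAut (FreeGroup (X.add (zob d)).X))
    (hf : ∀ i, AE X b i (f i)) : tm k (X.add (zob d)) f ∈ PX k d X := by
  intro Y ψ hψ
  obtain ⟨φ, β, rfl⟩ := hψ.decomp
  obtain ⟨f', hf', e⟩ := adm_map (k := k) φ b f hf
  rw [CategoryTheory.Functor.map_comp]
  change ((HIA k d).map (hmor β)).hom (((HIA k d).map (sumMap φ (𝟙 (zob d)))).hom _) ∈ _
  rw [e, ← matH_surj β]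
  exact adm_mem b f' hf' _

end Pool.Agent.IAH
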