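import Pool.Agent.IAH.StepE

/-!
# The upper bound for the functor generated by the tori
-/

namespace Pool.Agent.IAH

open Finsupp CategoryTheory

variable {k : Type} [CommRing k] {d : ℕ} {X : SZ}

/-- The letters that are not slot letters. -/
def NL (s : Fin d → X.X) : Set (X.add (zob d)).X := Sum.inl '' (Set.range s)ᶜ

theorem NL_inl {s : Fin d → X.X} (j : Fin d) : (Sum.inl (s j) : (X.add (zob d)).X) ∉ NL s := by
  rintro ⟨y, hy, h⟩
  exact hy ⟨j, (Sum.inl_injective h).symm⟩

theorem NL_inr {s : Fin d → X.X} (z : Fin d × Fin 3) :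
    (Sum.inr z : (X.add (zob d)).X) ∉ NL s := by
  rintro ⟨y, hy, h⟩
  cases h

/-- The slot letters of the slot `i`. -/
def SLs (s : Fin d → X.X) (i : Fin d) : Set (X.add (zob d)).X :=
  {Sum.inl (s i), Sum.inr (i, 1), Sum.inr (i, 0)}

/-- The elements that occur in the slot `i`. -/
def AT (s : Fin d → X.X) (i : Fin d) (g : MulAut (FreeGroup (X.add (zob d)).X)) : Prop :=
  ∃ t ∈ SLs s i, ∃ u ∈ K ((NL s ∪ SLs s i) \ {t}), ∃ v ∈ K ((NL s ∪ SLs s i) \ {t}),
    abv (u * v) = 0 ∧ g = mv t u v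

theorem SLs_disj {s : Fin d → X.X} (hs : Function.Injective s) {i j : Fin d} (hij : i ≠ j)
    {t : (X.add (zob d)).X} (ht : t ∈ SLs s i) : t ∉ NL s ∪ SLs s j := by
  rcases ht with rfl | rfl | rfl
  · rintro (h | h)
    · exact NL_inl i h
    · rcases h with h | h | h
      · exact hij (hs (Sum.inl_injective h))
      · cases h
      · cases h
  · rintro (h | h)
    · exact NL_inr _ h
    · rcases h with h | h | h
      · cases h
      · exact hij (Prod.ext_iff.1 (Sum.inr_injective h)).1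
      · exact hij (Prod.ext_iff.1 (Sum.inr_injective h)).1
  · rintro (h | h)
    · exact NL_inr _ h
    · rcases h with h | h | h
      · cases h
      · exact hij (Prod.ext_iff.1 (Sum.inr_injective h)).1
      · exact hij (Prod.ext_iff.1 (Sum.inr_injective h)).1

theorem AT_fam {s : Fin d → X.X} (hs : Function.Injective s)
    {f : Fin d → MulAut (FreeGroup (X.add (zob d)).X)} (hf : ∀ i, AT s i (f i)) :
    ∃ (t : Fin d → (X.add (zob d)).X) (D : Fin d → Set (X.add (zob d)).X),
      Fam t D f ∧ (∀ i, t i ∈ SLs s i) ∧ ∀ i, D i ⊆ NL s ∪ SLs s i := by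
  choose t ht u hu v hv huv e using hf
  refine ⟨t, fun i => (NL s ∪ SLs s i) \ {t i}, ⟨?_, ?_, ?_⟩, ht, ?_⟩
  · intro i j h
    by_contra hij
    refine SLs_disj hs hij (ht i) (Or.inr ?_)
    rw [h]
    exact ht j
  · intro i j h
    by_cases hij : i = j
    · subst hij
      exact h.2 rfl
    · exact SLs_disj hs hij (ht i) h.1
  · intro i
    exact ⟨u i, hu i, v i, hv i, huv i, e i⟩
  · intro i
    exact Set.diff_subset

theorem AT_spec {s : Fin d → X.X} (hs : Function.Injective s)
    {f : Fin d → MulAut (FreeGroup (X.add (zob d)).X)} (hf : ∀ i, AT s i (f i)) (i : Fin d) :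
    Spec (A := X.add (zob d)) f i (SLs s i) (NL s ∪ SLs s i) := by
  obtain ⟨t, D, hfam, ht, hD⟩ := AT_fam hs hf
  refine ⟨Set.subset_union_right, ?_, ?_⟩
  · intro j hj y hy
    obtain ⟨u, _, v, _, _, e⟩ := hfam.ex j
    rw [e]
    refine mv_of ?_ _ _
    rintro rfl
    exact SLs_disj hs hj (ht j) hy
  · intro j hj y hy
    obtain ⟨u, hu, v, hv, _, e⟩ := hfam.ex j
    have hsub : D j ⊆ ((SLs s i)ᶜ : Set (X.add (zob d)).X) := by
      intro l hl hl'
      exact SLs_disj hs (Ne.symm hj) hl' (hD j hl)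
    rw [e]
    by_cases h : y = t j
    · subst h
      rw [mv_self (K_compl (hfam.out j j) hu) (K_compl (hfam.out j j) hv)]
      exact mul_mem (mul_mem (K_mono hsub hu) (of_mem_K hy)) (K_mono hsub hv)
    · rw [mv_of h]
      exact of_mem_K hy

/-- The original elements. -/
def OT (s : Fin d → X.X) (i : Fin d) (g : MulAut (FreeGroup (X.add (zob d)).X)) : Prop :=
  ∃ u ∈ K (NL s), ∃ v ∈ K (NL s), abv (u * v) = 0 ∧ g = mv (Sum.inl (s i)) u v

/-- The letters of the words of the spare elements. -/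
def WL (s : Fin d → X.X) (b : Bool) (i : Fin d) : Set (X.add (zob d)).X :=
  {l | l ∈ NL s ∨ l = Sum.inl (s i) ∨ (b = true ∧ l = Sum.inr (i, 1))}

/-- The spare elements. -/
def ST (s : Fin d → X.X) (i : Fin d) (g : MulAut (FreeGroup (X.add (zob d)).X)) : Prop :=
  ∃ b : Bool, ∃ u ∈ K (WL s b i), ∃ v ∈ K (WL s b i), abv (u * v) = 0 ∧
    g = mv (Sum.inr (sl b i)) u v

theorem OT.at {s : Fin d → X.X} {i : Fin d} {g : MulAut (FreeGroup (X.add (zob d)).X)}
    (h : OT s i g) : AT s i g := by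
  obtain ⟨u, hu, v, hv, huv, e⟩ := h
  have hsub : NL s ⊆ (NL s ∪ SLs s i) \ {Sum.inl (s i)} := by
    intro l hl
    refine ⟨Or.inl hl, ?_⟩
    rintro rfl
    exact NL_inl i hl
  exact ⟨Sum.inl (s i), by simp [SLs], u, K_mono hsub hu, v, K_mono hsub hv, huv, e⟩

theorem ST.at {s : Fin d → X.X} {i : Fin d} {g : MulAut (FreeGroup (X.add (zob d)).X)}
    (h : ST s i g) : AT s i g := by
  obtain ⟨b, u, hu, v, hv, huv, e⟩ := h
  have hmem : (Sum.inr (sl b i) : (X.add (zob d)).X) ∈ SLs s i := by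
    cases b
    · exact Or.inr (Or.inl rfl)
    · exact Or.inr (Or.inr rfl)
  have hsub : WL s b i ⊆ (NL s ∪ SLs s i) \ {Sum.inr (sl b i)} := by
    rintro l (hl | rfl | ⟨hb, rfl⟩)
    · refine ⟨Or.inl hl, ?_⟩
      rintro rfl
      exact NL_inr _ hl
    · refine ⟨Or.inr (Or.inl rfl), ?_⟩
      intro h
      cases h
    · refine ⟨Or.inr (Or.inr (Or.inl rfl)), ?_⟩
      intro h
      subst hb
      have := (Prod.ext_iff.1 (Sum.inr_injective h)).2
      simp [sl] at this
  exact ⟨_, hmem, u, K_mono hsub hu, v, K_mono hsub hv, huv, e⟩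

theorem ST_PX {s : Fin d → X.X} {f : Fin d → MulAut (FreeGroup (X.add (zob d)).X)}
    (hf : ∀ i, ST s i (f i)) : tm k (X.add (zob d)) f ∈ PX k d X := by
  choose b u hu v hv huv e using hf
  refine adm_PX b f fun i => ⟨u i, ?_, v i, ?_, huv i, e i⟩
  all_goals
    refine K_mono ?_ (by first | exact hu i | exact hv i)
    rintro l (⟨y, _, rfl⟩ | rfl | ⟨hb, rfl⟩)
    · exact Or.inl ⟨y, rfl⟩
    · exact Or.inl ⟨_, rfl⟩
    · exact Or.inr ⟨hb, rfl⟩

theorem mix_PX {s : Fin d → X.X} (hs : Function.Injective s) :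
    ∀ (J : Finset (Fin d)) (f : Fin d → MulAut (FreeGroup (X.add (zob d)).X)),
      (∀ i, i ∈ J → OT s i (f i)) → (∀ i, i ∉ J → ST s i (f i)) →
      tm k (X.add (zob d)) f ∈ PX k d X := by
  classical
  intro J
  induction J using Finset.induction_on with
  | empty =>
    intro f _ hf
    exact ST_PX (fun i => hf i (Finset.notMem_empty i))
  | insert i J hiJ ih =>
    intro f hO hT
    have hAT : ∀ j, AT s j (f j) := by
      intro j
      by_cases hj : j ∈ insert i J
      · exact (hO j hj).at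
      · exact (hT j hj).at
    obtain ⟨t, D, hfam, _, _⟩ := AT_fam hs hAT
    have hS : Slot (A := X.add (zob d)) f i := Fam.slot (A := X.add (zob d)) hfam i
    obtain ⟨u, hu, v, hv, huv, e⟩ := hO i (Finset.mem_insert_self _ _)
    have h2 : tm k (X.add (zob d)) f = chi k f i (mv (Sum.inl (s i)) u v) := by
      rw [chi, ← e, Function.update_eq_self]
    -- the values at spare elements
    have hspare : ∀ g, ST s i g → chi k f i g ∈ PX k d X := by
      intro g hg
      refine ih (Function.update f i g) ?_ ?_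
      · intro j hj
        have hji : j ≠ i := by
          rintro rfl
          exact hiJ hj
        rw [Function.update_of_ne hji]
        exact hO j (Finset.mem_insert_of_mem hj)
      · intro j hj
        by_cases hji : j = i
        · subst hji
          rw [Function.update_self]
          exact hg
        · rw [Function.update_of_ne hji]
          exact hT j (fun h => (Finset.mem_insert.1 h).elim hji hj)
    have h10 : ((i, 0) : Fin d × Fin 3) ≠ (i, 1) := by
      intro h
      have := (Prod.ext_iff.1 h).2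
      simp at this
    rw [h2]
    refine stepA (A := X.add (zob d)) hS (x := Sum.inl (s i)) (c := Sum.inr (i, 1))
      (s := Sum.inr (i, 0)) (N := NL s) (by simp) (by simp)
      (fun h => h10 (Sum.inr_injective h)) (NL_inl i) (NL_inr _) (NL_inr _) (AT_spec hs hAT i)
      (PX k d X) ?_ ?_ ?_ ?_ ?_ hu hv huv
    · intro m hm
      exact PX_HA (fun z => mv_inv_of (by simp) _ _) hm
    · intro m hm
      exact PX_HA (fun z => mv_of (by simp) _ _) hm
    · intro w hw hw0
      refine hspare _ ⟨true, 1, one_mem _, w, K_mono ?_ hw, by rw [one_mul, hw0], rfl⟩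
      rintro l (hl | hl)
      · exact Or.inl hl
      · exact Or.inr (Or.inr ⟨rfl, hl⟩)
    · intro w hw
      have hw' : w ∈ K (WL s false i) := K_mono (fun l hl => Or.inl hl) hw
      exact hspare _ ⟨false, w, hw', w⁻¹, inv_mem hw', by rw [mul_inv_cancel, abv_one], rfl⟩
    · intro w hw hw0
      refine hspare _ ⟨false, 1, one_mem _, w, K_mono ?_ hw, by rw [one_mul, hw0], rfl⟩
      rintro l (hl | hl)
      · exact Or.inl hl
      · exact Or.inr (Or.inl hl)

/-- The stabilisation of a standard torus is good. -/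
theorem torus_PX (f : Fin d → IA X.X) (hf : IsTorus f) :
    fI (HIA k d) (A := X) (B := X.add (zob d)) Sum.inl Sum.inl_injective (torusClass k f)
      ∈ PX k d X := by
  have hc := hf.commute
  obtain ⟨s, hs, hmv⟩ := hf
  have e0 : (torusClass k f : (HIA k d).obj X) = tm k X (fun i => (f i : MulAut (FreeGroup X.X))) := by
    rw [tm_of (fun i => (f i).2)]
    exact torusClass_eq k f hc
  have hc' : ∀ i j, Commute (f i : MulAut (FreeGroup X.X)) (f j : MulAut (FreeGroup X.X)) := by
    intro i j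
    exact congrArg Subtype.val (hc i j)
  have e1 : fI (HIA k d) (A := X) (B := X.add (zob d)) Sum.inl Sum.inl_injective (torusClass k f)
      = tm k (X.add (zob d)) (fun i => push (injΘ (Sum.inl : X.X → (X.add (zob d)).X)
        Sum.inl_injective) (f i)) := by
    have h3 := tm_map (k := k) (isLift_inj (A := X) (B := X.add (zob d)) Sum.inl Sum.inl_injective)
      (fun i => (f i : MulAut (FreeGroup X.X))) (fun i => (f i).2) hc'
    rw [← e0] at h3
    exact h3
  rw [e1]
  refine mix_PX hs Finset.univ _ (fun i _ => ?_) (fun i hi => absurd (Finset.mem_univ i) hi)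
  obtain ⟨⟨u, hu, v, hv, h1⟩, h2⟩ := hmv i
  have hsi : s i ∉ (Set.range s)ᶜ := fun h => h ⟨i, rfl⟩
  have hux : u ∈ K ({s i}ᶜ : Set X.X) := K_compl hsi hu
  have hvx : v ∈ K ({s i}ᶜ : Set X.X) := K_compl hsi hv
  have e2 : (f i : MulAut (FreeGroup X.X)) = mv (s i) u v := eq_mv hux hvx h1 h2
  have huv : abv (u * v) = 0 := by
    have h3 := (f i).2 (FreeGroup.of (s i))
    rw [h1, abv_mul, abv_mul] at h3
    rw [abv_mul]
    have h4 : abv u + abv v
        = (abv u + abv (FreeGroup.of (s i)) + abv v) - abv (FreeGroup.of (s i)) := by abel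
    rw [h4, h3, sub_self]
  have hmap : ∀ w ∈ K ((Set.range s)ᶜ : Set X.X),
      FreeGroup.map (Sum.inl : X.X → (X.add (zob d)).X) w ∈ K (NL s) := by
    intro w hw
    refine K_map_mem (f := FreeGroup.map (Sum.inl : X.X → (X.add (zob d)).X)) ?_ hw
    intro y hy
    rw [FreeGroup.map.of]
    exact of_mem_K ⟨y, hy, rfl⟩
  refine ⟨FreeGroup.map Sum.inl u, hmap u hu, FreeGroup.map Sum.inl v, hmap v hv, ?_, ?_⟩
  · rw [← map_mul, abv_map, huv, mapDomain_zero]
  · change push _ (f i : MulAut (FreeGroup X.X)) = _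
    rw [e2, push_inj_mv _ _ hux hvx]

theorem stab_nat {X Y Z : SZ} (φ : X ⟶ Y) :
    φ ≫ ofInj (A := Y) (B := Y.add Z) Sum.inl Sum.inl_injective
      = ofInj (A := X) (B := X.add Z) Sum.inl Sum.inl_injective ≫ sumMap φ (𝟙 Z) := by
  refine SZ.hom_ext (AddMonoidHom.ext fun v => ?_) (AddMonoidHom.ext fun v => ?_)
  · rw [comp_i, comp_i, ofInj_i, ofInj_i, sumMap_i, spl_inl, spl_symm, map_zero, mapDomain_zero,
      add_zero]
  · refine Finsupp.ext fun a => ?_
    rfl

/-- The stabilisation of the elements of `torSub` is small. -/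
theorem torSub_stab (Y : SZ) (c : (HIA k d).obj Y) (hc : c ∈ torSub k d Y) :
    fI (HIA k d) (A := Y) (B := Y.add (zob d)) Sum.inl Sum.inl_injective c
      ∈ Wsp k d (zob d) Y := by
  refine Submodule.span_induction ?_ (by rw [map_zero]; exact Submodule.zero_mem _)
    (fun a b _ _ ha hb => by rw [map_add]; exact Submodule.add_mem _ ha hb)
    (fun r a _ ha => by rw [map_smul]; exact Submodule.smul_mem _ _ ha) hc
  rintro _ ⟨X, φ, f, hf, rfl⟩
  have h1 := torus_PX (k := k) f hf Y (sumMap φ (𝟙 (zob d))) (par_sum φ)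
  have h2 := congrArg (fun ψ => ((HIA k d).map ψ).hom (torusClass k f)) (stab_nat (Z := zob d) φ)
  simp only [CategoryTheory.Functor.map_comp] at h2
  have h3 : fI (HIA k d) (A := Y) (B := Y.add (zob d)) Sum.inl Sum.inl_injective
      (((HIA k d).map φ).hom (torusClass k f)) = ((HIA k d).map (sumMap φ (𝟙 (zob d)))).hom
      (fI (HIA k d) (A := X) (B := X.add (zob d)) Sum.inl Sum.inl_injective (torusClass k f)) := h2
  rw [h3]
  exact h1

theorem Wsp_Sml (Y : SZ) (c : (HIA k d).obj (Y.add (zob d))) (hc : c ∈ Wsp k d (zob d) Y) :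
    ∃ h : c ∈ torSub k d (Y.add (zob d)), (⟨c, h⟩ : (torFun k d).obj (Y.add (zob d)))
      ∈ Sml (torFun k d) (zob d) (3 * d + 1) Y := by
  refine Submodule.span_induction
    (p := fun c _ => ∃ h : c ∈ torSub k d (Y.add (zob d)),
      (⟨c, h⟩ : (torFun k d).obj (Y.add (zob d))) ∈ Sml (torFun k d) (zob d) (3 * d + 1) Y)
    ?_ ?_ ?_ ?_ hc
  · rintro _ ⟨S, j, hj, w, hcard, hw, rfl⟩
    refine ⟨torSub_map k d _ _ hw, Submodule.subset_span ⟨S, j, hj, ⟨w, hw⟩, hcard, ?_⟩⟩
    rfl
  · exact ⟨Submodule.zero_mem _, Submodule.zero_mem _⟩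
  · rintro a b _ _ ⟨ha, ha'⟩ ⟨hb, hb'⟩
    exact ⟨Submodule.add_mem _ ha hb, Submodule.add_mem _ ha' hb'⟩
  · rintro r a _ ⟨ha, ha'⟩
    exact ⟨Submodule.smul_mem _ r ha, Submodule.smul_mem _ r ha'⟩

/-- The upper bound. -/
theorem wpol_torFun (k : Type) [CommRing k] (d : ℕ) : WPol (3 * d + 1) (torFun k d) := by
  refine wpol_of_small (zob d) _ _ fun Y u => ?_
  obtain ⟨h, h'⟩ := Wsp_Sml (k := k) (d := d) Y _ (torSub_stab Y u.1 u.2)
  exact h'

end Pool.Agent.IAH
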