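import Pool.Agent.IAH.StepA

/-!
# Expansion of a slot in letters
-/

namespace Pool.Agent.IAH

open Finsupp CategoryTheory

section comm

variable {X : Type}

/-- A word with zero exponent sums is a product of commutators. -/
theorem mem_commutator {w : FreeGroup X} (hw : abv w = 0) :
    w ∈ Subgroup.closure {g : FreeGroup X | ∃ a b, cm a b = g} := by
  have h1 : w ∈ commutator (FreeGroup X) := by
    rw [← Abelianization.ker_of, MonoidHom.mem_ker]
    have h := add_vanish (M := Additive (Abelianization (FreeGroup X)))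
      (fun w => Additive.ofMul (Abelianization.of w)) (fun v w => by rw [map_mul]; rfl) hw
    exact h
  rw [commutator_eq_closure] at h1
  exact h1

theorem mvR_mul {s : X} {g h : FreeGroup X} (hg : g ∈ K ({s}ᶜ : Set X))
    (hh : h ∈ K ({s}ᶜ : Set X)) : mv s 1 g * mv s 1 h = mv s 1 (g * h) := by
  rw [mv_mul (one_mem _) hg (one_mem _) hh, one_mul]

theorem mvR_inv {s : X} {g : FreeGroup X} (hg : g ∈ K ({s}ᶜ : Set X)) :
    (mv s 1 g)⁻¹ = mv s 1 g⁻¹ := by
  rw [mv_inv (one_mem _) hg, inv_one]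

theorem mvR_cm {s : X} {g h : FreeGroup X} (hg : g ∈ K ({s}ᶜ : Set X))
    (hh : h ∈ K ({s}ᶜ : Set X)) : mv s 1 (cm g h) = cm (mv s 1 g) (mv s 1 h) := by
  rw [cm, cm, mvR_inv hg, mvR_inv hh, mvR_mul hg hh, mvR_mul (mul_mem hg hh) (inv_mem hg),
    mvR_mul (mul_mem (mul_mem hg hh) (inv_mem hg)) (inv_mem hh)]

theorem idQ {s z : X} (hsz : s ≠ z) {g u : FreeGroup X} (hgs : g ∈ K ({s}ᶜ : Set X))
    (hgz : g ∈ K ({z}ᶜ : Set X)) (hus : u ∈ K ({s}ᶜ : Set X)) (huz : u ∈ K ({z}ᶜ : Set X)) :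
    mv z u 1 * mv s 1 (cm g (FreeGroup.of z)) * (mv z u 1)⁻¹
      = mv s 1 (cm g (u * FreeGroup.of z)) := by
  have hz := of_compl (Ne.symm hsz)
  rw [mul_inv_eq_iff_eq_mul]
  apply aut_ext
  intro y
  simp only [MulAut.mul_apply]
  by_cases hy : y = s
  · subst hy
    rw [mv_self (one_mem _) (cm_mem hgs hz), one_mul, map_mul, mv_of hsz,
      mv_self (one_mem _) (cm_mem hgs (mul_mem hus hz)), one_mul, cm, map_mul, map_mul, map_mul,
      map_inv, map_inv, mv_fix hgz, mv_self huz (one_mem _), mul_one, cm]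
  · by_cases hy' : y = z
    · subst hy'
      rw [mv_of hy, mv_self huz (one_mem _), map_mul, map_mul, map_one, mv_of hy, mv_fix hus]
    · rw [mv_of hy, mv_of hy', mv_of hy]

end comm

variable {k : Type} [CommRing k] {d : ℕ} {A : SZ} {f : Fin d → MulAut (FreeGroup A.X)} {i : Fin d}

/-- The letter elements of a slot. -/
def LT {X : Type} (s : X) (T : Set X) : Set (MulAut (FreeGroup X)) :=
  {g | (∃ l ∈ T, g = mv s (FreeGroup.of l) (FreeGroup.of l)⁻¹) ∨
    ∃ l ∈ T, ∃ l' ∈ T, g = mv s 1 (cm (FreeGroup.of l) (FreeGroup.of l'))}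

section stepP

variable {s z : A.X} {T : Set A.X}

theorem chi_P1 (hS : Slot f i) (hsz : s ≠ z) (hs : s ∉ T) (hz : z ∉ T)
    (hsp : Spec f i {s, z} (T ∪ {s, z})) {g u : FreeGroup A.X} (hg : g ∈ K T) (hu : u ∈ K T)
    (hu0 : abv u = 0) : chi k f i (mv s 1 (cm g u)) = 0 := by
  have hTU : T ⊆ T ∪ {s, z} := Set.subset_union_left
  have hsB : s ∈ ({s, z} : Set A.X) := by simp
  have hzB : z ∈ ({s, z} : Set A.X) := by simp
  have hzU : FreeGroup.of z ∈ K (T ∪ ({s, z} : Set A.X)) := of_mem_K (Or.inr hzB)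
  have cenmv : ∀ {y : A.X} {a b : FreeGroup A.X}, y ∈ ({s, z} : Set A.X) →
      a ∈ K (T ∪ ({s, z} : Set A.X)) → b ∈ K (T ∪ ({s, z} : Set A.X)) →
      mv y a b ∈ cen f i := fun hy ha hb => hsp.cen (blk_mv hsp.sub hy ha hb)
  have hgs := K_compl hs hg
  have hgz := K_compl hz hg
  have hus := K_compl hs hu
  have huz := K_compl hz hu
  have hzs := of_compl (Ne.symm hsz)
  have hgU := K_mono hTU hg
  have huU := K_mono hTU hu
  have h0 : cm (mv z u 1) (mv s 1 (cm g (FreeGroup.of z)))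
      = mv s 1 (cm g u) * mv s 1 (cm u (cm g (FreeGroup.of z))) := by
    rw [cm, idQ hsz hgs hgz hus huz, mvR_inv (cm_mem hgs hzs),
      mvR_mul (cm_mem hgs (mul_mem hus hzs)) (inv_mem (cm_mem hgs hzs)),
      mvR_mul (cm_mem hgs hus) (cm_mem hus (cm_mem hgs hzs))]
    congr 1
    simp only [cm]
    group
  have h1 : chi k f i (cm (mv z u 1) (mv s 1 (cm g (FreeGroup.of z)))) = 0 :=
    chi_cm hS (mv_mem_IA (by rw [mul_one, hu0])) (mv_mem_IA (by rw [one_mul, abv_cm]))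
      (cenmv hzB huU (one_mem _)) (cenmv hsB (one_mem _) (cm_mem hgU hzU))
  have h2 : chi k f i (mv s 1 (cm u (cm g (FreeGroup.of z)))) = 0 := by
    rw [mvR_cm hus (cm_mem hgs hzs)]
    exact chi_cm hS (mv_mem_IA (by rw [one_mul, hu0])) (mv_mem_IA (by rw [one_mul, abv_cm]))
      (cenmv hsB (one_mem _) huU) (cenmv hsB (one_mem _) (cm_mem hgU hzU))
  rw [h0, chi_mul hS (mv_mem_IA (by rw [one_mul, abv_cm])) (mv_mem_IA (by rw [one_mul, abv_cm]))
    (cenmv hsB (one_mem _) (cm_mem hgU huU))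
    (cenmv hsB (one_mem _) (cm_mem huU (cm_mem hgU hzU))), h2, add_zero] at h1
  exact h1

theorem rho_mul (hS : Slot f i) (hs : s ∉ T) (hsp : Spec f i {s, z} (T ∪ {s, z}))
    {a b : FreeGroup A.X} (ha : a ∈ K T) (hb : b ∈ K T) (ha0 : abv a = 0) (hb0 : abv b = 0) :
    chi k f i (mv s 1 (a * b)) = chi k f i (mv s 1 a) + chi k f i (mv s 1 b) := by
  have hTU : T ⊆ T ∪ {s, z} := Set.subset_union_left
  have hsB : s ∈ ({s, z} : Set A.X) := by simp
  have cenmv : ∀ {y : A.X} {a b : FreeGroup A.X}, y ∈ ({s, z} : Set A.X) →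
      a ∈ K (T ∪ ({s, z} : Set A.X)) → b ∈ K (T ∪ ({s, z} : Set A.X)) →
      mv y a b ∈ cen f i := fun hy ha hb => hsp.cen (blk_mv hsp.sub hy ha hb)
  rw [← mvR_mul (K_compl hs ha) (K_compl hs hb)]
  exact chi_mul hS (mv_mem_IA (by rw [one_mul, ha0])) (mv_mem_IA (by rw [one_mul, hb0]))
    (cenmv hsB (one_mem _) (K_mono hTU ha)) (cenmv hsB (one_mem _) (K_mono hTU hb))

theorem rho_one (hS : Slot f i) : chi k f i (mv s 1 1) = 0 := by
  rw [mv_one, chi_one hS]

theorem cm_one_left (b : FreeGroup A.X) : cm 1 b = 1 := by rw [cm]; group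

theorem cm_one_right (b : FreeGroup A.X) : cm b 1 = 1 := by rw [cm]; group

theorem beta_left (hS : Slot f i) (hsz : s ≠ z) (hs : s ∉ T) (hz : z ∉ T)
    (hsp : Spec f i {s, z} (T ∪ {s, z})) {a a' b : FreeGroup A.X} (ha : a ∈ K T) (ha' : a' ∈ K T)
    (hb : b ∈ K T) : chi k f i (mv s 1 (cm (a * a') b))
      = chi k f i (mv s 1 (cm a b)) + chi k f i (mv s 1 (cm a' b)) := by
  have e : cm (a * a') b = cm a (cm a' b) * (cm a' b * cm a b) := by
    simp only [cm]; group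
  rw [e, rho_mul hS hs hsp (cm_mem ha (cm_mem ha' hb)) (mul_mem (cm_mem ha' hb) (cm_mem ha hb))
    (abv_cm _ _) (by rw [abv_mul, abv_cm, abv_cm, add_zero]),
    chi_P1 hS hsz hs hz hsp ha (cm_mem ha' hb) (abv_cm _ _), zero_add,
    rho_mul hS hs hsp (cm_mem ha' hb) (cm_mem ha hb) (abv_cm _ _) (abv_cm _ _), add_comm]

theorem beta_right (hS : Slot f i) (hsz : s ≠ z) (hs : s ∉ T) (hz : z ∉ T)
    (hsp : Spec f i {s, z} (T ∪ {s, z})) {a b b' : FreeGroup A.X} (ha : a ∈ K T) (hb : b ∈ K T)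
    (hb' : b' ∈ K T) : chi k f i (mv s 1 (cm a (b * b')))
      = chi k f i (mv s 1 (cm a b)) + chi k f i (mv s 1 (cm a b')) := by
  have e : cm a (b * b') = cm a b * (cm b (cm a b') * cm a b') := by
    simp only [cm]; group
  rw [e, rho_mul hS hs hsp (cm_mem ha hb) (mul_mem (cm_mem hb (cm_mem ha hb')) (cm_mem ha hb'))
    (abv_cm _ _) (by rw [abv_mul, abv_cm, abv_cm, add_zero]),
    rho_mul hS hs hsp (cm_mem hb (cm_mem ha hb')) (cm_mem ha hb') (abv_cm _ _) (abv_cm _ _),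
    chi_P1 hS hsz hs hz hsp hb (cm_mem ha hb') (abv_cm _ _), zero_add]

/-- The span of the letter classes. -/
noncomputable def spLT (k : Type) [CommRing k] {d : ℕ} {A : SZ} (f : Fin d → MulAut (FreeGroup A.X)) (i : Fin d)
    (s : A.X) (T : Set A.X) : Submodule k ((HIA k d).obj A) :=
  Submodule.span k {c | ∃ g ∈ LT s T, chi k f i g = c}

theorem beta_mem (hS : Slot f i) (hsz : s ≠ z) (hs : s ∉ T) (hz : z ∉ T)
    (hsp : Spec f i {s, z} (T ∪ {s, z})) {a b : FreeGroup A.X} (ha : a ∈ K T) (hb : b ∈ K T) :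
    chi k f i (mv s 1 (cm a b)) ∈ spLT k f i s T := by
  refine Subgroup.closure_induction (p := fun a _ => chi k f i (mv s 1 (cm a b)) ∈ spLT k f i s T)
    ?_ ?_ ?_ ?_ ha
  · rintro _ ⟨l, hl, rfl⟩
    refine Subgroup.closure_induction
      (p := fun b _ => chi k f i (mv s 1 (cm (FreeGroup.of l) b)) ∈ spLT k f i s T) ?_ ?_ ?_ ?_ hb
    · rintro _ ⟨l', hl', rfl⟩
      exact Submodule.subset_span ⟨_, Or.inr ⟨l, hl, l', hl', rfl⟩, rfl⟩
    · rw [cm_one_right, rho_one hS]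
      exact Submodule.zero_mem _
    · intro b b' hb hb' h h'
      rw [beta_right hS hsz hs hz hsp (of_mem_K hl) hb hb']
      exact Submodule.add_mem _ h h'
    · intro b hb h
      have e := beta_right (k := k) hS hsz hs hz hsp (of_mem_K hl) hb (inv_mem hb)
      rw [mul_inv_cancel, cm_one_right, rho_one hS] at e
      rw [eq_neg_of_add_eq_zero_right e.symm]
      exact Submodule.neg_mem _ h
  · rw [cm_one_left, rho_one hS]
    exact Submodule.zero_mem _
  · intro a a' ha ha' h h'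
    rw [beta_left hS hsz hs hz hsp ha ha' hb]
    exact Submodule.add_mem _ h h'
  · intro a ha h
    have e := beta_left (k := k) hS hsz hs hz hsp ha (inv_mem ha) hb
    rw [mul_inv_cancel, cm_one_left, rho_one hS] at e
    rw [eq_neg_of_add_eq_zero_right e.symm]
    exact Submodule.neg_mem _ h

theorem rho_mem (hS : Slot f i) (hsz : s ≠ z) (hs : s ∉ T) (hz : z ∉ T)
    (hsp : Spec f i {s, z} (T ∪ {s, z})) {w : FreeGroup A.X} (hw : w ∈ K T) (hw0 : abv w = 0) :
    chi k f i (mv s 1 w) ∈ spLT k f i s T := by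
  -- write `w` in the letters of `T`
  have hw' : w ∈ K (Set.range (Subtype.val : T → A.X)) := by rwa [Subtype.range_coe]
  obtain ⟨v, rfl⟩ := K_range hw'
  have hv0 : abv v = 0 := by
    rw [abv_map] at hw0
    apply mapDomain_injective Subtype.val_injective
    rw [hw0, mapDomain_zero]
  have hmem : ∀ v : FreeGroup T, FreeGroup.map Subtype.val v ∈ K T := fun v =>
    map_mem_K (fun y => y.2) v
  have hz' : ∀ v : FreeGroup T, abv v = 0 →
      abv (FreeGroup.map (Subtype.val : T → A.X) v) = 0 := fun v hv => by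
    rw [abv_map, hv, mapDomain_zero]
  have key := Subgroup.closure_induction
    (p := fun v _ => abv v = 0 ∧
      chi k f i (mv s 1 (FreeGroup.map (Subtype.val : T → A.X) v)) ∈ spLT k f i s T)
    ?_ ?_ ?_ ?_ (mem_commutator hv0)
  · exact key.2
  · rintro _ ⟨a, b, rfl⟩
    refine ⟨abv_cm _ _, ?_⟩
    rw [map_cm]
    exact beta_mem hS hsz hs hz hsp (hmem a) (hmem b)
  · refine ⟨abv_one, ?_⟩
    rw [map_one, rho_one hS]
    exact Submodule.zero_mem _
  · rintro a b _ _ ⟨ha, ha'⟩ ⟨hb, hb'⟩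
    refine ⟨by rw [abv_mul, ha, hb, add_zero], ?_⟩
    rw [map_mul, rho_mul hS hs hsp (hmem a) (hmem b) (hz' a ha) (hz' b hb)]
    exact Submodule.add_mem _ ha' hb'
  · rintro a _ ⟨ha, ha'⟩
    refine ⟨by rw [abv_inv, ha, neg_zero], ?_⟩
    have e := rho_mul (k := k) hS hs hsp (hmem a) (inv_mem (hmem a)) (hz' a ha)
      (by rw [abv_inv, hz' a ha, neg_zero])
    rw [mul_inv_cancel, rho_one hS] at e
    rw [map_inv, eq_neg_of_add_eq_zero_right e.symm]
    exact Submodule.neg_mem _ ha'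

theorem chiC_mem (hS : Slot f i) (hs : s ∉ T) (hsp : Spec f i {s, z} (T ∪ {s, z}))
    {u : FreeGroup A.X} (hu : u ∈ K T) : chi k f i (mv s u u⁻¹) ∈ spLT k f i s T := by
  have hTU : T ⊆ T ∪ {s, z} := Set.subset_union_left
  have hsB : s ∈ ({s, z} : Set A.X) := by simp
  have cenmv : ∀ {y : A.X} {a b : FreeGroup A.X}, y ∈ ({s, z} : Set A.X) →
      a ∈ K (T ∪ ({s, z} : Set A.X)) → b ∈ K (T ∪ ({s, z} : Set A.X)) →
      mv y a b ∈ cen f i := fun hy ha hb => hsp.cen (blk_mv hsp.sub hy ha hb)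
  have hmul : ∀ a ∈ K T, ∀ b ∈ K T, chi k f i (mv s (a * b) (a * b)⁻¹)
      = chi k f i (mv s b b⁻¹) + chi k f i (mv s a a⁻¹) := by
    intro a ha b hb
    rw [← mvC_mul (K_compl hs hb) (K_compl hs ha)]
    exact chi_mul hS (mv_mem_IA (by rw [mul_inv_cancel, abv_one]))
      (mv_mem_IA (by rw [mul_inv_cancel, abv_one]))
      (cenmv hsB (K_mono hTU hb) (inv_mem (K_mono hTU hb)))
      (cenmv hsB (K_mono hTU ha) (inv_mem (K_mono hTU ha)))
  have h1 : chi k f i (mv s 1 1⁻¹) = 0 := by rw [inv_one, rho_one hS]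
  refine Subgroup.closure_induction (p := fun u _ => chi k f i (mv s u u⁻¹) ∈ spLT k f i s T)
    ?_ ?_ ?_ ?_ hu
  · rintro _ ⟨l, hl, rfl⟩
    exact Submodule.subset_span ⟨_, Or.inl ⟨l, hl, rfl⟩, rfl⟩
  · rw [h1]; exact Submodule.zero_mem _
  · intro a b ha hb h h'
    rw [hmul a ha b hb]
    exact Submodule.add_mem _ h' h
  · intro a ha h
    have e := hmul a ha a⁻¹ (inv_mem ha)
    rw [mul_inv_cancel, h1] at e
    rw [eq_neg_of_add_eq_zero_left e.symm]
    exact Submodule.neg_mem _ h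

/-- The expansion of a slot in letters. -/
theorem stepP (hS : Slot f i) (hsz : s ≠ z) (hs : s ∉ T) (hz : z ∉ T)
    (hsp : Spec f i {s, z} (T ∪ {s, z})) {u v : FreeGroup A.X} (hu : u ∈ K T) (hv : v ∈ K T)
    (huv : abv (u * v) = 0) : chi k f i (mv s u v) ∈ spLT k f i s T := by
  have hTU : T ⊆ T ∪ {s, z} := Set.subset_union_left
  have hsB : s ∈ ({s, z} : Set A.X) := by simp
  have cenmv : ∀ {y : A.X} {a b : FreeGroup A.X}, y ∈ ({s, z} : Set A.X) →
      a ∈ K (T ∪ ({s, z} : Set A.X)) → b ∈ K (T ∪ ({s, z} : Set A.X)) →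
      mv y a b ∈ cen f i := fun hy ha hb => hsp.cen (blk_mv hsp.sub hy ha hb)
  rw [mv_split (K_compl hs hu) (K_compl hs hv),
    chi_mul hS (mv_mem_IA (by rw [mul_inv_cancel, abv_one])) (mv_mem_IA (by rw [one_mul, huv]))
    (cenmv hsB (K_mono hTU hu) (inv_mem (K_mono hTU hu)))
    (cenmv hsB (one_mem _) (K_mono hTU (mul_mem hu hv)))]
  exact Submodule.add_mem _ (chiC_mem hS hs hsp hu)
    (rho_mem hS hsz hs hz hsp (mul_mem hu hv) huv)

end stepP

end Pool.Agent.IAH
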