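import Pool.Agent.IAH.SzDef

/-!
# The category `S(ℤ)`: lemmas
-/

namespace Pool.Agent.IAH

open CategoryTheory CategoryTheory.Limits

theorem ofInj_comp {A B C : SZ} (j : A.X → B.X) (hj : Function.Injective j) (l : B.X → C.X)
    (hl : Function.Injective l) : ofInj j hj ≫ ofInj l hl = ofInj (l ∘ j) (hl.comp hj) := by
  refine SZ.hom_ext ?_ ?_
  · refine AddMonoidHom.ext fun v => ?_
    exact (Finsupp.mapDomain_comp).symm
  · refine AddMonoidHom.ext fun v => ?_
    ext a
    rfl

theorem ofInj_id (A : SZ) : ofInj (id : A.X → A.X) Function.injective_id = 𝟙 A := by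
  refine SZ.hom_ext ?_ ?_
  · refine AddMonoidHom.ext fun v => ?_
    exact Finsupp.mapDomain_id
  · refine AddMonoidHom.ext fun v => ?_
    ext a
    rfl

theorem ofInj_i {A B : SZ} (j : A.X → B.X) (hj : Function.Injective j) (v : A.X →₀ ℤ) :
    (ofInj j hj).i v = Finsupp.mapDomain j v := rfl

theorem ofInj_p {A B : SZ} (j : A.X → B.X) (hj : Function.Injective j) (v : B.X →₀ ℤ) (a : A.X) :
    (ofInj j hj).p v a = v (j a) := rfl

theorem sumMap_ofInj {A B C D : SZ} (j : A.X → C.X) (hj : Function.Injective j) (l : B.X → D.X)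
    (hl : Function.Injective l) :
    sumMap (ofInj j hj) (ofInj l hl) = ofInj (A := A.add B) (B := C.add D) (Sum.map j l)
      (Sum.map_injective.2 ⟨hj, hl⟩) := by
  refine SZ.hom_ext (Finsupp.addHom_ext fun v c => ?_) (AddMonoidHom.ext fun v => ?_)
  · rw [sumMap_i, ofInj_i, ofInj_i, ofInj_i, AddEquiv.symm_apply_eq, Finsupp.mapDomain_single]
    rcases v with v | v
    · rw [← Finsupp.mapDomain_single (f := Sum.inl) (a := v), spl_inl, Finsupp.mapDomain_single,
        Finsupp.mapDomain_zero, Sum.map_inl,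
        ← Finsupp.mapDomain_single (f := Sum.inl) (a := j v), spl_inl]
    · rw [← Finsupp.mapDomain_single (f := Sum.inr) (a := v), spl_inr, Finsupp.mapDomain_single,
        Finsupp.mapDomain_zero, Sum.map_inr,
        ← Finsupp.mapDomain_single (f := Sum.inr) (a := l v), spl_inr]
  · rw [sumMap_p, AddEquiv.symm_apply_eq]
    refine Prod.ext (Finsupp.ext fun a => ?_) (Finsupp.ext fun a => ?_) <;> rfl

variable {k : Type} [CommRing k]

/-- The projection to the cokernel. -/
noncomputable def dpi (x : SZ) (F : SZ ⥤ ModuleCat k) (Y : SZ) :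
    F.obj (x.add Y) →ₗ[k] (delta x F).obj Y :=
  ((cokernel.π (Functor.whiskerRight (inclL x) F)).app Y).hom

theorem dpi_surj (x : SZ) (F : SZ ⥤ ModuleCat k) (Y : SZ) : Function.Surjective (dpi x F Y) := by
  have h : Epi ((cokernel.π (Functor.whiskerRight (inclL x) F)).app Y) := inferInstance
  exact (ModuleCat.epi_iff_surjective _).1 h

theorem dpi_incl (x : SZ) (F : SZ ⥤ ModuleCat k) (Y : SZ) (w : F.obj Y) :
    dpi x F Y ((F.map (ofInj (A := Y) (B := x.add Y) Sum.inr Sum.inr_injective)).hom w) = 0 := by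
  have h := cokernel.condition (Functor.whiskerRight (inclL x) F)
  have h2 := congrArg (fun f => (f.app Y).hom w) h
  exact h2

theorem dpi_ker (x : SZ) (F : SZ ⥤ ModuleCat k) (Y : SZ) (u : F.obj (x.add Y))
    (hu : dpi x F Y u = 0) :
    ∃ w : F.obj Y, (F.map (ofInj (A := Y) (B := x.add Y) Sum.inr Sum.inr_injective)).hom w = u := by
  have h := ShortComplex.exact_cokernel (Functor.whiskerRight (inclL x) F)
  have h2 := h.map ((evaluation SZ (ModuleCat k)).obj Y)
  rw [ShortComplex.moduleCat_exact_iff] at h2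
  exact h2 u hu

theorem dpi_nat (x : SZ) (F : SZ ⥤ ModuleCat k) {Y Y' : SZ} (f : Y ⟶ Y') (u : F.obj (x.add Y)) :
    ((delta x F).map f).hom (dpi x F Y u) = dpi x F Y' ((F.map (sumMap (𝟙 x) f)).hom u) := by
  have h := (cokernel.π (Functor.whiskerRight (inclL x) F)).naturality f
  exact (congrArg (fun g => g.hom u) h).symm

end Pool.Agent.IAH
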