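import Pool.Agent.IAH.Hom

/-!
# The fundamental classes of tori
-/

namespace Pool.Agent.IAH

open Finsupp

variable {k G : Type} [CommRing k] [Group G]

/-- The same chain, with the homotopy operators. -/
noncomputable def tor : (d : ℕ) → (Fin d → G) → Ch k G d
  | 0, _ => e0
  | d + 1, g => Hop (g 0) (tor d (Fin.tail g))

theorem ins_single (a : G) {n : ℕ} (t : Fin n → G) (c : k) :
    ins a (single t c) = c • ∑ i : Fin (n + 1),
      (-1 : k) ^ (i : ℕ) • single (Fin.insertNth i a t : Fin (n + 1) → G) (1 : k) := by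
  rw [ins, linearCombination_single]

theorem ins_zero (a : G) (x : Ch k G 0) : ins a x = pre a x := by
  obtain ⟨c, rfl⟩ := ch_zero_eq x
  rw [map_smul, map_smul, e0, ins_single, one_smul, pre_single, Fin.sum_univ_succ]
  simp only [Finset.univ_eq_empty, Finset.sum_empty, add_zero, Fin.val_zero, pow_zero, one_smul]
  rw [Fin.insertNth_zero']

theorem ins_pre (a g : G) {n : ℕ} (x : Ch k G n) :
    ins a (pre g x) = pre a (pre g x) - pre g (ins a x) := by
  induction x using Finsupp.induction_linear with
  | zero => simp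
  | add x y hx hy => simp only [map_add, hx, hy]; abel
  | single t c =>
    rw [pre_single, ins_single, ins_single, Fin.sum_univ_succ]
    simp only [Fin.val_zero, pow_zero, one_smul, Fin.val_succ, map_smul, map_sum, pre_single,
      smul_add]
    simp only [Fin.insertNth_succ_cons, pow_succ, mul_neg_one, neg_smul, Finset.sum_neg_distrib, smul_neg]
    rw [Fin.insertNth_zero', smul_single, smul_eq_mul, mul_one, sub_eq_add_neg]

/-- Chains all of whose entries lie in `S`. -/
noncomputable def sup (k : Type) [CommRing k] (S : Set G) (n : ℕ) : Submodule k (Ch k G n) :=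
  supported k k {t : Fin n → G | ∀ i, t i ∈ S}

theorem sup_ind {S : Set G} {p : (n : ℕ) → Ch k G n → Prop}
    (zero : ∀ n, p n 0) (add : ∀ n x y, p n x → p n y → p n (x + y))
    (smul : ∀ n (c : k) x, p n x → p n (c • x))
    (base : p 0 e0) (cons : ∀ n g x, g ∈ S → x ∈ sup k S n → p n x → p (n + 1) (pre g x)) :
    ∀ (n : ℕ) (x : Ch k G n), x ∈ sup k S n → p n x := by
  have key : ∀ (n : ℕ) (t : Fin n → G), (∀ i, t i ∈ S) → p n (single t 1) := by
    intro n
    induction n with
    | zero =>
      intro t _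
      have : t = fun i => i.elim0 := funext fun i => i.elim0
      rw [this]
      exact base
    | succ n ih =>
      intro t ht
      have h1 := cons n (t 0) (single (Fin.tail t) 1) (ht 0)
        (single_mem_supported k _ (fun i => ht i.succ)) (ih _ (fun i => ht i.succ))
      rwa [pre_single, Fin.cons_self_tail] at h1
  intro n x hx
  rw [sup, supported_eq_span_single] at hx
  refine Submodule.span_induction ?_ (zero n) (fun x y _ _ => add n x y)
    (fun c x _ => smul n c x) hx
  rintro _ ⟨t, ht, rfl⟩
  exact key n t ht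

theorem pre_mem_sup {S : Set G} {n : ℕ} {g : G} (hg : g ∈ S) {x : Ch k G n}
    (hx : x ∈ sup k S n) : pre g x ∈ sup k S (n + 1) := by
  rw [sup, supported_eq_span_single] at hx
  refine Submodule.span_induction ?_ (by simp) (fun x y _ _ hx hy => by
    rw [map_add]; exact Submodule.add_mem _ hx hy)
    (fun c x _ hx => by rw [map_smul]; exact Submodule.smul_mem _ _ hx) hx
  rintro _ ⟨t, ht, rfl⟩
  simp only [pre_single]
  refine single_mem_supported k _ (fun i => ?_)
  refine Fin.cases ?_ (fun j => ?_) i
  · simpa using hg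
  · simpa using ht j

theorem cj_sup {S : Set G} {a : G} (ha : ∀ s ∈ S, Commute a s) {n : ℕ} {x : Ch k G n}
    (hx : x ∈ sup k S n) : cj a x = x := by
  refine sup_ind (p := fun n x => cj a x = x) (fun n => map_zero _) (fun n x y hx hy => by
    rw [map_add, hx, hy]) (fun n c x hx => by rw [map_smul, hx]) (cj_zero _ _) ?_ n x hx
  intro n g x hg _ ih
  rw [cj_pre, ih]
  congr 2
  rw [mul_assoc, ← (ha g hg).eq, inv_mul_cancel_left]

theorem ins_mem_sup {S : Set G} {a : G} (ha : a ∈ S) {n : ℕ} {x : Ch k G n}
    (hx : x ∈ sup k S n) : ins a x ∈ sup k S (n + 1) := by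
  refine sup_ind (p := fun n x => ins a x ∈ sup k S (n + 1)) (fun n => by simp)
    (fun n x y hx hy => by rw [map_add]; exact Submodule.add_mem _ hx hy)
    (fun n c x hx => by rw [map_smul]; exact Submodule.smul_mem _ _ hx) ?_ ?_ n x hx
  · rw [ins_zero]
    exact pre_mem_sup ha (single_mem_supported k _ (fun i => i.elim0))
  · intro n g x hg hx ih
    rw [ins_pre]
    exact Submodule.sub_mem _ (pre_mem_sup ha (pre_mem_sup hg hx)) (pre_mem_sup hg ih)

theorem ins_eq_Hop {S : Set G} {a : G} (ha : ∀ s ∈ S, Commute a s) {n : ℕ} {x : Ch k G n}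
    (hx : x ∈ sup k S n) : ins a x = Hop a x := by
  refine sup_ind (p := fun n x => ins a x = Hop a x) (fun n => by simp)
    (fun n x y hx hy => by rw [map_add, map_add, hx, hy])
    (fun n c x hx => by rw [map_smul, map_smul, hx]) ?_ ?_ n x hx
  · rw [ins_zero, Hop_zero]
  · intro n g x hg hx ih
    rw [ins_pre, Hop_pre, ih, cj_sup ha (pre_mem_sup hg hx)]

theorem torus_mem_sup : ∀ (d : ℕ) (g : Fin d → G), torus (k := k) d g ∈ sup k (Set.range g) d
  | 0, g => single_mem_supported k _ (fun i => i.elim0)
  | d + 1, g => by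
    rw [torus]
    refine ins_mem_sup (S := Set.range g) ⟨0, rfl⟩ ?_
    refine supported_mono ?_ (torus_mem_sup d (Fin.tail g))
    intro t ht i
    obtain ⟨j, hj⟩ := ht i
    exact ⟨j.succ, hj⟩

theorem torus_eq_tor : ∀ (d : ℕ) (g : Fin d → G), (∀ i j, Commute (g i) (g j)) →
    torus (k := k) d g = tor d g
  | 0, g, _ => rfl
  | d + 1, g, h => by
    rw [torus, tor, ← torus_eq_tor d (Fin.tail g) (fun i j => h _ _)]
    refine ins_eq_Hop (S := Set.range (Fin.tail g)) ?_ (torus_mem_sup d _)
    rintro _ ⟨j, rfl⟩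
    exact h _ _

theorem tor_mp {H : Type} [Group H] (f : G →* H) : ∀ (d : ℕ) (g : Fin d → G),
    mp f (tor (k := k) d g) = tor d (fun i => f (g i))
  | 0, g => mp_zero _ _
  | d + 1, g => by
    rw [tor, ← Hop_mp, tor_mp f d]
    rfl

theorem tor_cj (a : G) (d : ℕ) (g : Fin d → G) (h : ∀ i, Commute a (g i)) :
    cj a (tor (k := k) d g) = tor d g := by
  rw [cj_eq, tor_mp]
  congr 1
  funext i
  rw [cjHom_apply, mul_assoc, ← (h i).eq, inv_mul_cancel_left]

theorem tor_isCyc : ∀ (d : ℕ) (g : Fin d → G), (∀ i j, Commute (g i) (g j)) →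
    IsCyc (tor (k := k) d g)
  | 0, g, _ => trivial
  | 1, g, _ => by
    change bd _ = 0
    rw [tor, bd_Hop_zero]
  | d + 2, g, h => by
    change bd _ = 0
    have e : cj (g 0) (tor (k := k) (d + 1) (Fin.tail g)) = tor (d + 1) (Fin.tail g) :=
      tor_cj _ _ _ (fun i => h _ _)
    rw [tor, bd_Hop, e,
      (show bd (tor (d + 1) (Fin.tail g)) = 0 from tor_isCyc (d + 1) _ (fun i j => h _ _)), map_zero,
      sub_self, sub_zero]

theorem Hop_cj (a c : G) (h : Commute c a) {n : ℕ} (x : Ch k G n) :
    cj c (Hop a x) = Hop a (cj c x) := by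
  rw [cj_eq, cj_eq, ← Hop_mp, cjHom_apply]
  congr 2
  rw [mul_assoc, ← h.eq, inv_mul_cancel_left]

theorem Jop_cj (a b c : G) (h : Commute c a) (h' : Commute c b) {n : ℕ} (x : Ch k G n) :
    cj c (Jop a b x) = Jop a b (cj c x) := by
  rw [cj_eq, cj_eq, ← Jop_mp, cjHom_apply, cjHom_apply]
  congr 2
  · rw [mul_assoc, ← h.eq, inv_mul_cancel_left]
  · rw [mul_assoc, ← h'.eq, inv_mul_cancel_left]

theorem tor_mul : ∀ (d : ℕ) (g : Fin d → G) (i : Fin d) (a b : G),
    (∀ j l, j ≠ i → l ≠ i → Commute (g j) (g l)) → (∀ j, j ≠ i → Commute (g j) a) →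
    (∀ j, j ≠ i → Commute (g j) b) → ∃ w : Ch k G (d + 1),
      tor d (Function.update g i (a * b)) = tor d (Function.update g i a)
        + tor d (Function.update g i b) - bd w ∧
      ∀ c, Commute c a → Commute c b → (∀ j, j ≠ i → Commute c (g j)) → cj c w = w := by
  intro d
  induction d with
  | zero => intro g i; exact i.elim0
  | succ d ih =>
    intro g i
    refine Fin.cases ?_ (fun i => ?_) i
    · intro a b hg ha hb
      have e : ∀ c, Fin.tail (Function.update g 0 c) = Fin.tail g := by
        intro c; funext j; simp [Fin.tail]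
      have hz : ∀ c, tor (k := k) (d + 1) (Function.update g 0 c) = Hop c (tor d (Fin.tail g)) := by
        intro c; rw [tor, e, Function.update_self]
      have hca : cj a (tor (k := k) d (Fin.tail g)) = tor d (Fin.tail g) :=
        tor_cj _ _ _ (fun j => (ha j.succ (Fin.succ_ne_zero j)).symm)
      refine ⟨Jop a b (tor d (Fin.tail g)), ?_, ?_⟩
      · rw [hz, hz, hz]
        have hc : IsCyc (tor (k := k) d (Fin.tail g)) :=
          tor_isCyc d _ (fun j l => hg _ _ (Fin.succ_ne_zero j) (Fin.succ_ne_zero l))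
        cases d with
        | zero =>
          rw [bd_Jop_zero, hca]
          abel
        | succ d =>
          rw [bd_Jop, hca, (show bd (tor (k := k) (d + 1) (Fin.tail g)) = 0 from hc), map_zero]
          abel
      · intro c h1 h2 h3
        have e2 : cj c (tor (k := k) d (Fin.tail g)) = tor d (Fin.tail g) :=
          tor_cj _ _ _ (fun j => h3 _ (Fin.succ_ne_zero j))
        rw [Jop_cj _ _ _ h1 h2, e2]
    · intro a b hg ha hb
      have e : ∀ c, Fin.tail (Function.update g i.succ c) = Function.update (Fin.tail g) i c := by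
        intro c; funext j
        by_cases h : j = i
        · subst h; simp [Fin.tail]
        · rw [Function.update_of_ne h, Fin.tail, Function.update_of_ne]
          · rfl
          · exact fun h' => h (Fin.succ_injective _ h')
      have hz : ∀ c, tor (k := k) (d + 1) (Function.update g i.succ c)
          = Hop (g 0) (tor d (Function.update (Fin.tail g) i c)) := by
        intro c
        rw [tor, e, Function.update_of_ne (Fin.succ_ne_zero i).symm]
      have hs : ∀ j, j ≠ i → j.succ ≠ i.succ := fun j h h' => h (Fin.succ_injective _ h')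
      obtain ⟨w, hw, hw'⟩ := ih (Fin.tail g) i a b (fun j l hj hl => hg _ _ (hs j hj) (hs l hl))
        (fun j hj => ha _ (hs j hj)) (fun j hj => hb _ (hs j hj))
      have h0 : (0 : Fin (d + 1)) ≠ i.succ := (Fin.succ_ne_zero i).symm
      refine ⟨- Hop (g 0) w, ?_, ?_⟩
      · rw [hz, hz, hz, hw, map_sub, map_add, map_neg, bd_Hop,
          hw' (g 0) (ha 0 h0) (hb 0 h0) (fun j hj => hg _ _ h0 (hs j hj))]
        abel
      · intro c h1 h2 h3
        rw [map_neg, Hop_cj _ _ (h3 0 h0), hw' c h1 h2 (fun j hj => h3 _ (hs j hj))]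

/-- The class of a torus. -/
noncomputable def tc {d : ℕ} (g : Fin d → G) : Hm k G d := cls (tor d g)

theorem tc_mul {d : ℕ} (g : Fin d → G) (i : Fin d) (a b : G)
    (h : ∀ j l, j ≠ i → l ≠ i → Commute (g j) (g l)) (ha : ∀ j, j ≠ i → Commute (g j) a)
    (hb : ∀ j, j ≠ i → Commute (g j) b) :
    tc (k := k) (Function.update g i (a * b)) = tc (Function.update g i a)
      + tc (Function.update g i b) := by
  obtain ⟨w, hw, -⟩ := tor_mul (k := k) d g i a b h ha hb
  have hc : ∀ c, (∀ j, j ≠ i → Commute (g j) c) → ∀ j l,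
      Commute (Function.update g i c j) (Function.update g i c l) := by
    intro c hc j l
    by_cases hj : j = i
    · subst hj
      by_cases hl : l = j
      · subst hl; exact Commute.refl _
      · rw [Function.update_self, Function.update_of_ne hl]; exact (hc l hl).symm
    · by_cases hl : l = i
      · subst hl; rw [Function.update_self, Function.update_of_ne hj]; exact hc j hj
      · rw [Function.update_of_ne hl, Function.update_of_ne hj]; exact h _ _ hj hl
  have h1 := tor_isCyc (k := k) d _ (hc a ha)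
  have h2 := tor_isCyc (k := k) d _ (hc b hb)
  rw [tc, hw, sub_eq_add_neg, ← map_neg, cls_add (h1.add h2) (IsCyc.bd _), cls_bd, add_zero,
    cls_add h1 h2]
  rfl

theorem hmap_tc {H : Type} [Group H] (f : G →* H) {d : ℕ} (g : Fin d → G)
    (h : ∀ i j, Commute (g i) (g j)) :
    hmap (k := k) f d (tc g) = tc (fun i => f (g i)) := by
  rw [tc, hmap_cls f (tor_isCyc d g h), tor_mp, tc]

end Pool.Agent.IAH
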